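import Pool.Agent.Arb.Zeta

/-!
# Primes fixed by an automorphism of 2-power order
-/

set_option autoImplicit false

open NumberField Filter Topology ENNReal Ideal IsDedekindDomain

namespace Pool.Agent.Arb

noncomputable section

variable {E : Type*} [Field E] [NumberField E]

/-- the fixed field of an automorphism -/
def fixF (s : E ≃+* E) : IntermediateField ℚ E where
  carrier := {x | s x = x}
  mul_mem' {x y} hx hy := by
    show s (x * y) = x * y
    rw [map_mul, hx, hy]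
  add_mem' {x y} hx hy := by
    show s (x + y) = x + y
    rw [map_add, hx, hy]
  algebraMap_mem' q := by
    show s (algebraMap ℚ E q) = algebraMap ℚ E q
    simp
  inv_mem' x hx := by
    show s x⁻¹ = x⁻¹
    have hx' : s x = x := hx
    rw [map_inv₀, hx']

lemma mem_fixF {s : E ≃+* E} {x : E} : x ∈ fixF s ↔ s x = x := Iff.rfl

/-- the automorphism of the ring of integers -/
abbrev SS (s : E ≃+* E) : 𝓞 E ≃+* 𝓞 E := RingOfIntegers.mapRingEquiv s

lemma SS_fix (s : E ≃+* E) (y : 𝓞 (fixF s)) :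
    SS s (algebraMap (𝓞 (fixF s)) (𝓞 E) y) = algebraMap (𝓞 (fixF s)) (𝓞 E) y := by
  apply RingOfIntegers.ext
  show s ((y : fixF s) : E) = ((y : fixF s) : E)
  exact (y : fixF s).2

lemma exists_of_SS (s : E ≃+* E) {x : 𝓞 E} (hx : SS s x = x) :
    ∃ y : 𝓞 (fixF s), algebraMap (𝓞 (fixF s)) (𝓞 E) y = x := by
  have h1 : s (x : E) = x := congrArg (fun z : 𝓞 E => (z : E)) hx
  let y0 : fixF s := ⟨(x : E), h1⟩
  have h2 : IsIntegral ℤ y0 := by
    have h3 : IsIntegral ℤ (algebraMap (fixF s) E y0) := x.2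
    exact (isIntegral_algebraMap_iff (algebraMap (fixF s) E).injective).1 h3
  refine ⟨⟨y0, h2⟩, ?_⟩
  apply RingOfIntegers.ext
  rfl

/-- the prime below -/
abbrev un (s : E ≃+* E) (q : Ideal (𝓞 E)) : Ideal (𝓞 (fixF s)) := q.under (𝓞 (fixF s))

lemma un_comap (s : E ≃+* E) (q : Ideal (𝓞 E)) : un s (q.comap (SS s)) = un s q := by
  ext y
  show SS s (algebraMap (𝓞 (fixF s)) (𝓞 E) y) ∈ q ↔ algebraMap (𝓞 (fixF s)) (𝓞 E) y ∈ q
  rw [SS_fix]

/-- split primes of degree one -/
lemma absNorm_un (s : E ≃+* E) (hs : ∀ x, s (s x) = x) (q : Ideal (𝓞 E)) [hq : q.IsPrime]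
    (hq0 : q ≠ ⊥) (hne : q.comap (SS s) ≠ q) : absNorm (un s q) = absNorm q := by
  have hss : ∀ x : 𝓞 E, SS s (SS s x) = x := fun x => RingOfIntegers.ext (hs x)
  have hqm : q.IsMaximal := hq.isMaximal hq0
  set q' := q.comap (SS s) with hq'
  have hq'p : q'.IsPrime := hq.comap (SS s)
  have hq'0 : q' ≠ ⊥ := by
    intro h
    apply hq0
    rw [eq_bot_iff]
    intro x hx
    have : SS s x ∈ q' := by
      show SS s (SS s x) ∈ q
      rw [hss]; exact hx
    rw [h] at this
    have h2 : SS s x = 0 := this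
    have : x = 0 := by
      have := congrArg (SS s) h2
      rwa [hss, map_zero] at this
    rw [this]; exact zero_mem _
  have hq'm : q'.IsMaximal := hq'p.isMaximal hq'0
  have hcop : q ⊔ q' = ⊤ := by
    have := hqm.coprime_of_ne hq'm (Ne.symm hne)
    exact this
  rw [absNorm_apply, absNorm_apply, Submodule.cardQuot_apply, Submodule.cardQuot_apply]
  refine Nat.card_eq_of_bijective
    (Ideal.quotientMap q (algebraMap (𝓞 (fixF s)) (𝓞 E)) (le_refl (un s q))) ⟨?_, ?_⟩
  · exact Ideal.quotientMap_injective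
  · intro x
    obtain ⟨x, rfl⟩ := Ideal.Quotient.mk_surjective x
    have h1 : (1 : 𝓞 E) ∈ q ⊔ q' := by rw [hcop]; trivial
    obtain ⟨a, ha, b, hb, hab⟩ := Submodule.mem_sup.1 h1
    have hb' : SS s b ∈ q := hb
    obtain ⟨z, hz⟩ := exists_of_SS s (x := b * x + SS s (b * x)) (by
      rw [map_add, hss, add_comm])
    refine ⟨Ideal.Quotient.mk _ z, ?_⟩
    rw [Ideal.quotientMap_mk, hz, Ideal.Quotient.mk_eq_mk_iff_sub_mem]
    have h2 : b * x + SS s (b * x) - x = SS s b * SS s x - a * x := by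
      rw [map_mul]
      have : x = (a + b) * x := by rw [hab, one_mul]
      linear_combination (-1 : 𝓞 E) * this
    rw [h2]
    exact sub_mem (Ideal.mul_mem_right _ _ hb') (Ideal.mul_mem_right _ _ ha)

omit [NumberField E] in
lemma comap_ne_bot (s : E ≃+* E) {q : Ideal (𝓞 E)} (hq0 : q ≠ ⊥) : q.comap (SS s) ≠ ⊥ := by
  intro h
  apply hq0
  rw [eq_bot_iff]
  intro x hx
  have h1 : (SS s).symm x ∈ q.comap (SS s) := by
    show SS s ((SS s).symm x) ∈ q
    rw [RingEquiv.apply_symm_apply]; exact hx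
  rw [h] at h1
  have h2 : (SS s).symm x = 0 := h1
  have : x = 0 := by
    have := congrArg (SS s) h2
    rwa [RingEquiv.apply_symm_apply, map_zero] at this
  rw [this]; exact zero_mem _

lemma un_ne_bot (s : E ≃+* E) {q : Ideal (𝓞 E)} (hq0 : q ≠ ⊥) : un s q ≠ ⊥ :=
  Ideal.IsIntegral.comap_ne_bot (𝓞 (fixF s)) hq0

/-- the combinatorial heart: pairs of ideals below inject into the ideals above -/
lemma Z_sq_le (s : E ≃+* E) (hs : ∀ x, s (s x) = x) (T : Set (Ideal (𝓞 (fixF s))))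
    (hT : ∀ q : Ideal (𝓞 E), q.IsPrime → q ≠ ⊥ → q.comap (SS s) = q → un s q ∈ T) (σ : ℝ) :
    Z (fixF s) T σ * Z (fixF s) T σ ≤ Z E ∅ σ := by
  classical
  have hss : ∀ x : 𝓞 E, SS s (SS s x) = x := fun x => RingOfIntegers.ext (hs x)
  have hcc : ∀ q : Ideal (𝓞 E), (q.comap (SS s)).comap (SS s) = q := by
    intro q
    ext x
    show SS s (SS s x) ∈ q ↔ x ∈ q
    rw [hss]
  -- choose a prime above
  have hex : ∀ P : Ideal (𝓞 (fixF s)), P.IsPrime → P ≠ ⊥ →
      ∃ q : Ideal (𝓞 E), q.IsPrime ∧ q ≠ ⊥ ∧ un s q = P := by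
    intro P hP hP0
    have hPm : P.IsMaximal := hP.isMaximal hP0
    obtain ⟨q, hq1, hq2⟩ := exists_maximal_ideal_liesOver_of_isIntegral (S := 𝓞 E) P
    refine ⟨q, hq1.isPrime, ?_, hq2.over.symm⟩
    rintro rfl
    apply hP0
    rw [hq2.over]
    exact Ideal.comap_bot_of_injective _ (FaithfulSMul.algebraMap_injective _ _)
  choose! q hq1 hq2 hq3 using hex
  set q2 : Ideal (𝓞 (fixF s)) → Ideal (𝓞 E) := fun P => (q P).comap (SS s) with hq2def
  -- the properties for good primes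
  have hprime : ∀ I ∈ prTo (fixF s) T, ∀ P ∈ UniqueFactorizationMonoid.normalizedFactors I,
      P.IsPrime ∧ P ≠ ⊥ ∧ P ∉ T := by
    intro I hI P hP
    have h1 := UniqueFactorizationMonoid.prime_of_normalized_factor P hP
    have h2 := UniqueFactorizationMonoid.dvd_of_mem_normalizedFactors hP
    exact ⟨Ideal.isPrime_of_prime h1, h1.ne_zero, fun h => hI.2 P h h2⟩
  have hne : ∀ P : Ideal (𝓞 (fixF s)), P.IsPrime → P ≠ ⊥ → P ∉ T → q2 P ≠ q P := by
    intro P h1 h2 h3 h4
    apply h3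
    have := hT (q P) (hq1 P h1 h2) (hq2 P h1 h2) h4
    rwa [hq3 P h1 h2] at this
  have hun2 : ∀ P : Ideal (𝓞 (fixF s)), P.IsPrime → P ≠ ⊥ → un s (q2 P) = P := by
    intro P h1 h2
    rw [hq2def]
    simp only
    rw [un_comap, hq3 P h1 h2]
  have hpr1 : ∀ P : Ideal (𝓞 (fixF s)), P.IsPrime → P ≠ ⊥ → Prime (q P) := by
    intro P h1 h2
    exact Ideal.prime_of_isPrime (hq2 P h1 h2) (hq1 P h1 h2)
  have hpr2 : ∀ P : Ideal (𝓞 (fixF s)), P.IsPrime → P ≠ ⊥ → Prime (q2 P) := by
    intro P h1 h2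
    have h3 := hq1 P h1 h2
    exact Ideal.prime_of_isPrime (comap_ne_bot s (hq2 P h1 h2)) (h3.comap (SS s))
  have hn1 : ∀ P : Ideal (𝓞 (fixF s)), P.IsPrime → P ≠ ⊥ → P ∉ T → absNorm (q P) = absNorm P := by
    intro P h1 h2 h3
    have h4 := hq1 P h1 h2
    have h5 := absNorm_un s hs (q P) (hq2 P h1 h2) (hne P h1 h2 h3)
    rw [← h5, hq3 P h1 h2]
  have hn2 : ∀ P : Ideal (𝓞 (fixF s)), P.IsPrime → P ≠ ⊥ → P ∉ T → absNorm (q2 P) = absNorm P := by
    intro P h1 h2 h3
    have h4 : (q2 P).IsPrime := (hq1 P h1 h2).comap (SS s)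
    have h5 := absNorm_un s hs (q2 P) (comap_ne_bot s (hq2 P h1 h2)) (by
      rw [hq2def]
      simp only
      rw [hcc]
      exact (hne P h1 h2 h3).symm)
    rw [← h5, hun2 P h1 h2]
  -- the map
  let nf := fun I : Ideal (𝓞 (fixF s)) => UniqueFactorizationMonoid.normalizedFactors I
  let m : prTo (fixF s) T × prTo (fixF s) T → Multiset (Ideal (𝓞 E)) :=
    fun p => (nf p.1.1).map q + (nf p.2.1).map q2
  have hm : ∀ p, ∀ x ∈ m p, Prime x := by
    intro p x hx
    rcases Multiset.mem_add.1 hx with h | h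
    · obtain ⟨P, hP, rfl⟩ := Multiset.mem_map.1 h
      obtain ⟨h1, h2, -⟩ := hprime _ p.1.2 P hP
      exact hpr1 P h1 h2
    · obtain ⟨P, hP, rfl⟩ := Multiset.mem_map.1 h
      obtain ⟨h1, h2, -⟩ := hprime _ p.2.2 P hP
      exact hpr2 P h1 h2
  have hm0 : ∀ p, (m p).prod ≠ ⊥ := by
    intro p
    apply Multiset.prod_ne_zero
    intro h0
    exact (hm p _ h0).ne_zero rfl
  let Φ : prTo (fixF s) T × prTo (fixF s) T → prTo E ∅ := fun p =>
    ⟨(m p).prod, hm0 p, fun P hP => absurd hP (Set.notMem_empty P)⟩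
  have hnorm : ∀ p, zt σ (Φ p).1 = zt σ p.1.1 * zt σ p.2.1 := by
    intro p
    have h1 : absNorm (m p).prod = absNorm p.1.1 * absNorm p.2.1 := by
      show absNorm ((nf p.1.1).map q + (nf p.2.1).map q2).prod = _
      rw [Multiset.prod_add, map_mul, map_multiset_prod, map_multiset_prod, Multiset.map_map,
        Multiset.map_map]
      congr 1
      · conv_rhs => rw [← Ideal.prod_normalizedFactors_eq_self p.1.2.1, map_multiset_prod]
        congr 1
        apply Multiset.map_congr rfl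
        intro P hP
        obtain ⟨h1, h2, h3⟩ := hprime _ p.1.2 P hP
        exact hn1 P h1 h2 h3
      · conv_rhs => rw [← Ideal.prod_normalizedFactors_eq_self p.2.2.1, map_multiset_prod]
        congr 1
        apply Multiset.map_congr rfl
        intro P hP
        obtain ⟨h1, h2, h3⟩ := hprime _ p.2.2 P hP
        exact hn2 P h1 h2 h3
    show ENNReal.ofReal ((absNorm (m p).prod : ℝ) ^ (-σ)) = _
    rw [h1, Nat.cast_mul, Real.mul_rpow (Nat.cast_nonneg _) (Nat.cast_nonneg _),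
      ENNReal.ofReal_mul (by positivity)]
    rfl
  have hinj : Function.Injective Φ := by
    intro p p' h
    have h1 : (m p).prod = (m p').prod := congrArg Subtype.val h
    have h2 : m p = m p' := by
      rw [← UniqueFactorizationMonoid.normalizedFactors_prod_of_prime (hm p),
        ← UniqueFactorizationMonoid.normalizedFactors_prod_of_prime (hm p'), h1]
    -- recover the first factor
    have key : ∀ p : prTo (fixF s) T × prTo (fixF s) T,
        ((m p).filter (fun x => x = q (un s x))).map (un s) = nf p.1.1 ∧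
        ((m p).filter (fun x => ¬ x = q (un s x))).map (un s) = nf p.2.1 := by
      intro p
      have a1 : ∀ x ∈ (nf p.1.1).map q, x = q (un s x) := by
        intro x hx
        obtain ⟨P, hP, rfl⟩ := Multiset.mem_map.1 hx
        obtain ⟨h1, h2, -⟩ := hprime _ p.1.2 P hP
        rw [hq3 P h1 h2]
      have a2 : ∀ x ∈ (nf p.2.1).map q2, ¬ x = q (un s x) := by
        intro x hx
        obtain ⟨P, hP, rfl⟩ := Multiset.mem_map.1 hx
        obtain ⟨h1, h2, h3⟩ := hprime _ p.2.2 P hP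
        rw [hun2 P h1 h2]
        exact hne P h1 h2 h3
      constructor
      · show (((nf p.1.1).map q + (nf p.2.1).map q2).filter (fun x => x = q (un s x))).map (un s) = _
        rw [Multiset.filter_add, Multiset.filter_eq_self.2 a1, Multiset.filter_eq_nil.2 a2,
          add_zero, Multiset.map_map]
        conv_rhs => rw [← Multiset.map_id (nf p.1.1)]
        apply Multiset.map_congr rfl
        intro P hP
        obtain ⟨h1, h2, -⟩ := hprime _ p.1.2 P hP
        exact hq3 P h1 h2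
      · show (((nf p.1.1).map q + (nf p.2.1).map q2).filter
          (fun x => ¬ x = q (un s x))).map (un s) = _
        rw [Multiset.filter_add, Multiset.filter_eq_self.2 a2,
          Multiset.filter_eq_nil.2 (fun x hx => not_not.2 (a1 x hx)),
          zero_add, Multiset.map_map]
        conv_rhs => rw [← Multiset.map_id (nf p.2.1)]
        apply Multiset.map_congr rfl
        intro P hP
        obtain ⟨h1, h2, -⟩ := hprime _ p.2.2 P hP
        exact hun2 P h1 h2
    obtain ⟨k1, k2⟩ := key p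
    obtain ⟨k3, k4⟩ := key p'
    rw [h2] at k1 k2
    have e1 : nf p.1.1 = nf p'.1.1 := k1.symm.trans k3
    have e2 : nf p.2.1 = nf p'.2.1 := k2.symm.trans k4
    apply Prod.ext
    · apply Subtype.ext
      rw [← Ideal.prod_normalizedFactors_eq_self p.1.2.1, ← Ideal.prod_normalizedFactors_eq_self p'.1.2.1]
      exact congrArg Multiset.prod e1
    · apply Subtype.ext
      rw [← Ideal.prod_normalizedFactors_eq_self p.2.2.1, ← Ideal.prod_normalizedFactors_eq_self p'.2.2.1]
      exact congrArg Multiset.prod e2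
  calc Z (fixF s) T σ * Z (fixF s) T σ
      = ∑' p : prTo (fixF s) T × prTo (fixF s) T, zt σ p.1.1 * zt σ p.2.1 := by
        rw [ENNReal.tsum_prod (f := fun I J : prTo (fixF s) T => zt σ I.1 * zt σ J.1)]
        simp_rw [ENNReal.tsum_mul_left, ENNReal.tsum_mul_right]
        rfl
    _ = ∑' p : prTo (fixF s) T × prTo (fixF s) T, zt σ (Φ p).1 := tsum_congr fun p => (hnorm p).symm
    _ ≤ Z E ∅ σ := ENNReal.tsum_comp_le_tsum_of_injective hinj (fun I : prTo E ∅ => zt σ I.1)

/-- infinitely many primes are fixed by an involution -/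
theorem inv_primes2 (s : E ≃+* E) (hs : ∀ x, s (s x) = x) :
    {v : HeightOneSpectrum (𝓞 E) | v.asIdeal.comap (SS s) = v.asIdeal}.Infinite := by
  classical
  intro hfin
  set T : Finset (Ideal (𝓞 (fixF s))) := hfin.toFinset.image (fun v => un s v.asIdeal) with hTdef
  have hT1 : ∀ P ∈ T, P ≠ ⊥ ∧ P ≠ ⊤ := by
    intro P hP
    rw [hTdef, Finset.mem_image] at hP
    obtain ⟨v, -, rfl⟩ := hP
    refine ⟨un_ne_bot s v.ne_bot, ?_⟩
    have := v.isPrime
    exact (Ideal.IsPrime.under (𝓞 (fixF s)) v.asIdeal).ne_top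
  have hT2 : ∀ q : Ideal (𝓞 E), q.IsPrime → q ≠ ⊥ → q.comap (SS s) = q →
      un s q ∈ (T : Set (Ideal (𝓞 (fixF s)))) := by
    intro q h1 h2 h3
    rw [Finset.mem_coe, hTdef, Finset.mem_image]
    exact ⟨⟨q, h1, h2⟩, by simpa using h3, rfl⟩
  -- the inequality
  have hineq : ∀ σ : ℝ, 1 < σ → Z (fixF s) ∅ σ * Z (fixF s) ∅ σ ≤ 4 ^ T.card * Z E ∅ σ := by
    intro σ hσ
    have h1 := Z_finset (fixF s) T hT1 hσ
    have h2 := Z_sq_le s hs (T : Set (Ideal (𝓞 (fixF s)))) hT2 σ
    calc Z (fixF s) ∅ σ * Z (fixF s) ∅ σ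
        ≤ (2 ^ T.card * Z (fixF s) (T : Set (Ideal (𝓞 (fixF s)))) σ) *
          (2 ^ T.card * Z (fixF s) (T : Set (Ideal (𝓞 (fixF s)))) σ) := mul_le_mul' h1 h1
      _ = 4 ^ T.card * (Z (fixF s) (T : Set (Ideal (𝓞 (fixF s)))) σ *
          Z (fixF s) (T : Set (Ideal (𝓞 (fixF s)))) σ) := by
          have : (4 : ℝ≥0∞) ^ T.card = 2 ^ T.card * 2 ^ T.card := by
            rw [← mul_pow]; norm_num
          rw [this]; ring
      _ ≤ 4 ^ T.card * Z E ∅ σ := mul_le_mul_right h2 _
  have hreal : ∀ σ : ℝ, 1 < σ → ((σ - 1) * (Z (fixF s) ∅ σ).toReal) *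
      ((σ - 1) * (Z (fixF s) ∅ σ).toReal) ≤
      (σ - 1) * (4 ^ T.card * ((σ - 1) * (Z E ∅ σ).toReal)) := by
    intro σ hσ
    have h1 := ENNReal.toReal_mono (ENNReal.mul_ne_top (by simp) (Z_ne_top E hσ)) (hineq σ hσ)
    rw [ENNReal.toReal_mul, ENNReal.toReal_mul, ENNReal.toReal_pow] at h1
    have h2 : (4 : ℝ≥0∞).toReal = 4 := by norm_num
    rw [h2] at h1
    have h3 : 0 ≤ (σ - 1) * (σ - 1) := mul_self_nonneg _
    calc _ = (σ - 1) * (σ - 1) * ((Z (fixF s) ∅ σ).toReal * (Z (fixF s) ∅ σ).toReal) := by ring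
      _ ≤ (σ - 1) * (σ - 1) * (4 ^ T.card * (Z E ∅ σ).toReal) := mul_le_mul_of_nonneg_left h1 h3
      _ = _ := by ring
  have ht1 := (Z_tendsto (fixF s)).mul (Z_tendsto (fixF s))
  have ht2 : Tendsto (fun σ : ℝ => (σ - 1) * (4 ^ T.card * ((σ - 1) * (Z E ∅ σ).toReal))) (𝓝[>] 1)
      (𝓝 (0 * (4 ^ T.card * dedekindZeta_residue E))) := by
    apply Filter.Tendsto.mul
    · have : Tendsto (fun σ : ℝ => σ - 1) (𝓝 1) (𝓝 (1 - 1)) :=
        (continuous_id.sub continuous_const).tendsto 1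
      rw [sub_self] at this
      exact this.mono_left nhdsWithin_le_nhds
    · exact (Z_tendsto E).const_mul _
  have hle := le_of_tendsto_of_tendsto ht1 ht2 (by
    filter_upwards [self_mem_nhdsWithin] with σ hσ
    exact hreal σ hσ)
  rw [zero_mul] at hle
  have hpos := dedekindZeta_residue_pos (fixF s)
  nlinarith [mul_pos hpos hpos]

/-! ## Automorphisms of 2-power order -/

section power

variable {L : Type*} [Field L] [NumberField L]

/-- the stabilizer of an ideal -/
def stab (Q : Ideal (𝓞 L)) : Subgroup (RingAut (𝓞 L)) where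
  carrier := {g | ∀ x, g x ∈ Q ↔ x ∈ Q}
  mul_mem' {g h} hg hh x := by
    show g (h x) ∈ Q ↔ x ∈ Q
    rw [hg, hh]
  one_mem' x := Iff.rfl
  inv_mem' {g} hg x := by
    have := hg (g⁻¹ x)
    rw [← this]
    show g (g.symm x) ∈ Q ↔ x ∈ Q
    rw [RingEquiv.apply_symm_apply]

omit [NumberField L] in
lemma mem_stab {Q : Ideal (𝓞 L)} {g : RingAut (𝓞 L)} : g ∈ stab Q ↔ ∀ x, g x ∈ Q ↔ x ∈ Q :=
  Iff.rfl

omit [NumberField L] in
lemma SS_pow (σ : L ≃+* L) (n : ℕ) (x : 𝓞 L) : (((SS σ : RingAut (𝓞 L)) ^ n) x : L) =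
    ((σ : RingAut L) ^ n) (x : L) := by
  induction n generalizing x with
  | zero => rfl
  | succ n ih =>
    rw [pow_succ, pow_succ]
    show ((((SS σ : RingAut (𝓞 L)) ^ n) (SS σ x) : 𝓞 L) : L) = ((σ : RingAut L) ^ n) (σ (x : L))
    rw [ih]
    rfl

/-- primes above the same prime of the fixed field are conjugate -/
lemma exists_conj (τ : L ≃+* L) {n : ℕ} (hn : 0 < n) (hτ : (τ : RingAut L) ^ n = 1)
    (Q Q' : Ideal (𝓞 L)) [Q.IsPrime] [Q'.IsPrime] (h : un τ Q = un τ Q') :
    ∃ i : ℤ, ∀ x, x ∈ Q' ↔ ((SS τ : RingAut (𝓞 L)) ^ i) x ∈ Q := by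
  classical
  set S : RingAut (𝓞 L) := SS τ with hS
  have hSn : S ^ n = 1 := by
    apply RingEquiv.ext
    intro x
    apply RingOfIntegers.ext
    rw [hS, SS_pow, hτ]
    rfl
  let G := Subgroup.zpowers S
  have hfin : Finite G := by
    have : IsOfFinOrder S := isOfFinOrder_iff_pow_eq_one.2 ⟨n, hn, hSn⟩
    exact finite_zpowers.2 this
  have hfix : ∀ g ∈ G, ∀ y : 𝓞 (fixF τ), g (algebraMap (𝓞 (fixF τ)) (𝓞 L) y) =
      algebraMap (𝓞 (fixF τ)) (𝓞 L) y := by
    intro g hg y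
    let H : Subgroup (RingAut (𝓞 L)) :=
      { carrier := {g | g (algebraMap (𝓞 (fixF τ)) (𝓞 L) y) = algebraMap (𝓞 (fixF τ)) (𝓞 L) y}
        mul_mem' := by
          intro a b ha hb
          show a (b _) = _
          rw [hb, ha]
        one_mem' := rfl
        inv_mem' := by
          intro a ha
          show a.symm _ = _
          rw [RingEquiv.symm_apply_eq]
          exact ha.symm }
    have hSH : S ∈ H := SS_fix τ y
    exact (Subgroup.zpowers_le.2 hSH) hg
  have hinv : Algebra.IsInvariant (𝓞 (fixF τ)) (𝓞 L) G := by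
    constructor
    intro b hb
    obtain ⟨y, hy⟩ := exists_of_SS τ (x := b) (hb ⟨S, Subgroup.mem_zpowers S⟩)
    exact ⟨y, hy⟩
  have hcomm : SMulCommClass G (𝓞 (fixF τ)) (𝓞 L) := by
    constructor
    intro g y b
    rw [Algebra.smul_def, Algebra.smul_def]
    show (g : RingAut (𝓞 L)) (algebraMap _ _ y * b) = algebraMap _ _ y * (g : RingAut (𝓞 L)) b
    rw [map_mul, hfix g.1 g.2]
  obtain ⟨g, hg⟩ := Algebra.IsInvariant.exists_smul_of_under_eq (𝓞 (fixF τ)) (𝓞 L) G Q Q' h
  obtain ⟨i, hi⟩ := Subgroup.mem_zpowers_iff.1 (g⁻¹).2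
  refine ⟨i, fun x => ?_⟩
  rw [hg, Ideal.mem_pointwise_smul_iff_inv_smul_mem, hi]
  rfl

/-- an ideal stable under `σ` gives a valuation stable under `σ` -/
lemma valuation_eq (σ : L ≃+* L) (v : HeightOneSpectrum (𝓞 L))
    (h : ∀ x, SS σ x ∈ v.asIdeal ↔ x ∈ v.asIdeal) (z : L) :
    v.valuation L (σ z) = v.valuation L z := by
  have hmap : v.asIdeal.map (SS σ) = v.asIdeal := by
    ext x
    rw [Ideal.mem_map_of_equiv]
    constructor
    · rintro ⟨y, hy, rfl⟩
      exact (h y).2 hy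
    · intro hx
      refine ⟨(SS σ).symm x, (h _).1 ?_, RingEquiv.apply_symm_apply _ _⟩
      rw [RingEquiv.apply_symm_apply]; exact hx
  have hpow : ∀ (n : ℕ) (x : 𝓞 L), SS σ x ∈ v.asIdeal ^ n ↔ x ∈ v.asIdeal ^ n := by
    intro n x
    have h1 : (v.asIdeal ^ n).map (SS σ) = v.asIdeal ^ n := by
      rw [Ideal.map_pow, hmap]
    conv_lhs => rw [← h1]
    rw [Ideal.mem_map_of_equiv]
    constructor
    · rintro ⟨y, hy, hyx⟩
      rw [← (SS σ).injective hyx]; exact hy
    · intro hx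
      exact ⟨x, hx, rfl⟩
  have hle : ∀ x y : 𝓞 L, (∀ n : ℕ, y ∈ v.asIdeal ^ n → x ∈ v.asIdeal ^ n) →
      v.intValuation x ≤ v.intValuation y := by
    intro x y hxy
    by_cases hy : y = 0
    · subst hy
      by_cases hx : x = 0
      · rw [hx]
      · exfalso
        have h2 := hxy ((Associates.mk v.asIdeal).count
          (Associates.mk (Ideal.span {x} : Ideal (𝓞 L))).factors + 1) (zero_mem _)
        rw [← v.intValuation_le_pow_iff_mem, v.intValuation_if_neg hx, WithZero.exp_le_exp] at h2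
        push_cast at h2
        omega
    · rw [v.intValuation_if_neg hy, v.intValuation_le_pow_iff_mem]
      apply hxy
      rw [← v.intValuation_le_pow_iff_mem, v.intValuation_if_neg hy]
  have hint : ∀ x : 𝓞 L, v.intValuation (SS σ x) = v.intValuation x := fun x =>
    le_antisymm (hle _ _ fun n => (hpow n x).2) (hle _ _ fun n => (hpow n x).1)
  obtain ⟨a, b, hb, rfl⟩ := IsFractionRing.div_surjective (A := 𝓞 L) z
  have ha' : σ (algebraMap (𝓞 L) L a) = algebraMap (𝓞 L) L (SS σ a) := rfl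
  have hb' : σ (algebraMap (𝓞 L) L b) = algebraMap (𝓞 L) L (SS σ b) := rfl
  rw [map_div₀, map_div₀, map_div₀, ha', hb', v.valuation_of_algebraMap,
    v.valuation_of_algebraMap, v.valuation_of_algebraMap, v.valuation_of_algebraMap, hint, hint]

/-- Module A: infinitely many primes are fixed by an automorphism of 2-power order. -/
theorem inv_primes (L : Type*) [Field L] [NumberField L] (σ : L ≃+* L) (k : ℕ)
    (hσ : σ ^ (2 ^ k) = 1) :
    {v : HeightOneSpectrum (𝓞 L) | ∀ z : L, v.valuation L (σ z) = v.valuation L z}.Infinite := by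
  classical
  set τ : L ≃+* L := σ ^ 2 with hτ
  have hττ : ∀ x : L, τ x = σ (σ x) := fun x => by rw [hτ, pow_two]; rfl
  have hστ : ∀ x : L, σ (τ x) = τ (σ x) := fun x => by rw [hττ, hττ]
  -- the induced involution
  let s : fixF τ ≃+* fixF τ :=
    { toFun := fun x => ⟨σ x, by
        have h1 : τ (x : L) = x := x.2
        show τ (σ x) = σ x
        rw [← hστ, h1]⟩
      invFun := fun x => ⟨σ x, by
        have h1 : τ (x : L) = x := x.2
        show τ (σ x) = σ x
        rw [← hστ, h1]⟩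
      left_inv := fun x => Subtype.ext (by
        show σ (σ x) = x
        rw [← hττ]; exact x.2)
      right_inv := fun x => Subtype.ext (by
        show σ (σ x) = x
        rw [← hττ]; exact x.2)
      map_mul' := fun x y => Subtype.ext (map_mul σ _ _)
      map_add' := fun x y => Subtype.ext (map_add σ _ _) }
  have hs : ∀ x, s (s x) = x := fun x => s.left_inv x
  have hinf := inv_primes2 s hs
  -- a prime above
  have hex : ∀ v : HeightOneSpectrum (𝓞 (fixF τ)), ∃ w : HeightOneSpectrum (𝓞 L),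
      un τ w.asIdeal = v.asIdeal := by
    intro v
    have hPm : v.asIdeal.IsMaximal := v.isMaximal
    obtain ⟨q, hq1, hq2⟩ := exists_maximal_ideal_liesOver_of_isIntegral (S := 𝓞 L) v.asIdeal
    refine ⟨⟨q, hq1.isPrime, ?_⟩, hq2.over.symm⟩
    rintro rfl
    apply v.ne_bot
    rw [hq2.over]
    exact Ideal.comap_bot_of_injective _ (FaithfulSMul.algebraMap_injective _ _)
  choose w hw using hex
  have hwinj : Function.Injective w := by
    intro v v' h
    apply HeightOneSpectrum.ext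
    rw [← hw v, ← hw v', h]
  refine (hinf.image hwinj.injOn).mono ?_
  rintro _ ⟨v, hv, rfl⟩
  have hv' : v.asIdeal.comap (SS s) = v.asIdeal := hv
  apply valuation_eq
  -- `Q` and its conjugate lie above the same prime
  have hQp : (w v).asIdeal.IsPrime := (w v).isPrime
  have hQ'p : ((w v).asIdeal.comap (SS σ)).IsPrime := hQp.comap (SS σ)
  have hun : un τ (w v).asIdeal = un τ ((w v).asIdeal.comap (SS σ)) := by
    ext y
    have h1 : y ∈ v.asIdeal ↔ SS s y ∈ v.asIdeal := by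
      conv_lhs => rw [← hv']
      exact Iff.rfl
    rw [hw v, h1, ← hw v]
    exact Iff.rfl
  have hτn : (τ : RingAut L) ^ (2 ^ k) = 1 := by
    have hσ' : (σ : RingAut L) ^ (2 ^ k) = 1 := hσ
    show ((σ : RingAut L) ^ 2) ^ (2 ^ k) = 1
    rw [← pow_mul, mul_comm, pow_mul, hσ', one_pow]
  obtain ⟨i, hi⟩ := exists_conj τ (by positivity) hτn _ _ hun
  set S : RingAut (𝓞 L) := SS σ with hS
  have hSτ : (SS τ : RingAut (𝓞 L)) = S ^ 2 := by
    apply RingEquiv.ext
    intro x
    apply RingOfIntegers.ext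
    rw [hS, SS_pow]
    rfl
  have hSk : S ^ (2 ^ k) = 1 := by
    apply RingEquiv.ext
    intro x
    apply RingOfIntegers.ext
    rw [hS, SS_pow]
    have hσ' : (σ : RingAut L) ^ (2 ^ k) = 1 := hσ
    rw [hσ']
    rfl
  have hmem : S ^ (2 * i - 1) ∈ stab (w v).asIdeal := by
    rw [mem_stab]
    intro x
    have h1 := hi (S⁻¹ x)
    rw [hSτ, ← zpow_natCast S 2, ← zpow_mul] at h1
    have h2 : (S ^ (((2 : ℕ) : ℤ) * i)) (S⁻¹ x) = (S ^ (2 * i - 1)) x := by
      rw [sub_eq_add_neg, zpow_add, zpow_neg_one]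
      rfl
    rw [h2] at h1
    rw [← h1]
    show SS σ ((SS σ).symm x) ∈ (w v).asIdeal ↔ x ∈ (w v).asIdeal
    rw [RingEquiv.apply_symm_apply]
  have hcop : IsCoprime (2 * i - 1 : ℤ) ((2 : ℤ) ^ k) := by
    apply IsCoprime.pow_right
    exact ⟨-1, i, by ring⟩
  obtain ⟨a, b, hab⟩ := hcop
  have hSmem : S ∈ stab (w v).asIdeal := by
    have h1 : S = (S ^ (2 * i - 1)) ^ a := by
      have h2 : S ^ (1 : ℤ) = S ^ (a * (2 * i - 1) + b * (2 : ℤ) ^ k) := by rw [hab]
      rw [zpow_one, zpow_add, mul_comm a, zpow_mul, mul_comm b, zpow_mul] at h2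
      have h3 : S ^ ((2 : ℤ) ^ k) = 1 := by
        have : ((2 : ℤ) ^ k) = ((2 ^ k : ℕ) : ℤ) := by push_cast; rfl
        rw [this, zpow_natCast, hSk]
      rwa [h3, one_zpow, mul_one] at h2
    rw [h1]
    exact Subgroup.zpow_mem _ hmem a
  exact mem_stab.1 hSmem

end power

end

end Pool.Agent.Arb
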