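import Pool.Agent.Arb.Defs

/-!
# The backward tree of a point inside a field with a finite group action
-/

set_option autoImplicit false

open scoped Pointwise

namespace Pool.Agent.Arb

variable {L : Type*} [Field L]

open Classical in
/-- Level `n` of the backward tree above `w`; `r` chooses square roots of `y - c`. -/
noncomputable def T (r : L → L) : ℕ → L → Finset L
  | 0, w => {w}
  | n + 1, w => (T r n w).image r ∪ (T r n w).image (fun y => - r y)

/-- `r` chooses square roots at all levels below `B`. -/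
def Root (c : L) (r : L → L) (B : ℕ) (w : L) : Prop :=
  ∀ n < B, ∀ y ∈ T r n w, (r y) ^ 2 = y - c

theorem mem_T_zero {r : L → L} {w y : L} : y ∈ T r 0 w ↔ y = w := by
  simp [T]

theorem mem_T_succ {r : L → L} {n : ℕ} {w y : L} :
    y ∈ T r (n + 1) w ↔ ∃ z ∈ T r n w, y = r z ∨ y = - r z := by
  classical
  simp only [T, Finset.mem_union, Finset.mem_image]
  constructor
  · rintro (⟨z, hz, rfl⟩ | ⟨z, hz, rfl⟩)
    · exact ⟨z, hz, Or.inl rfl⟩
    · exact ⟨z, hz, Or.inr rfl⟩
  · rintro ⟨z, hz, rfl | rfl⟩
    · exact Or.inl ⟨z, hz, rfl⟩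
    · exact Or.inr ⟨z, hz, rfl⟩

theorem Root.mono {c : L} {r : L → L} {B B' : ℕ} {w : L} (h : Root c r B w) (hB : B' ≤ B) :
    Root c r B' w := fun n hn y hy => h n (hn.trans_le hB) y hy

theorem Root.parent {c : L} {r : L → L} {B : ℕ} {w : L} (h : Root c r B w) {n : ℕ} (hn : n < B)
    {y : L} (hy : y ∈ T r (n + 1) w) : qm c y ∈ T r n w := by
  obtain ⟨z, hz, rfl | rfl⟩ := mem_T_succ.mp hy
  · have : qm c (r z) = z := by
      simp only [qm]; rw [h n hn z hz]; ring
    rwa [this]
  · have : qm c (- r z) = z := by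
      simp only [qm]; rw [neg_sq, h n hn z hz]; ring
    rwa [this]

theorem Root.iter {c : L} {r : L → L} {B : ℕ} {w : L} (h : Root c r B w) {n : ℕ} (hn : n ≤ B)
    {y : L} (hy : y ∈ T r n w) : (qm c)^[n] y = w := by
  induction n generalizing y with
  | zero => rw [mem_T_zero] at hy; simp [hy]
  | succ n ih =>
    rw [Function.iterate_succ_apply]
    exact ih (by omega) (h.parent (by omega) hy)

/-- completeness of the tree -/
theorem Root.mem_of_iter {c : L} {r : L → L} {B : ℕ} {w : L} (h : Root c r B w) {n : ℕ}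
    (hn : n ≤ B) {y : L} (hy : (qm c)^[n] y = w) : y ∈ T r n w := by
  induction n generalizing y with
  | zero => rw [mem_T_zero]; simpa using hy
  | succ n ih =>
    rw [Function.iterate_succ_apply] at hy
    have h1 := ih (by omega) hy
    rw [mem_T_succ]
    refine ⟨qm c y, h1, ?_⟩
    have h2 := h n (by omega) _ h1
    have h3 : y ^ 2 = (r (qm c y)) ^ 2 := by rw [h2]; simp [qm]
    exact sq_eq_sq_iff_eq_or_eq_neg.mp h3

/-- The tree above a vertex is part of the tree. -/
theorem T_add {r : L → L} {n m : ℕ} {w y z : L} (hz : z ∈ T r n w) (hy : y ∈ T r m z) :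
    y ∈ T r (n + m) w := by
  induction m generalizing y with
  | zero => rw [mem_T_zero] at hy; simpa [hy] using hz
  | succ m ih =>
    obtain ⟨u, hu, hyu⟩ := mem_T_succ.mp hy
    rw [← add_assoc, mem_T_succ]
    exact ⟨u, ih hu, hyu⟩

theorem Root.sub {c : L} {r : L → L} {n m : ℕ} {w z : L} (h : Root c r (n + m) w)
    (hz : z ∈ T r n w) : Root c r m z := fun k hk y hy => h (n + k) (by omega) y (T_add hz hy)

/-- Nondegeneracy: `c` is not in the tree at the levels below `B`. -/
def Nondeg (c : L) (r : L → L) (B : ℕ) (w : L) : Prop := ∀ n < B, c ∉ T r n w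

theorem Nondeg.ne_zero {c : L} {r : L → L} {B : ℕ} {w : L} (hr : Root c r B w)
    (h : Nondeg c r B w) {n : ℕ} (hn : n < B) {y : L} (hy : y ∈ T r n w) : r y ≠ 0 := by
  intro h0
  have h1 := hr n hn y hy
  rw [h0] at h1
  have : y = c := by
    have h2 : y - c = 0 := by rw [← h1]; simp
    exact sub_eq_zero.mp h2
  exact h n hn (this ▸ hy)

theorem Root.inj {c : L} {r : L → L} {B : ℕ} {w : L} (hr : Root c r B w) {n : ℕ} (hn : n < B)
    {y z : L} (hy : y ∈ T r n w) (hz : z ∈ T r n w) (h : r y = r z ∨ r y = - r z) : y = z := by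
  have h1 := hr n hn y hy
  have h2 := hr n hn z hz
  have h3 : (r y) ^ 2 = (r z) ^ 2 := by
    rcases h with h | h
    · rw [h]
    · rw [h, neg_sq]
  rw [h1, h2] at h3
  exact sub_left_injective h3

/-- Products over a level in terms of the previous level. -/
theorem Root.prod_succ {c : L} {r : L → L} {B : ℕ} {w : L} (hr : Root c r B w)
    (hd : Nondeg c r B w) (h2 : (2 : L) ≠ 0) {n : ℕ} (hn : n < B) {M : Type*} [CommMonoid M]
    (f : L → M) :
    ∏ y ∈ T r (n + 1) w, f y = ∏ y ∈ T r n w, (f (r y) * f (- r y)) := by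
  classical
  have hdisj : Disjoint ((T r n w).image r) ((T r n w).image (fun y => - r y)) := by
    rw [Finset.disjoint_left]
    intro a ha hb
    obtain ⟨y, hy, rfl⟩ := Finset.mem_image.mp ha
    obtain ⟨z, hz, hyz⟩ := Finset.mem_image.mp hb
    have : z = y := hr.inj hn hz hy (Or.inr (by
      have : - r z = r y := hyz
      rw [← this, neg_neg]))
    subst this
    have h3 : r z = 0 := by
      have h4 : - r z = r z := hyz
      have h5 : 2 * r z = 0 := by
        calc 2 * r z = r z + r z := by ring
          _ = r z + - r z := by rw [h4]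
          _ = 0 := by ring
      exact (mul_eq_zero.mp h5).resolve_left h2
    exact hd.ne_zero hr hn hy h3
  have : T r (n + 1) w = (T r n w).image r ∪ (T r n w).image (fun y => - r y) := rfl
  rw [this, Finset.prod_union hdisj, Finset.prod_image, Finset.prod_image,
    Finset.prod_mul_distrib]
  · intro y hy z hz h
    exact hr.inj hn hy hz (Or.inl (neg_injective h))
  · intro y hy z hz h
    exact hr.inj hn hy hz (Or.inl h)

theorem Root.prod_sub {c : L} {r : L → L} {B : ℕ} {w : L} (hr : Root c r B w)
    (hd : Nondeg c r B w) (h2 : (2 : L) ≠ 0) {n : ℕ} (hn : n ≤ B) (a : L) :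
    ∏ y ∈ T r n w, (a - y) = (qm c)^[n] a - w := by
  induction n generalizing a with
  | zero => simp [T]
  | succ n ih =>
    rw [hr.prod_succ hd h2 (by omega), Function.iterate_succ_apply, ← ih (by omega)]
    refine Finset.prod_congr rfl fun y hy => ?_
    have := hr n (by omega) y hy
    simp only [qm]
    linear_combination -this

theorem Root.card {c : L} {r : L → L} {B : ℕ} {w : L} (hr : Root c r B w)
    (hd : Nondeg c r B w) (h2 : (2 : L) ≠ 0) {n : ℕ} (hn : n ≤ B) :
    (T r n w).card = 2 ^ n := by
  induction n with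
  | zero => simp [T]
  | succ n ih =>
    have h3 := hr.prod_succ hd h2 (n := n) (by omega) (M := Multiplicative ℕ)
      (fun _ => Multiplicative.ofAdd 1)
    have h4 : (T r (n + 1) w).card = 2 * (T r n w).card := by
      have h5 := congrArg Multiplicative.toAdd h3
      simpa [← ofAdd_add, toAdd_prod, Finset.sum_const, mul_comm] using h5
    rw [h4, ih (by omega)]; ring

end Pool.Agent.Arb
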