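import Pool.Agent.Arb.DegB
import Pool.Agent.Arb.Tree

/-!
# High up in the tree a point is conjugate to its negative
-/

set_option autoImplicit false

open IsDedekindDomain NumberField Polynomial IntermediateField

namespace Pool.Agent.Arb

theorem map_iterR {A B : Type*} [Field A] [Field B] (f : A →+* B) (c x : A) (n : ℕ) :
    f ((qm c)^[n] x) = (qm (f c))^[n] (f x) := by
  induction n generalizing x with
  | zero => rfl
  | succ n ih =>
    rw [Function.iterate_succ_apply, Function.iterate_succ_apply, ih]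
    simp [qm]

theorem T_card_le {L : Type*} [Field L] (r : L → L) (n : ℕ) (w : L) : (T r n w).card ≤ 2 ^ n := by
  classical
  induction n with
  | zero => simp [T]
  | succ n ih =>
    have : T r (n + 1) w = (T r n w).image r ∪ (T r n w).image (fun y => - r y) := rfl
    rw [this]
    refine (Finset.card_union_le _ _).trans ?_
    have h1 := (T r n w).card_image_le (f := r)
    have h2 := (T r n w).card_image_le (f := fun y => - r y)
    rw [pow_succ]; omega

section
variable {K : Type*} [Field K] [NumberField K]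

theorem minpoly_degree_bound (c γ : K)
    (v : HeightOneSpectrum (𝓞 K)) (h2 : v.valuation K 2 < 1) (hc : v.valuation K (4 * c) < 1)
    (hγ : ∀ n, 0 < n → (qm c)^[n] γ ≠ γ) :
    ∃ C0 : ℕ, ∀ (w : AlgebraicClosure K) (N : ℕ),
      (qm (algebraMap K (AlgebraicClosure K) c))^[N] w = algebraMap K (AlgebraicClosure K) γ →
      2 ^ N ≤ C0 * (minpoly K w).natDegree := by
  obtain ⟨C0, h⟩ := DB.degree_bound' c γ v h2 hc hγ
  refine ⟨C0, fun w N hw => ?_⟩
  have hint : IsIntegral K w := Algebra.IsIntegral.isIntegral w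
  have : FiniteDimensional K K⟮w⟯ := IntermediateField.adjoin.finiteDimensional hint
  have : NumberField K⟮w⟯ := NumberField.of_module_finite K _
  have h1 := h K⟮w⟯ (IntermediateField.AdjoinSimple.gen K w) N ?_
  · rwa [IntermediateField.adjoin.finrank hint] at h1
  · apply (algebraMap K⟮w⟯ (AlgebraicClosure K)).injective
    rw [map_iterR, IntermediateField.AdjoinSimple.algebraMap_gen,
      ← IsScalarTower.algebraMap_apply, ← IsScalarTower.algebraMap_apply, hw]

theorem exists_level (c γ : K) (C0 : ℕ) (hC0 : ∀ (w : AlgebraicClosure K) (N : ℕ),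
      (qm (algebraMap K (AlgebraicClosure K) c))^[N] w = algebraMap K (AlgebraicClosure K) γ →
      2 ^ N ≤ C0 * (minpoly K w).natDegree) :
    ∃ n0 : ℕ, ∀ n ≥ n0, ∀ w : AlgebraicClosure K,
      (qm (algebraMap K (AlgebraicClosure K) c))^[n + 1] w =
        algebraMap K (AlgebraicClosure K) γ → minpoly K w = minpoly K (-w) := by
  classical
  set Ω := AlgebraicClosure K with hΩ
  set c' := algebraMap K Ω c with hc'
  set γ' := algebraMap K Ω γ with hγ'
  choose r hr using fun y : Ω => IsAlgClosed.exists_pow_nat_eq (y - c') (n := 2) (by norm_num)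
  have hroot : ∀ B w, Root c' r B w := fun _ _ _ _ y _ => hr y
  have hσ : ∀ (σ : Ω ≃ₐ[K] Ω) (n : ℕ) (y : Ω), σ ((qm c')^[n] y) = (qm c')^[n] (σ y) := by
    intro σ n y
    have := map_iterR (σ : Ω →+* Ω) c' y n
    simp only [RingHom.coe_coe] at this
    rw [this, hc', σ.commutes]
  have hconj : ∀ x y : Ω, minpoly K x = minpoly K y → ∃ σ : Ω ≃ₐ[K] Ω, σ y = x := by
    intro x y h
    obtain ⟨σ, h⟩ := (Normal.minpoly_eq_iff_mem_orbit Ω).mp h
    exact ⟨σ, h⟩
  let P : ℕ → Finset K[X] := fun n => (T r n γ').image (minpoly K)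
  -- the number of conjugacy classes is bounded
  have h1 : ∀ n, (P n).card ≤ C0 := by
    intro n
    have hfib : ∀ p ∈ P n, p.natDegree ≤ ((T r n γ').filter (fun a => minpoly K a = p)).card := by
      intro p hp
      obtain ⟨w0, hw0, rfl⟩ := Finset.mem_image.mp hp
      have hint : IsIntegral K w0 := Algebra.IsIntegral.isIntegral w0
      have hsep : (minpoly K w0).Separable := (minpoly.irreducible hint).separable
      rw [← Polynomial.card_rootSet_eq_natDegree (K := Ω) hsep (IsAlgClosed.splits _),
        ← Set.toFinset_card]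
      apply Finset.card_le_card
      intro y hy
      rw [Set.mem_toFinset, Polynomial.mem_rootSet] at hy
      have h3 : minpoly K w0 = minpoly K y :=
        minpoly.eq_of_irreducible_of_monic (minpoly.irreducible hint) hy.2 (minpoly.monic hint)
      rw [Finset.mem_filter]
      refine ⟨?_, h3.symm⟩
      obtain ⟨σ, rfl⟩ := hconj y w0 h3.symm
      apply (hroot n γ').mem_of_iter le_rfl
      rw [← hσ, (hroot n γ').iter le_rfl hw0, hγ', σ.commutes]
    have h3 : (P n).card * 2 ^ n ≤ C0 * 2 ^ n := by
      calc (P n).card * 2 ^ n = ∑ p ∈ P n, 2 ^ n := by rw [Finset.sum_const, smul_eq_mul]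
        _ ≤ ∑ p ∈ P n, C0 * ((T r n γ').filter (fun a => minpoly K a = p)).card := by
            apply Finset.sum_le_sum
            intro p hp
            have h4 := hfib p hp
            obtain ⟨w0, hw0, rfl⟩ := Finset.mem_image.mp hp
            exact (hC0 w0 n ((hroot n γ').iter le_rfl hw0)).trans (Nat.mul_le_mul_left _ h4)
        _ = C0 * (T r n γ').card := by
            rw [← Finset.mul_sum, Finset.card_eq_sum_card_image (minpoly K) (T r n γ')]
        _ ≤ C0 * 2 ^ n := Nat.mul_le_mul_left _ (T_card_le r n γ')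
    exact Nat.le_of_mul_le_mul_right h3 (by positivity)
  -- the parent map on conjugacy classes
  let g : K[X] → K[X] := fun p => if h : ∃ w : Ω, minpoly K w = p then
    minpoly K (qm c' (Classical.choose h)) else 0
  have hg : ∀ w : Ω, g (minpoly K w) = minpoly K (qm c' w) := by
    intro w
    have h : ∃ w1 : Ω, minpoly K w1 = minpoly K w := ⟨w, rfl⟩
    have e : g (minpoly K w) = minpoly K (qm c' (Classical.choose h)) := dif_pos h
    rw [e]
    obtain ⟨σ, hs⟩ := hconj _ _ (Classical.choose_spec h)
    have := hσ σ 1 w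
    simp only [Function.iterate_one] at this
    rw [← hs, ← this, minpoly.algEquiv_eq]
  have hmaps : ∀ n, Set.MapsTo g (P (n + 1)) (P n) := by
    intro n p hp
    obtain ⟨w0, hw0, rfl⟩ := Finset.mem_image.mp (Finset.mem_coe.mp hp)
    rw [hg]
    exact Finset.mem_coe.mpr (Finset.mem_image_of_mem _ ((hroot (n + 1) γ').parent (by omega) hw0))
  have hsurj : ∀ n, Set.SurjOn g (P (n + 1)) (P n) := by
    intro n p hp
    obtain ⟨w0, hw0, rfl⟩ := Finset.mem_image.mp (Finset.mem_coe.mp hp)
    refine ⟨minpoly K (r w0), ?_, ?_⟩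
    · exact Finset.mem_coe.mpr (Finset.mem_image_of_mem _ (mem_T_succ.mpr ⟨w0, hw0, Or.inl rfl⟩))
    · rw [hg]
      congr 1
      simp only [qm]; rw [hr]; ring
  have hmono : Monotone fun n => (P n).card :=
    monotone_nat_of_le_succ fun n => Finset.card_le_card_of_surjOn g (hsurj n)
  obtain ⟨n0, hn0⟩ : ∃ n0, ∀ n, (P n).card ≤ (P n0).card := by
    have hb : BddAbove (Set.range fun n => (P n).card) := ⟨C0, by
      rintro _ ⟨n, rfl⟩; exact h1 n⟩
    obtain ⟨n0, h0⟩ := Nat.sSup_mem (Set.range_nonempty fun n => (P n).card) hb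
    refine ⟨n0, fun n => ?_⟩
    have h5 : (P n0).card = _ := h0
    rw [h5]
    exact le_csSup hb ⟨n, rfl⟩
  refine ⟨n0, fun n hn w hw => ?_⟩
  have hwT : w ∈ T r (n + 1) γ' := (hroot (n + 1) γ').mem_of_iter le_rfl hw
  have hw' : (qm c')^[n + 1] (-w) = γ' := by
    rw [← hw, Function.iterate_succ_apply, Function.iterate_succ_apply]
    congr 1
    simp [qm]
  have hwT' : -w ∈ T r (n + 1) γ' := (hroot (n + 1) γ').mem_of_iter le_rfl hw'
  have hinj := Finset.injOn_of_surjOn_of_card_le g (hmaps n) (hsurj n)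
    ((hn0 (n + 1)).trans (hmono hn))
  refine hinj (Finset.mem_coe.mpr (Finset.mem_image_of_mem _ hwT))
    (Finset.mem_coe.mpr (Finset.mem_image_of_mem _ hwT')) ?_
  rw [hg, hg]
  congr 1
  simp [qm]

end

end Pool.Agent.Arb
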