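import Pool.Agent.Arb.Chain
import Pool.Agent.Arb.Conj

/-!
# Existence of an automorphism without fixed points high up in the trees
-/

set_option autoImplicit false

open NumberField IntermediateField

namespace Pool.Agent.Arb

section
variable {K L : Type*} [Field K] [Field L] [Algebra K L] [FiniteDimensional K L] [IsGalois K L]

theorem stab_eq (w : L) :
    MulAction.stabilizer (L ≃ₐ[K] L) w = (K⟮w⟯).fixingSubgroup := by
  apply le_antisymm
  · rw [← IntermediateField.le_iff_le, IntermediateField.adjoin_simple_le_iff,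
      IntermediateField.mem_fixedField_iff]
    intro f hf
    exact hf
  · intro f hf
    rw [IntermediateField.mem_fixingSubgroup_iff] at hf
    exact hf w (IntermediateField.mem_adjoin_simple_self K w)

theorem mem_of_stab {w s : L} (h : ∀ g : L ≃ₐ[K] L, g • w = w → g • s = s) : s ∈ K⟮w⟯ := by
  rw [← IsGalois.fixedField_fixingSubgroup K⟮w⟯, IntermediateField.mem_fixedField_iff]
  intro f hf
  rw [← stab_eq] at hf
  exact h f hf

theorem stab_card (w : L) : Nat.card (MulAction.stabilizer (L ≃ₐ[K] L) w) *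
    (minpoly K w).natDegree = Nat.card (L ≃ₐ[K] L) := by
  rw [stab_eq, IsGalois.card_fixingSubgroup_eq_finrank,
    ← IntermediateField.adjoin.finrank (Algebra.IsIntegral.isIntegral w), mul_comm,
    Module.finrank_mul_finrank, IsGalois.card_aut_eq_finrank]

theorem conj_of_minpoly {w : L} (h : minpoly K w = minpoly K (-w)) :
    ∃ σ : L ≃ₐ[K] L, σ • w = -w := by
  obtain ⟨σ, hσ⟩ := (Normal.minpoly_eq_iff_mem_orbit L).mp h.symm
  exact ⟨σ, hσ⟩

theorem exists_auto [CharZero K] (c : K) (Γ : Finset K) (r : L → L) (n0 N B C : ℕ)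
    (hroot : ∀ γ ∈ Γ, Root (algebraMap K L c) r (n0 + (N + 1) + B) (algebraMap K L γ))
    (hG : IsPGroup 2 (L ≃ₐ[K] L))
    (hdeg : ∀ γ ∈ Γ, ∀ w : L, (qm (algebraMap K L c))^[n0 + (N + 1)] w = algebraMap K L γ →
      2 ^ (n0 + (N + 1)) ≤ C * (minpoly K w).natDegree)
    (hconj : ∀ γ ∈ Γ, ∀ n ≥ n0, ∀ w : L, (qm (algebraMap K L c))^[n + 1] w = algebraMap K L γ →
      minpoly K w = minpoly K (-w))
    (hi : ∀ γ ∈ Γ, ∀ i ≥ n0, (qm c)^[i] 0 ≠ γ)
    (hwin : ∀ γ ∈ Γ, ∀ x : L, (qm (algebraMap K L c))^[n0] x = algebraMap K L γ →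
      ∀ A ⊆ Finset.Icc 1 B, A.Nonempty → ¬ ∃ s ∈ K⟮x⟯, s ^ 2 =
        ∏ h ∈ A, ((qm (algebraMap K L c))^[N + 1 + h] 0 - x))
    (hB : 2 * (Γ.card * C) < B + 2) :
    ∃ g : L ≃ₐ[K] L, ∀ γ ∈ Γ, ∀ y ∈ T r (n0 + (N + 1) + B) (algebraMap K L γ), g y ≠ y := by
  classical
  have : CharZero L := charZero_of_injective_algebraMap (algebraMap K L).injective
  have h2 : (2 : L) ≠ 0 := two_ne_zero
  have fc : ∀ g : L ≃ₐ[K] L, g • (algebraMap K L c) = algebraMap K L c := fun g => g.commutes c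
  have hfin : Finite (L ≃ₐ[K] L) := inferInstance
  have : Fintype (L ≃ₐ[K] L) := Fintype.ofFinite _
  have key : ∀ γ ∈ Γ, ((Finset.univ.filter (fun g : L ≃ₐ[K] L =>
      ∃ y ∈ T r (n0 + (N + 1) + B) (algebraMap K L γ), g • y = y)).card : ℝ) ≤
      C * (2 / (B + 2)) * Fintype.card (L ≃ₐ[K] L) := by
    intro γ hγ
    have hr := hroot γ hγ
    refine union_bound hG h2 fc hr (fun g => g.commutes γ) ?_ C ?_ ?_
    · intro n hn1 hn2 hc
      have h3 := (hr.mono hn2.le).iter le_rfl hc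
      rw [← map_iterR] at h3
      have h4 := (algebraMap K L).injective h3
      apply hi γ hγ (n + 1) (by omega)
      rw [Function.iterate_succ_apply]
      have : qm c 0 = c := by simp [qm]
      rw [this]; exact h4
    · intro w hw
      have h3 := (hr.mono (Nat.le_add_right _ B)).iter le_rfl hw
      have h4 := hdeg γ hγ w h3
      calc Nat.card (MulAction.stabilizer (L ≃ₐ[K] L) w) * 2 ^ (n0 + (N + 1))
          ≤ Nat.card (MulAction.stabilizer (L ≃ₐ[K] L) w) * (C * (minpoly K w).natDegree) :=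
            Nat.mul_le_mul_left _ h4
        _ = C * (Nat.card (MulAction.stabilizer (L ≃ₐ[K] L) w) * (minpoly K w).natDegree) := by
            ring
        _ = C * Nat.card (L ≃ₐ[K] L) := by rw [stab_card]
    · intro w hw A hA hne
      rintro ⟨t, ht, htt⟩
      have h3 := (hr.mono (Nat.le_add_right _ B)).iter le_rfl hw
      have h5 : ∀ k < N + 1, ∃ σ : L ≃ₐ[K] L,
          σ • ((qm (algebraMap K L c))^[k] w) = -((qm (algebraMap K L c))^[k] w) := by
        intro k hk
        apply conj_of_minpoly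
        apply hconj γ hγ (n0 + (N - k)) (by omega)
        rw [← Function.iterate_add_apply, show n0 + (N - k) + 1 + k = n0 + (N + 1) by omega]
        exact h3
      obtain ⟨s, hs1, hs2⟩ := chain fc N h5 A t (fun g hg => ht ⟨g, hg⟩) htt
      refine hwin γ hγ ((qm (algebraMap K L c))^[N + 1] w) ?_ A hA hne ⟨s, ?_, hs2⟩
      · rw [← Function.iterate_add_apply]; exact h3
      · exact mem_of_stab hs1
  by_contra hcon
  push Not at hcon
  have hcov : (Finset.univ : Finset (L ≃ₐ[K] L)) ⊆ Γ.biUnion fun γ =>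
      Finset.univ.filter (fun g : L ≃ₐ[K] L =>
        ∃ y ∈ T r (n0 + (N + 1) + B) (algebraMap K L γ), g • y = y) := by
    intro g _
    obtain ⟨γ, hγ, y, hy, hgy⟩ := hcon g
    rw [Finset.mem_biUnion]
    exact ⟨γ, hγ, Finset.mem_filter.mpr ⟨Finset.mem_univ _, y, hy, hgy⟩⟩
  have h5 : (0 : ℝ) < Fintype.card (L ≃ₐ[K] L) := by
    have : 0 < Fintype.card (L ≃ₐ[K] L) := Fintype.card_pos
    exact_mod_cast this
  have hB2 : (0 : ℝ) < B + 2 := by positivity
  have h6 : (Fintype.card (L ≃ₐ[K] L) : ℝ) ≤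
      (Γ.card * (C * (2 / (B + 2)))) * Fintype.card (L ≃ₐ[K] L) := by
    calc (Fintype.card (L ≃ₐ[K] L) : ℝ) = ((Finset.univ : Finset (L ≃ₐ[K] L)).card : ℝ) := by
          rw [Finset.card_univ]
      _ ≤ ((Γ.biUnion fun γ => Finset.univ.filter (fun g : L ≃ₐ[K] L =>
        ∃ y ∈ T r (n0 + (N + 1) + B) (algebraMap K L γ), g • y = y)).card : ℝ) := by
          exact_mod_cast Finset.card_le_card hcov
      _ ≤ ((∑ γ ∈ Γ, (Finset.univ.filter (fun g : L ≃ₐ[K] L =>
        ∃ y ∈ T r (n0 + (N + 1) + B) (algebraMap K L γ), g • y = y)).card : ℕ) : ℝ) := by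
          exact_mod_cast Finset.card_biUnion_le
      _ ≤ ∑ γ ∈ Γ, (C * (2 / (B + 2)) * Fintype.card (L ≃ₐ[K] L) : ℝ) := by
          push_cast
          exact Finset.sum_le_sum key
      _ = _ := by rw [Finset.sum_const, nsmul_eq_mul]; ring
  have h7 : (1 : ℝ) ≤ Γ.card * (C * (2 / (B + 2))) := by
    by_contra h
    push Not at h
    have := mul_lt_mul_of_pos_right h h5
    rw [one_mul] at this
    linarith
  have h8 : (Γ.card * (C * (2 / (B + 2))) : ℝ) = (2 * (Γ.card * C)) / (B + 2) := by ring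
  rw [h8, le_div_iff₀ hB2, one_mul] at h7
  have h9 : B + 2 ≤ 2 * (Γ.card * C) := by exact_mod_cast h7
  omega

end

end Pool.Agent.Arb
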