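import Pool.Agent.Arb.Full2

/-!
# The proportion of elements of a full tree group with a fixed vertex
-/

set_option autoImplicit false

open scoped Pointwise

namespace Pool.Agent.Arb

variable {L : Type*} [Field L] {G : Type*} [Group G] [MulSemiringAction G L]

open Classical in
/-- number of fixed vertices of level `n` -/
noncomputable def X (r : L → L) (w : L) (n : ℕ) (g : G) : ℕ :=
  ((T r n w).filter (fun y => g • y = y)).card

open Classical in
theorem pow_X (r : L → L) (w : L) (n : ℕ) (g : G) (q : ℝ) :
    q ^ X r w n g = ∏ y ∈ T r n w, if g • y = y then q else 1 := by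
  rw [X, Finset.prod_ite, Finset.prod_const_one, mul_one, Finset.prod_const]

namespace Setup

variable {c : L} {r : L → L} {B : ℕ} {w : L} (S : Setup G c r B w)

include S in
theorem r_ne_neg {n : ℕ} (hn : n < B) {y : L} (hy : y ∈ T r n w) : r y ≠ - r y := by
  intro h
  have h5 : 2 * r y = 0 := by
    calc 2 * r y = r y + r y := by ring
      _ = r y + - r y := by rw [← h]
      _ = 0 := by ring
  exact S.nd.ne_zero S.root hn hy ((mul_eq_zero.mp h5).resolve_left S.two)

include S in
theorem count_step [Fintype G] {n : ℕ} (hn : n < B) (hfull : Full G r n w) (q : ℝ) :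
    ∑ g : G, q ^ X r w (n + 1) g = ∑ g : G, ((1 + q ^ 2) / 2) ^ X r w n g := by
  classical
  choose! ν hν1 hν2 using hfull
  have h1 : ∀ A ∈ (T r n w).powerset, ∑ g : G, q ^ X r w (n + 1) g =
      ∑ g : G, q ^ X r w (n + 1) (g * ν A) := by
    intro A _
    exact (Equiv.sum_comp (Equiv.mulRight (ν A)) (fun g => q ^ X r w (n + 1) g)).symm
  have h2 : (2 : ℝ) ^ (T r n w).card * ∑ g : G, q ^ X r w (n + 1) g =
      ∑ g : G, ∑ A ∈ (T r n w).powerset, q ^ X r w (n + 1) (g * ν A) := by
    rw [Finset.sum_comm, ← Finset.sum_congr rfl h1, Finset.sum_const, Finset.card_powerset,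
      nsmul_eq_mul]
    push_cast
    ring
  have h3 : ∀ g : G, ∑ A ∈ (T r n w).powerset, q ^ X r w (n + 1) (g * ν A) =
      (2 : ℝ) ^ (T r n w).card * ((1 + q ^ 2) / 2) ^ X r w n g := by
    intro g
    let fi : L → ℝ := fun y => if g • y = y then (if g • r y = - r y then q ^ 2 else 1) else 1
    let fo : L → ℝ := fun y => if g • y = y then (if g • r y = r y then q ^ 2 else 1) else 1
    have h4 : ∀ A ∈ (T r n w).powerset, q ^ X r w (n + 1) (g * ν A) =
        (∏ y ∈ A, fi y) * ∏ y ∈ T r n w \ A, fo y := by
      intro A hA
      have hA' := Finset.mem_powerset.mp hA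
      rw [pow_X, S.root.prod_succ S.nd S.two hn, ← Finset.prod_sdiff hA', mul_comm]
      congr 1
      · refine Finset.prod_congr rfl fun y hy => ?_
        have hyT := hA' hy
        have e1 : (g * ν A) • r y = - (g • r y) := by
          rw [mul_smul, (hν2 A hA' y hyT).1 hy, smul_neg]
        have e2 : (g * ν A) • (- r y) = g • r y := by
          rw [smul_neg, e1, neg_neg]
        rw [e1, e2]
        by_cases hgy : g • y = y
        · have h5 := S.smul_r hn g hyT
          rw [hgy] at h5
          rcases h5 with h5 | h5
          · have hne := S.r_ne_neg hn hyT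
            have hne' : ¬ (- r y = r y) := fun h => hne h.symm
            simp only [fi, hgy, h5, if_true, if_neg hne, if_neg hne']
            try ring
          · simp only [fi, hgy, h5, if_true, neg_neg]
            ring
        · have h5 : ¬ (- (g • r y) = r y) := by
            intro h
            apply hgy
            rcases S.smul_r hn g hyT with h6 | h6
            · rw [h6] at h
              exact S.root.inj hn (S.smul_mem hn.le g hyT) hyT (Or.inr (by rw [← h, neg_neg]))
            · rw [h6, neg_neg] at h
              exact S.root.inj hn (S.smul_mem hn.le g hyT) hyT (Or.inl h)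
          have h6 : ¬ (g • r y = - r y) := fun h => h5 (by rw [h, neg_neg])
          simp only [fi, if_neg hgy, if_neg h5, if_neg h6, mul_one]
      · refine Finset.prod_congr rfl fun y hy => ?_
        have hyT := (Finset.mem_sdiff.mp hy).1
        have hyA := (Finset.mem_sdiff.mp hy).2
        have e1 : (g * ν A) • r y = g • r y := by
          rw [mul_smul, (hν2 A hA' y hyT).2 hyA]
        have e2 : (g * ν A) • (- r y) = - (g • r y) := by
          rw [smul_neg, e1]
        rw [e1, e2]
        by_cases hgy : g • y = y
        · have h5 := S.smul_r hn g hyT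
          rw [hgy] at h5
          rcases h5 with h5 | h5
          · simp only [fo, hgy, h5, if_true]
            ring
          · have hne := S.r_ne_neg hn hyT
            have hne' : ¬ (- r y = r y) := fun h => hne h.symm
            simp only [fo, hgy, h5, if_true, neg_neg, if_neg hne, if_neg hne']
            try ring
        · have h5 : ¬ (g • r y = r y) := by
            intro h
            apply hgy
            rcases S.smul_r hn g hyT with h6 | h6
            · rw [h6] at h
              exact S.root.inj hn (S.smul_mem hn.le g hyT) hyT (Or.inl h)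
            · rw [h6] at h
              exact S.root.inj hn (S.smul_mem hn.le g hyT) hyT (Or.inr (by rw [← h, neg_neg]))
          have h6 : ¬ (- (g • r y) = - r y) := fun h => h5 (neg_injective h)
          simp only [fo, if_neg hgy, if_neg h5, if_neg h6, mul_one]
    rw [Finset.sum_congr rfl h4, ← Finset.prod_add, pow_X, ← Finset.prod_const,
      ← Finset.prod_mul_distrib]
    refine Finset.prod_congr rfl fun y hy => ?_
    by_cases hgy : g • y = y
    · have h5 := S.smul_r hn g hy
      rw [hgy] at h5
      rcases h5 with h5 | h5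
      · simp only [fi, fo, hgy, h5, if_true]
        rw [if_neg (S.r_ne_neg hn hy)]
        ring
      · simp only [fi, fo, hgy, h5, if_true]
        rw [if_neg (fun h => S.r_ne_neg hn hy h.symm)]
        ring
    · simp only [fi, fo, if_neg hgy]
      ring
  rw [Finset.sum_congr rfl (fun g _ => h3 g), ← Finset.mul_sum] at h2
  exact mul_left_cancel₀ (by positivity) h2

end Setup

/-- `q₀ = 0`, `q_{n+1} = (1 + q_n²)/2`. -/
noncomputable def qs : ℕ → ℝ
  | 0 => 0
  | n + 1 => (1 + qs n ^ 2) / 2

theorem qs_bound (n : ℕ) : 0 ≤ 1 - qs n ∧ 1 - qs n ≤ 2 / (n + 2) := by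
  induction n with
  | zero => simp [qs]
  | succ n ih =>
    obtain ⟨h1, h2⟩ := ih
    have h3 : 1 - qs (n + 1) = (1 - qs n) - (1 - qs n) ^ 2 / 2 := by
      simp only [qs]; ring
    have hn : (0 : ℝ) < n + 2 := by positivity
    have h4 : 2 / ((n : ℝ) + 2) ≤ 1 := by
      rw [div_le_one hn]; linarith [Nat.cast_nonneg (α := ℝ) n]
    rw [h3]
    constructor
    · nlinarith
    · have h5 : (1 - qs n) - (1 - qs n) ^ 2 / 2 ≤
          2 / ((n : ℝ) + 2) - (2 / ((n : ℝ) + 2)) ^ 2 / 2 := by
        nlinarith
      refine h5.trans ?_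
      have h6 : 2 / ((n : ℝ) + 2) - (2 / ((n : ℝ) + 2)) ^ 2 / 2 =
          2 * (n + 1) / ((n : ℝ) + 2) ^ 2 := by
        field_simp; ring
      rw [h6]
      push_cast
      rw [div_le_div_iff₀ (by positivity) (by positivity)]
      nlinarith [Nat.cast_nonneg (α := ℝ) n]

namespace Setup

variable {c : L} {r : L → L} {B : ℕ} {w : L} (S : Setup G c r B w)

include S in
theorem count_all [Fintype G] (hfull : ∀ n < B, Full G r n w) {n : ℕ} (hn : n ≤ B) :
    ∑ g : G, (qs (B - n)) ^ X r w n g = Fintype.card G * qs B := by
  induction n with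
  | zero =>
    have h1 : ∀ g : G, X r w 0 g = 1 := by
      intro g
      classical
      simp [X, T, S.fw g, Finset.filter_singleton]
    simp [h1]
  | succ n ih =>
    rw [S.count_step (by omega) (hfull n (by omega)), ← ih (by omega)]
    have : B - n = (B - (n + 1)) + 1 := by omega
    rw [this]
    rfl

include S in
/-- Few elements have a fixed vertex of level `B`. -/
theorem few_fixed [Fintype G] [DecidableEq G] (hfull : ∀ n < B, Full G r n w)
    [DecidablePred fun g : G => ∃ y ∈ T r B w, g • y = y] :
    ((Finset.univ.filter (fun g : G => ∃ y ∈ T r B w, g • y = y)).card : ℝ) ≤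
      2 / (B + 2) * Fintype.card G := by
  classical
  have h1 := S.count_all hfull (n := B) le_rfl
  rw [Nat.sub_self] at h1
  have h2 : ∀ g : G, (qs 0) ^ X r w B g =
      if (∃ y ∈ T r B w, g • y = y) then (0 : ℝ) else 1 := by
    intro g
    split_ifs with h
    · obtain ⟨y, hy, hgy⟩ := h
      have : X r w B g ≠ 0 := by
        rw [X, Finset.card_ne_zero]
        exact ⟨y, Finset.mem_filter.mpr ⟨hy, hgy⟩⟩
      simp [qs, this]
    · have : X r w B g = 0 := by
        rw [X, Finset.card_eq_zero, Finset.filter_eq_empty_iff]
        intro y hy hgy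
        exact h ⟨y, hy, hgy⟩
      simp [this]
  rw [Finset.sum_congr rfl (fun g _ => h2 g)] at h1
  have h3 : (∑ g : G, if (∃ y ∈ T r B w, g • y = y) then (0 : ℝ) else 1) =
      Fintype.card G - (Finset.univ.filter (fun g : G => ∃ y ∈ T r B w, g • y = y)).card := by
    have h4 : ∀ g : G, (if (∃ y ∈ T r B w, g • y = y) then (0 : ℝ) else 1) =
        1 - if (∃ y ∈ T r B w, g • y = y) then (1 : ℝ) else 0 := by
      intro g; split_ifs <;> simp
    rw [Finset.sum_congr rfl (fun g _ => h4 g), Finset.sum_sub_distrib, Finset.sum_boole]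
    simp
  rw [h3] at h1
  have h5 := (qs_bound B).2
  have h6 : (0 : ℝ) ≤ Fintype.card G := by positivity
  have h7 : ((Finset.univ.filter (fun g : G => ∃ y ∈ T r B w, g • y = y)).card : ℝ) =
      Fintype.card G * (1 - qs B) := by linarith
  rw [h7, mul_comm]
  exact mul_le_mul_of_nonneg_right h5 h6

end Setup

end Pool.Agent.Arb
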