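import Pool.Agent.Arb.Full2
import Pool.Agent.Arb.Count

/-!
# The norm chain and the union bound
-/

set_option autoImplicit false

open scoped Pointwise

namespace Pool.Agent.Arb

variable {L : Type*} [Field L] {G : Type*} [Group G] [MulSemiringAction G L]

theorem chain_step {c : L} (fc : ∀ g : G, g • c = c) {u : L} {σ : G} (hσ : σ • u = -u) {t : L}
    (ht : ∀ g : G, g • u = u → g • t = t) (g : G) (hg : g • (qm c u) = qm c u) :
    g • (t * σ • t) = t * σ • t := by
  have h1 : (g • u) ^ 2 = u ^ 2 := by
    rw [smul_qm g (fc g)] at hg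
    simpa [qm] using hg
  have hσ' : σ⁻¹ • (-u) = u := by rw [inv_smul_eq_iff, hσ]
  have hσ'' : σ⁻¹ • u = -u := by
    rw [smul_neg] at hσ'
    rw [← hσ', neg_neg]
    rw [hσ']
  rcases sq_eq_sq_iff_eq_or_eq_neg.mp h1 with h | h
  · have h2 : (σ⁻¹ * g * σ) • t = t := by
      apply ht
      rw [mul_smul, mul_smul, hσ, smul_neg, h, smul_neg, hσ'', neg_neg]
    have h3 : g • (σ • t) = σ • t := by
      have h4 := congrArg (σ • ·) h2
      simp only [mul_smul, smul_inv_smul] at h4
      exact h4
    rw [smul_mul', ht g h, h3]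
  · have h2 : (g * σ) • t = t := by
      apply ht
      rw [mul_smul, hσ, smul_neg, h, neg_neg]
    have h3 : (σ⁻¹ * g) • t = t := by
      apply ht
      rw [mul_smul, h, hσ']
    have h4 : g • t = σ • t := by
      rw [mul_smul, inv_smul_eq_iff] at h3
      exact h3
    rw [smul_mul', ← mul_smul, h2, h4, mul_comm]

theorem bet_norm {c : L} (fc : ∀ g : G, g • c = c) {u : L} {σ : G} (hσ : σ • u = -u) (h : ℕ) :
    bet c u h * σ • bet c u h = (qm c)^[1 + h] 0 - qm c u := by
  have e : (qm c)^[1 + h] 0 = ((qm c)^[h] 0) ^ 2 + c := by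
    rw [add_comm, Function.iterate_succ_apply']; rfl
  unfold bet
  split_ifs with h1
  · subst h1
    rw [smul_sub', fc, hσ, e]
    simp only [Function.iterate_one, qm]
    ring
  · rw [smul_sub', smul_iter σ (fc σ), smul_zero, hσ, e]
    simp only [qm]; ring

theorem chain {c : L} (fc : ∀ g : G, g • c = c) {w : L} (N : ℕ)
    (hconj : ∀ k < N + 1, ∃ σ : G, σ • ((qm c)^[k] w) = -((qm c)^[k] w)) (A : Finset ℕ) (t : L)
    (ht : ∀ g : G, g • w = w → g • t = t) (htt : t ^ 2 = ∏ h ∈ A, bet c w h) :
    ∃ s : L, (∀ g : G, g • ((qm c)^[N + 1] w) = (qm c)^[N + 1] w → g • s = s) ∧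
      s ^ 2 = ∏ h ∈ A, ((qm c)^[N + 1 + h] 0 - (qm c)^[N + 1] w) := by
  induction N with
  | zero =>
    obtain ⟨σ, hσ⟩ := hconj 0 (by omega)
    simp only [Function.iterate_zero, id_eq] at hσ
    refine ⟨t * σ • t, fun g hg => ?_, ?_⟩
    · simp only [zero_add, Function.iterate_one] at hg
      exact chain_step fc hσ ht g hg
    · rw [mul_pow, ← smul_pow', htt, Finset.smul_prod', ← Finset.prod_mul_distrib]
      refine Finset.prod_congr rfl fun h _ => ?_
      rw [bet_norm fc hσ]
      simp
  | succ N ih =>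
    obtain ⟨s, hs1, hs2⟩ := ih (fun k hk => hconj k (by omega))
    obtain ⟨σ, hσ⟩ := hconj (N + 1) (by omega)
    refine ⟨s * σ • s, fun g hg => ?_, ?_⟩
    · rw [Function.iterate_succ_apply'] at hg
      exact chain_step fc hσ hs1 g hg
    · rw [mul_pow, ← smul_pow', hs2, Finset.smul_prod', ← Finset.prod_mul_distrib]
      refine Finset.prod_congr rfl fun h _ => ?_
      rw [smul_sub', smul_iter σ (fc σ), smul_zero, hσ, Function.iterate_succ_apply' _ (N + 1)]
      have e : (qm c)^[N + 1 + 1 + h] 0 = ((qm c)^[N + 1 + h] 0) ^ 2 + c := by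
        rw [show N + 1 + 1 + h = (N + 1 + h) + 1 by ring, Function.iterate_succ_apply']; rfl
      rw [e]
      simp only [qm]; ring

/-- Union bound: few elements of `G` fix a point of level `N + B` above `γ`. -/
theorem union_bound [Fintype G] [DecidableEq G] (hG : IsPGroup 2 G) {c γ : L} {r : L → L}
    {N B : ℕ}
    (h2 : (2 : L) ≠ 0) (fc : ∀ g : G, g • c = c)
    (hroot : Root c r (N + B) γ) (fγ : ∀ g : G, g • γ = γ)
    (hnd : ∀ n, N ≤ n → n < N + B → c ∉ T r n γ) (C : ℕ)
    (hst : ∀ w ∈ T r N γ, Nat.card (MulAction.stabilizer G w) * 2 ^ N ≤ C * Nat.card G)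
    (hI : ∀ w ∈ T r N γ, Setup.Ind (MulAction.stabilizer G w) c w B)
    [DecidablePred fun g : G => ∃ y ∈ T r (N + B) γ, g • y = y] :
    ((Finset.univ.filter (fun g : G => ∃ y ∈ T r (N + B) γ, g • y = y)).card : ℝ) ≤
      C * (2 / (B + 2)) * Fintype.card G := by
  classical
  have hS : ∀ w ∈ T r N γ, Setup (MulAction.stabilizer G w) c r B w := by
    intro w hw
    refine ⟨h2, fun g => fc g.1, fun g => g.2, hroot.sub hw, fun n hn hc => ?_⟩
    exact hnd (N + n) (by omega) (by omega) (T_add hw hc)
  have hfew : ∀ w ∈ T r N γ, ((Finset.univ.filter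
      (fun g : MulAction.stabilizer G w => ∃ y ∈ T r B w, g • y = y)).card : ℝ) ≤
      2 / (B + 2) * Fintype.card (MulAction.stabilizer G w) := by
    intro w hw
    exact (hS w hw).few_fixed ((hS w hw).full_all (hG.to_subgroup _) (hI w hw))
  -- the cover
  have hcov : (Finset.univ.filter (fun g : G => ∃ y ∈ T r (N + B) γ, g • y = y)) ⊆
      (T r N γ).biUnion (fun w => (Finset.univ.filter
        (fun g : MulAction.stabilizer G w => ∃ y ∈ T r B w, g • y = y)).image
          (fun g : MulAction.stabilizer G w => (g : G))) := by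
    intro g hg
    obtain ⟨y, hy, hgy⟩ := (Finset.mem_filter.mp hg).2
    have hroot' : ∀ k ≤ B, ∀ z ∈ T r (N + k) γ, (qm c)^[k] z ∈ T r N γ := by
      intro k
      induction k with
      | zero => intro _ z hz; simpa using hz
      | succ k ih =>
        intro hk z hz
        rw [Function.iterate_succ_apply]
        exact ih (by omega) _ (hroot.parent (by omega) hz)
    have hw := hroot' B le_rfl y hy
    rw [Finset.mem_biUnion]
    refine ⟨(qm c)^[B] y, hw, ?_⟩
    rw [Finset.mem_image]
    refine ⟨⟨g, ?_⟩, ?_, rfl⟩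
    · rw [MulAction.mem_stabilizer_iff, smul_iter g (fc g), hgy]
    · rw [Finset.mem_filter]
      exact ⟨Finset.mem_univ _, y, (hS _ hw).root.mem_of_iter le_rfl rfl, hgy⟩
  have hN : (0 : ℝ) < 2 ^ N := by positivity
  have hB : (0 : ℝ) < B + 2 := by positivity
  calc ((Finset.univ.filter (fun g : G => ∃ y ∈ T r (N + B) γ, g • y = y)).card : ℝ)
      ≤ (((T r N γ).biUnion (fun w => (Finset.univ.filter
        (fun g : MulAction.stabilizer G w => ∃ y ∈ T r B w, g • y = y)).image
          (fun g : MulAction.stabilizer G w => (g : G)))).card : ℝ) := by exact_mod_cast Finset.card_le_card hcov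
    _ ≤ ((∑ w ∈ T r N γ, ((Finset.univ.filter
        (fun g : MulAction.stabilizer G w => ∃ y ∈ T r B w, g • y = y)).image
          (fun g : MulAction.stabilizer G w => (g : G))).card : ℕ) : ℝ) := by exact_mod_cast Finset.card_biUnion_le
    _ ≤ ∑ w ∈ T r N γ, ((Finset.univ.filter
        (fun g : MulAction.stabilizer G w => ∃ y ∈ T r B w, g • y = y)).card : ℝ) := by
        push_cast
        exact Finset.sum_le_sum fun w _ => by exact_mod_cast Finset.card_image_le
    _ ≤ ∑ w ∈ T r N γ, 2 / (B + 2) * (Fintype.card (MulAction.stabilizer G w) : ℝ) :=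
        Finset.sum_le_sum hfew
    _ ≤ ∑ w ∈ T r N γ, 2 / (B + 2) * (C * Fintype.card G / 2 ^ N : ℝ) := by
        refine Finset.sum_le_sum fun w hw => ?_
        have h3 := hst w hw
        rw [Nat.card_eq_fintype_card, Nat.card_eq_fintype_card] at h3
        have h4 : (Fintype.card (MulAction.stabilizer G w) : ℝ) * 2 ^ N ≤ C * Fintype.card G := by
          exact_mod_cast h3
        have h5 : (Fintype.card (MulAction.stabilizer G w) : ℝ) ≤ C * Fintype.card G / 2 ^ N := by
          rw [le_div_iff₀ hN]; exact h4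
        have h6 : (0 : ℝ) ≤ 2 / (B + 2) := by positivity
        exact mul_le_mul_of_nonneg_left h5 h6
    _ = (T r N γ).card * (2 / (B + 2) * (C * Fintype.card G / 2 ^ N : ℝ)) := by
        rw [Finset.sum_const, nsmul_eq_mul]
    _ ≤ 2 ^ N * (2 / (B + 2) * (C * Fintype.card G / 2 ^ N : ℝ)) := by
        apply mul_le_mul_of_nonneg_right _ (by positivity)
        have : (T r N γ).card ≤ 2 ^ N := by
          have h7 : ∀ n, (T r n γ).card ≤ 2 ^ n := by
            intro n
            induction n with
            | zero => simp [T]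
            | succ n ih =>
              have : T r (n + 1) γ = (T r n γ).image r ∪ (T r n γ).image (fun y => - r y) := rfl
              rw [this]
              refine (Finset.card_union_le _ _).trans ?_
              have h1 := (T r n γ).card_image_le (f := r)
              have h2 := (T r n γ).card_image_le (f := fun y => - r y)
              rw [pow_succ]; omega
          exact h7 N
        exact_mod_cast this
    _ = C * (2 / (B + 2)) * Fintype.card G := by
        field_simp

end Pool.Agent.Arb
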