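import Mathlib

/-!
# Quadratic maps: basic definitions
-/

set_option autoImplicit false

namespace Pool.Agent.Arb

/-- The quadratic map `x ↦ x ^ 2 + c`. -/
def qm {F : Type*} [Field F] (c : F) (x : F) : F := x ^ 2 + c

end Pool.Agent.Arb
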