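import Pool.Agent.Arb.Degree

/-!
# Eventual stability, general form: `4 c` small at a prime above two
-/

set_option autoImplicit false

open IsDedekindDomain NumberField
open scoped WithZero

namespace Pool.Agent.Arb.DB

/-- `x ↦ x ^ 2 + b x + c` -/
def qg {F : Type*} [Field F] (b c : F) (x : F) : F := x ^ 2 + b * x + c

/-- additive form of a valuation -/
noncomputable def od {F : Type*} [Field F] (u : Valuation F ℤᵐ⁰) (x : F) : ℤ :=
  -(WithZero.log (u x))

section
variable {F : Type*} [Field F] (u : Valuation F ℤᵐ⁰)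

theorem u_ne {x : F} (hx : x ≠ 0) : u x ≠ 0 := (Valuation.ne_zero_iff u).mpr hx

theorem od_mul {x y : F} (hx : x ≠ 0) (hy : y ≠ 0) : od u (x * y) = od u x + od u y := by
  unfold od
  rw [map_mul, WithZero.log_mul (u_ne u hx) (u_ne u hy)]; ring

theorem od_pos {x : F} (hx : x ≠ 0) : u x < 1 ↔ 0 < od u x := by
  unfold od
  rw [← WithZero.log_lt_log (u_ne u hx) one_ne_zero, WithZero.log_one]
  constructor <;> intro h <;> linarith

theorem od_nonneg {x : F} (hx : x ≠ 0) : u x ≤ 1 ↔ 0 ≤ od u x := by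
  unfold od
  rw [← WithZero.log_le_log (u_ne u hx) one_ne_zero, WithZero.log_one]
  constructor <;> intro h <;> linarith

theorem od_lt {x y : F} (hx : x ≠ 0) (hy : y ≠ 0) : u x < u y ↔ od u y < od u x := by
  unfold od
  rw [← WithZero.log_lt_log (u_ne u hx) (u_ne u hy)]
  constructor <;> intro h <;> linarith

theorem od_le {x y : F} (hx : x ≠ 0) (hy : y ≠ 0) : u x ≤ u y ↔ od u y ≤ od u x := by
  unfold od
  rw [← WithZero.log_le_log (u_ne u hx) (u_ne u hy)]
  constructor <;> intro h <;> linarith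

theorem od_eq {x y : F} (h : u x = u y) : od u x = od u y := by
  unfold od; rw [h]

theorem od_add_eq {x y : F} (hx : x ≠ 0) (hy : y = 0 ∨ od u x < od u y) :
    x + y ≠ 0 ∧ od u (x + y) = od u x := by
  rcases hy with rfl | h
  · simp [hx]
  · by_cases hy0 : y = 0
    · subst hy0; simp [hx]
    have h1 : u y < u x := (od_lt u hy0 hx).mpr h
    have h2 : u (x + y) = u x := Valuation.map_add_eq_of_lt_left u h1
    refine ⟨?_, od_eq u h2⟩
    intro h3
    rw [h3, map_zero] at h2
    exact u_ne u hx h2.symm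

theorem od_add_ge {x y : F} (h0 : x + y ≠ 0) {m : ℤ} (hx : x = 0 ∨ m ≤ od u x)
    (hy : y = 0 ∨ m ≤ od u y) : m ≤ od u (x + y) := by
  by_cases hx0 : x = 0
  · subst hx0
    simp only [zero_add] at h0 ⊢
    exact hy.resolve_left h0
  by_cases hy0 : y = 0
  · subst hy0
    simp only [add_zero] at h0 ⊢
    exact hx.resolve_left h0
  have hx1 := hx.resolve_left hx0
  have hy1 := hy.resolve_left hy0
  rcases le_total (u x) (u y) with h | h
  · have h1 : u (x + y) ≤ u y := Valuation.map_add_le u h le_rfl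
    have := (od_le u h0 hy0).mp h1
    linarith
  · have h1 : u (x + y) ≤ u x := Valuation.map_add_le u le_rfl h
    have := (od_le u h0 hx0).mp h1
    linarith

theorem od_pow {x : F} (n : ℕ) {G : Type*} [Field G] (w : Valuation G ℤᵐ⁰) {y : G}
    (h : w y = u x ^ n) : od w y = n * od u x := by
  unfold od
  rw [h, WithZero.log_pow]; simp

end

theorem seq_bound (ρ : ℤ) (hρ : 0 < ρ) (d : ℕ → ℤ) (N : ℕ) (h0 : 0 < d 0)
    (h1 : ∀ t < N, d t < ρ → d (t + 1) = 2 * d t)
    (h2 : ∀ t < N, ρ ≤ d t → d t + ρ ≤ d (t + 1)) :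
    ∃ m : ℕ, (m : ℤ) * ρ ≤ d N ∧ (2 : ℤ) ^ N ≤ 2 ^ m * (2 * ρ) := by
  have key : ∀ t ≤ N, 0 < d t ∧ ∃ m : ℕ, (m : ℤ) * ρ ≤ d t ∧
      (2 : ℤ) ^ t ≤ 2 ^ m * min (d t) (2 * ρ) := by
    intro t
    induction t with
    | zero =>
      intro _
      refine ⟨h0, 0, by simpa using h0.le, ?_⟩
      have : (1 : ℤ) ≤ min (d 0) (2 * ρ) := le_min (by omega) (by omega)
      simpa using this
    | succ t ih =>
      intro ht
      obtain ⟨hpos, m, hm1, hm2⟩ := ih (by omega)
      rcases lt_or_ge (d t) ρ with h | h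
      · have h3 := h1 t (by omega) h
        have hm0 : m = 0 := by
          by_contra hne
          have : (1 : ℤ) ≤ m := by omega
          nlinarith
        subst hm0
        refine ⟨by omega, 0, by simp; omega, ?_⟩
        rw [min_eq_left (by omega)] at hm2
        rw [h3, min_eq_left (by omega), pow_succ]
        linarith
      · have h3 := h2 t (by omega) h
        refine ⟨by omega, m + 1, by push_cast; linarith, ?_⟩
        have h4 : min (d t) (2 * ρ) ≤ min (d (t + 1)) (2 * ρ) := min_le_min_right _ (by omega)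
        have h5 : (0 : ℤ) < 2 ^ m := by positivity
        rw [pow_succ, pow_succ]
        nlinarith
  obtain ⟨_, m, h3, h4⟩ := key N le_rfl
  refine ⟨m, h3, h4.trans ?_⟩
  have h5 : (0 : ℤ) < 2 ^ m := by positivity
  exact mul_le_mul_of_nonneg_left (min_le_right _ _) h5.le

section
variable {F : Type*} [Field F] (u : Valuation F ℤᵐ⁰)

theorem qg_int {b c x : F} (hb : u b ≤ 1) (hc : u c ≤ 1) (hx : u x ≤ 1) : u (qg b c x) ≤ 1 := by
  unfold qg
  refine Valuation.map_add_le u (Valuation.map_add_le u ?_ ?_) hc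
  · rw [map_pow]
    exact pow_le_one₀ zero_le hx
  · rw [map_mul]; exact mul_le_one₀ hb zero_le hx

theorem iter_int {b c x : F} (hb : u b ≤ 1) (hc : u c ≤ 1) (hx : u x ≤ 1) (n : ℕ) :
    u ((qg b c)^[n] x) ≤ 1 := by
  induction n generalizing x with
  | zero => exact hx
  | succ n ih => rw [Function.iterate_succ_apply]; exact ih (qg_int u hb hc hx)

/-- smallness of the derivative -/
def Sm (ρ : ℤ) (b : F) : Prop := ∀ y : F, u y ≤ 1 → 2 * y + b = 0 ∨ ρ ≤ od u (2 * y + b)

/-- One step for a difference. -/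
theorem diff_step {b c x y : F} {ρ : ℤ} (hS : Sm u ρ b) (hy : u y ≤ 1)
    (hxy : u (x - y) < 1) (hne : qg b c x ≠ qg b c y) :
    (od u (x - y) < ρ → od u (qg b c x - qg b c y) = 2 * od u (x - y)) ∧
    (ρ ≤ od u (x - y) → od u (x - y) + ρ ≤ od u (qg b c x - qg b c y)) ∧
    0 < od u (x - y) := by
  have e : qg b c x - qg b c y = (x - y) * ((x - y) + (2 * y + b)) := by simp only [qg]; ring
  have hne' : (x - y) * ((x - y) + (2 * y + b)) ≠ 0 := by rw [← e]; exact sub_ne_zero.mpr hne
  have h3 : x - y ≠ 0 := left_ne_zero_of_mul hne'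
  have h4 : (x - y) + (2 * y + b) ≠ 0 := right_ne_zero_of_mul hne'
  have h5 := hS y hy
  refine ⟨fun h => ?_, fun h => ?_, (od_pos u h3).mp hxy⟩
  · rw [e, od_mul u h3 h4]
    have h6 := (od_add_eq u h3 (y := 2 * y + b) (by
      rcases h5 with h5 | h5
      · exact Or.inl h5
      · exact Or.inr (h.trans_le h5))).2
    rw [h6]; ring
  · rw [e, od_mul u h3 h4]
    have h6 := od_add_ge u h4 (m := ρ) (Or.inr h) h5
    linarith

/-- differences stay small, also backwards -/
theorem small_iter {b c x y : F} (hu2 : u 2 < 1) (hb : u b < 1) (hy : u y ≤ 1) (hc : u c ≤ 1)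
    (hxy : u (x - y) < 1) (n : ℕ) : u ((qg b c)^[n] x - (qg b c)^[n] y) < 1 := by
  induction n generalizing x y with
  | zero => exact hxy
  | succ n ih =>
    rw [Function.iterate_succ_apply, Function.iterate_succ_apply]
    apply ih (qg_int u hb.le hc hy)
    have e : qg b c x - qg b c y = (x - y) * ((x - y) + (2 * y + b)) := by simp only [qg]; ring
    rw [e, map_mul]
    have h1 : u ((x - y) + (2 * y + b)) ≤ 1 := by
      refine Valuation.map_add_le u hxy.le (Valuation.map_add_le u ?_ hb.le)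
      rw [map_mul]; exact mul_le_one₀ hu2.le zero_le hy
    calc u (x - y) * u ((x - y) + (2 * y + b)) ≤ u (x - y) * 1 := by gcongr
      _ < 1 := by rw [mul_one]; exact hxy

theorem small_of_qg {b c x y : F} (hu2 : u 2 < 1) (hb : u b < 1) (hy : u y ≤ 1)
    (h : u (qg b c x - qg b c y) < 1) : u (x - y) < 1 := by
  by_contra hcon
  push Not at hcon
  have e : qg b c x - qg b c y = (x - y) * ((x - y) + (2 * y + b)) := by simp only [qg]; ring
  have h2b : u (2 * y + b) < 1 := by
    refine Valuation.map_add_lt u ?_ hb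
    rw [map_mul]
    calc u 2 * u y ≤ u 2 * 1 := by gcongr
      _ < 1 := by rw [mul_one]; exact hu2
  have h1 : u ((x - y) + (2 * y + b)) = u (x - y) :=
    Valuation.map_add_eq_of_lt_left u (h2b.trans_le hcon)
  rw [e, map_mul, h1] at h
  have h2 : 1 ≤ u (x - y) * u (x - y) := by
    calc (1 : ℤᵐ⁰) = 1 * 1 := (one_mul 1).symm
      _ ≤ u (x - y) * u (x - y) := mul_le_mul' hcon hcon
  exact absurd h (not_lt.mpr h2)

theorem small_of_iter {b c x y : F} (hu2 : u 2 < 1) (hb : u b < 1) (hc : u c ≤ 1) (hy : u y ≤ 1)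
    {n : ℕ} (h : u ((qg b c)^[n] x - (qg b c)^[n] y) < 1) : u (x - y) < 1 := by
  induction n generalizing x y with
  | zero => exact h
  | succ n ih =>
    rw [Function.iterate_succ_apply, Function.iterate_succ_apply] at h
    exact small_of_qg u hu2 hb hy (ih (qg_int u hb.le hc hy) h)

theorem od_iter_lt {b c x y : F} {ρ : ℤ} (hρ : 0 < ρ) (hS : Sm u ρ b) (hu2 : u 2 < 1)
    (hb : u b < 1) (hc : u c ≤ 1) (hy : u y ≤ 1)
    (hxy : u (x - y) < 1) {n : ℕ} (hn : 0 < n) (hne : (qg b c)^[n] x ≠ (qg b c)^[n] y) :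
    od u (x - y) < od u ((qg b c)^[n] x - (qg b c)^[n] y) := by
  induction n with
  | zero => omega
  | succ n ih =>
    have e1 : (qg b c)^[n + 1] x = qg b c ((qg b c)^[n] x) := Function.iterate_succ_apply' _ _ _
    have e2 : (qg b c)^[n + 1] y = qg b c ((qg b c)^[n] y) := Function.iterate_succ_apply' _ _ _
    have hne' : (qg b c)^[n] x ≠ (qg b c)^[n] y := by
      intro h; apply hne; rw [e1, e2, h]
    rw [e1, e2] at hne ⊢
    have h3 := diff_step u hS (iter_int u hb.le hc hy n) (small_iter u hu2 hb hy hc hxy n) hne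
    obtain ⟨s1, s2, s3⟩ := h3
    have h4 : od u ((qg b c)^[n] x - (qg b c)^[n] y) <
        od u (qg b c ((qg b c)^[n] x) - qg b c ((qg b c)^[n] y)) := by
      rcases lt_or_ge (od u ((qg b c)^[n] x - (qg b c)^[n] y)) ρ with h | h
      · rw [s1 h]; linarith
      · have := s2 h; linarith
    rcases Nat.eq_zero_or_pos n with rfl | hn'
    · simpa using h4
    · exact (ih hn' hne').trans h4

end

section
variable {K : Type*} [Field K] [NumberField K]

theorem exists_period (b c γ : K) (v : HeightOneSpectrum (𝓞 K)) (h2 : v.valuation K 2 < 1)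
    (hb : v.valuation K b < 1)
    (hc : v.valuation K c ≤ 1) (hγ : v.valuation K γ ≤ 1) :
    ∃ j : ℕ, 0 < j ∧ v.valuation K ((qg b c)^[j] γ - γ) < 1 := by
  have h1 : ∀ t : ℕ, ∃ a : 𝓞 K, v.valuation K (algebraMap (𝓞 K) K a - (qg b c)^[t] γ) < 1 := by
    intro t
    obtain ⟨a, ha⟩ := v.exists_valuation_sub_lt_of_integer
      (iter_int (v.valuation K) hb.le hc hγ t) 1
    exact ⟨a, by simpa using ha⟩
  choose a ha using h1
  have : Finite (𝓞 K ⧸ v.asIdeal) := Ideal.finiteQuotientOfFreeOfNeBot _ v.ne_bot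
  obtain ⟨s, t, hst, he⟩ := Finite.exists_ne_map_eq_of_infinite
    (fun t : ℕ => (Ideal.Quotient.mk v.asIdeal (a t)))
  have key : ∀ s t : ℕ, s < t → Ideal.Quotient.mk v.asIdeal (a s) =
      Ideal.Quotient.mk v.asIdeal (a t) → v.valuation K ((qg b c)^[t - s] γ - γ) < 1 := by
    intro s t hst he
    have h3 : a t - a s ∈ v.asIdeal := by
      rw [← Ideal.Quotient.eq]; exact he.symm
    have h4 : v.valuation K (algebraMap (𝓞 K) K (a t - a s)) < 1 := by
      rw [v.valuation_lt_one_iff_mem]; exact h3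
    have h5 : v.valuation K ((qg b c)^[t] γ - (qg b c)^[s] γ) < 1 := by
      have e : (qg b c)^[t] γ - (qg b c)^[s] γ = algebraMap (𝓞 K) K (a t - a s) +
          ((algebraMap (𝓞 K) K (a s) - (qg b c)^[s] γ) -
            (algebraMap (𝓞 K) K (a t) - (qg b c)^[t] γ)) := by
        rw [map_sub]; ring
      rw [e]
      exact Valuation.map_add_lt _ h4 (Valuation.map_sub_lt _ (ha s) (ha t))
    have h6 : (qg b c)^[t] γ = (qg b c)^[s] ((qg b c)^[t - s] γ) := by
      rw [← Function.iterate_add_apply, Nat.add_sub_cancel' hst.le]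
    rw [h6] at h5
    exact small_of_iter (v.valuation K) h2 hb hc hγ h5
  rcases lt_or_gt_of_ne hst with h | h
  · exact ⟨t - s, by omega, key s t h he⟩
  · exact ⟨s - t, by omega, key t s h he.symm⟩

theorem period_od (b c γ : K) (u : Valuation K ℤᵐ⁰) {ρ : ℤ} (hρ : 0 < ρ) (hS : Sm u ρ b)
    (h2 : u 2 < 1) (hb : u b < 1)
    (hc : u c ≤ 1) (hγ1 : u γ ≤ 1) (hγ : ∀ n, 0 < n → (qg b c)^[n] γ ≠ γ) (j : ℕ) (hj : 0 < j)
    (hp : u ((qg b c)^[j] γ - γ) < 1) (n : ℕ) (hn : 0 < n) :
    od u ((qg b c)^[j * n] γ - γ) = od u ((qg b c)^[j] γ - γ) := by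
  induction n with
  | zero => omega
  | succ n ih =>
    rcases Nat.eq_zero_or_pos n with rfl | hn'
    · simp
    have ih' := ih hn'
    have hne : (qg b c)^[j * n] γ - γ ≠ 0 := sub_ne_zero.mpr (hγ _ (by positivity))
    have hne1 : (qg b c)^[j] γ - γ ≠ 0 := sub_ne_zero.mpr (hγ _ hj)
    have hsm : u ((qg b c)^[j * n] γ - γ) < 1 := by
      rw [od_pos u hne, ih', ← od_pos u hne1]; exact hp
    have e : (qg b c)^[j * (n + 1)] γ - γ = ((qg b c)^[j] γ - γ) +
        ((qg b c)^[j] ((qg b c)^[j * n] γ) - (qg b c)^[j] γ) := by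
      have : (qg b c)^[j * (n + 1)] γ = (qg b c)^[j] ((qg b c)^[j * n] γ) := by
        rw [← Function.iterate_add_apply, show j * (n + 1) = j + j * n by ring]
      rw [this]; ring
    rw [e]
    refine (od_add_eq u hne1 ?_).2
    by_cases h0 : (qg b c)^[j] ((qg b c)^[j * n] γ) = (qg b c)^[j] γ
    · left; exact sub_eq_zero.mpr h0
    · right
      rw [← ih']
      exact od_iter_lt u hρ hS h2 hb hc hγ1 hsm hj h0

theorem map_iterG {A B : Type*} [Field A] [Field B] (f : A →+* B) (b c x : A) (n : ℕ) :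
    f ((qg b c)^[n] x) = (qg (f b) (f c))^[n] (f x) := by
  induction n generalizing x with
  | zero => rfl
  | succ n ih =>
    rw [Function.iterate_succ_apply, Function.iterate_succ_apply, ih]
    simp [qg]

/-- the integral case for `x ^ 2 + b x + c` -/
theorem degree_int (b c γ : K)
    (v : HeightOneSpectrum (𝓞 K)) (h2 : v.valuation K 2 < 1) (hb : v.valuation K b < 1)
    (hc : v.valuation K c ≤ 1) (hg : v.valuation K γ ≤ 1)
    (hγ : ∀ n, 0 < n → (qg b c)^[n] γ ≠ γ) :
    ∃ C0 : ℕ, ∀ (E : Type*) [Field E] [NumberField E] [Algebra K E] (w : E) (N : ℕ),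
      (qg (algebraMap K E b) (algebraMap K E c))^[N] w = algebraMap K E γ →
        2 ^ N ≤ C0 * Module.finrank K E := by
  have h20 : (2 : K) ≠ 0 := two_ne_zero
  have hρ2 : 0 < od (v.valuation K) 2 := (od_pos _ h20).mp h2
  -- a uniform lower bound for the derivative
  obtain ⟨ρ, hρ, hρ2', hρb⟩ : ∃ ρ : ℤ, 0 < ρ ∧ ρ ≤ od (v.valuation K) 2 ∧
      (b = 0 ∨ ρ ≤ od (v.valuation K) b) := by
    by_cases hb0 : b = 0
    · exact ⟨_, hρ2, le_rfl, Or.inl hb0⟩
    · exact ⟨1, by norm_num, by linarith, Or.inr (by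
        have := (od_pos _ hb0).mp hb; linarith)⟩
  have hSmK : Sm (v.valuation K) ρ b := by
    intro y hy
    by_cases h0 : 2 * y + b = 0
    · exact Or.inl h0
    right
    refine od_add_ge _ h0 ?_ hρb
    by_cases hy0 : y = 0
    · left; rw [hy0, mul_zero]
    · right
      rw [od_mul _ two_ne_zero hy0]
      have := (od_nonneg _ hy0).mp hy
      linarith
  obtain ⟨j, hj, hp⟩ := exists_period b c γ v h2 hb hc hg
  set S0 := od (v.valuation K) ((qg b c)^[j] γ - γ) with hS0
  have hS0p : 0 < S0 := (od_pos _ (sub_ne_zero.mpr (hγ _ hj))).mp hp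
  refine ⟨2 ^ (S0.toNat + 1) * ρ.toNat, ?_⟩
  intro E _ _ _ w N hw
  obtain ⟨q, e, he0, he, hq⟩ := Arb.exists_above v E
  have hfr : (e : ℤ) ≤ Module.finrank K E := by exact_mod_cast he
  rcases Nat.eq_zero_or_pos N with rfl | hN
  · have h1 : 0 < ρ.toNat := by omega
    have h2 : 0 < Module.finrank K E := by omega
    have : 0 < 2 ^ (S0.toNat + 1) * ρ.toNat * Module.finrank K E := by
      positivity
    rw [pow_zero]; exact this
  have hcE : q.valuation E (algebraMap K E c) ≤ 1 := by
    rw [← hq]; exact pow_le_one₀ zero_le hc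
  have hbE : q.valuation E (algebraMap K E b) < 1 := by
    rw [← hq]; exact pow_lt_one₀ zero_le hb (by omega)
  have h2E : q.valuation E 2 < 1 := by
    have := hq 2
    rw [map_ofNat (algebraMap K E)] at this
    rw [← this]; exact pow_lt_one₀ zero_le h2 (by omega)
  have h20E : (2 : E) ≠ 0 := two_ne_zero
  have he0' : (0 : ℤ) < e := by exact_mod_cast he0
  have hS : Sm (q.valuation E) (e * ρ) (algebraMap K E b) := by
    intro y hy
    by_cases h0 : 2 * y + algebraMap K E b = 0
    · exact Or.inl h0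
    right
    have he' : (0 : ℤ) < e := by exact_mod_cast he0
    have h2E : od (q.valuation E) 2 = e * od (v.valuation K) 2 := by
      refine od_pow (v.valuation K) e (q.valuation E) ?_
      have := hq 2
      rw [map_ofNat (algebraMap K E)] at this
      exact this.symm
    refine od_add_ge _ h0 ?_ ?_
    · by_cases hy0 : y = 0
      · left; rw [hy0, mul_zero]
      · right
        rw [od_mul _ two_ne_zero hy0, h2E]
        have := (od_nonneg _ hy0).mp hy
        nlinarith
    · rcases hρb with hρb | hρb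
      · left; rw [hρb, map_zero]
      · right
        rw [od_pow (v.valuation K) e (q.valuation E) (hq b).symm]
        nlinarith
  -- the companion point
  set a : K := (qg b c)^[(j - 1) * N] γ with ha
  set Φ := qg (algebraMap K E b) (algebraMap K E c) with hΦ
  have hind : ∀ (n : ℕ) (x : K), algebraMap K E ((qg b c)^[n] x) = Φ^[n] (algebraMap K E x) :=
    fun n x => map_iterG (algebraMap K E) b c x n
  have hNa : (qg b c)^[N] a = (qg b c)^[j * N] γ := by
    obtain ⟨i, rfl⟩ : ∃ i, j = i + 1 := ⟨j - 1, by omega⟩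
    simp only [Nat.add_sub_cancel] at ha
    rw [ha, ← Function.iterate_add_apply, show N + i * N = (i + 1) * N by ring]
  have haE : q.valuation E (algebraMap K E a) ≤ 1 := by
    rw [← hq]; exact pow_le_one₀ zero_le (iter_int _ hb.le hc hg _)
  have hper := period_od b c γ (v.valuation K) hρ hSmK h2 hb hc hg hγ j hj hp N hN
  have hneK : (qg b c)^[j * N] γ ≠ γ := hγ _ (by positivity)
  -- the last difference
  have hlast : Φ^[N] w - Φ^[N] (algebraMap K E a) =
      algebraMap K E (γ - (qg b c)^[j * N] γ) := by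
    rw [hw, ← hind, hNa, map_sub]
  have hvneg : v.valuation K (γ - (qg b c)^[j * N] γ) =
      v.valuation K ((qg b c)^[j * N] γ - γ) := Valuation.map_sub_swap _ _ _
  have hod : od (q.valuation E) (Φ^[N] w - Φ^[N] (algebraMap K E a)) = e * S0 := by
    rw [hlast, od_pow (v.valuation K) e (q.valuation E) (hq _).symm, od_eq _ hvneg, hper]
  have hneE : Φ^[N] w ≠ Φ^[N] (algebraMap K E a) := by
    rw [← sub_ne_zero, hlast]
    simp only [ne_eq, map_eq_zero]
    exact sub_ne_zero.mpr hneK.symm
  have hlt : q.valuation E (Φ^[N] w - Φ^[N] (algebraMap K E a)) < 1 := by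
    rw [od_pos _ (sub_ne_zero.mpr hneE), hod]
    positivity
  have hsm0 : q.valuation E (w - algebraMap K E a) < 1 :=
    small_of_iter (q.valuation E) h2E hbE hcE haE hlt
  have hnet : ∀ t ≤ N, Φ^[t] w ≠ Φ^[t] (algebraMap K E a) := by
    intro t ht h
    apply hneE
    obtain ⟨s, rfl⟩ : ∃ s, N = s + t := ⟨N - t, by omega⟩
    rw [Function.iterate_add_apply, Function.iterate_add_apply, h]
  obtain ⟨m, hm1, hm2⟩ := seq_bound (e * ρ) (by positivity)
    (fun t => od (q.valuation E) (Φ^[t] w - Φ^[t] (algebraMap K E a))) N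
    ((od_pos _ (sub_ne_zero.mpr (hnet 0 (by omega)))).mp hsm0)
    (by
      intro t ht hlt'
      have h3 := (diff_step (q.valuation E) hS (iter_int _ hbE.le hcE haE t)
        (small_iter _ h2E hbE haE hcE hsm0 t) (c := algebraMap K E c) (by
          have := hnet (t + 1) (by omega)
          rwa [Function.iterate_succ_apply', Function.iterate_succ_apply'] at this)).1 hlt'
      simp only [Function.iterate_succ_apply']
      exact h3)
    (by
      intro t ht hge
      have h3 := (diff_step (q.valuation E) hS (iter_int _ hbE.le hcE haE t)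
        (small_iter _ h2E hbE haE hcE hsm0 t) (c := algebraMap K E c) (by
          have := hnet (t + 1) (by omega)
          rwa [Function.iterate_succ_apply', Function.iterate_succ_apply'] at this)).2.1 hge
      simp only [Function.iterate_succ_apply']
      exact h3)
  rw [hod] at hm1
  have hm3 : (m : ℤ) ≤ S0 := by
    have h3 : (m : ℤ) * ρ ≤ S0 := by
      have : (e : ℤ) * ((m : ℤ) * ρ) ≤ e * S0 := by linarith
      exact le_of_mul_le_mul_left this he0'
    nlinarith
  have hm4 : m ≤ S0.toNat := by omega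
  have h7 : ((2 ^ N : ℕ) : ℤ) ≤ ((2 ^ (S0.toNat + 1) * ρ.toNat * Module.finrank K E : ℕ) : ℤ) := by
    rw [Nat.cast_mul, Nat.cast_mul, Int.toNat_of_nonneg hρ.le]
    push_cast
    calc (2 : ℤ) ^ N ≤ 2 ^ m * (2 * (e * ρ)) := hm2
      _ ≤ 2 ^ S0.toNat * (2 * (e * ρ)) := by
          apply mul_le_mul_of_nonneg_right _ (by positivity)
          exact pow_le_pow_right₀ (by norm_num) hm4
      _ = 2 ^ (S0.toNat + 1) * ρ * e := by ring
      _ ≤ 2 ^ (S0.toNat + 1) * ρ * (Module.finrank K E : ℤ) := by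
          apply mul_le_mul_of_nonneg_left hfr
          positivity
  exact_mod_cast h7

/-! ### The filled Julia set at a prime above two with `4 c` small -/

section
variable {F : Type*} [Field F] (u : Valuation F ℤᵐ⁰)

theorem two_lt {c w : F} (h2 : u 2 < 1) (h20 : (2 : F) ≠ 0) (h4 : u (4 * c) < 1)
    (hw : 1 ≤ u (2 * w)) : u (qm c w - w) = u w ^ 2 ∧ u (2 * w) < u w := by
  have hu2 : u 2 ≠ 0 := u_ne u h20
  have hw0 : w ≠ 0 := by
    rintro rfl
    rw [mul_zero, map_zero] at hw
    exact absurd hw (not_le.mpr zero_lt_one)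
  have huw : 0 < u w := zero_lt_iff.mpr (u_ne u hw0)
  rw [map_mul] at hw
  have h1 : 1 < u w := by
    by_contra hcon
    push Not at hcon
    have : u 2 * u w < 1 := by
      calc u 2 * u w ≤ u 2 * 1 := by gcongr
        _ < 1 := by rw [mul_one]; exact h2
    exact absurd hw (not_le.mpr this)
  have h3 : u w < u w ^ 2 := by
    rw [sq]; exact lt_mul_of_one_lt_left huw h1
  have h5 : u c < u w ^ 2 := by
    have h6 : u (4 * c) < (u 2 * u w) ^ 2 := h4.trans_le (one_le_pow₀ hw)
    have e : u (4 * c) = u 2 ^ 2 * u c := by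
      rw [map_mul, ← map_pow]; norm_num
    rw [e, mul_pow] at h6
    exact lt_of_mul_lt_mul_left h6 zero_le
  refine ⟨?_, ?_⟩
  · have e : qm c w - w = w ^ 2 + (c - w) := by simp only [qm]; ring
    rw [e]
    have h7 : u (c - w) < u (w ^ 2) := by
      rw [map_pow]; exact Valuation.map_sub_lt _ h5 h3
    rw [Valuation.map_add_eq_of_lt_left _ h7, map_pow]
  · rw [map_mul]
    calc u 2 * u w < 1 * u w := by gcongr
      _ = u w := one_mul _

/-- doubling outside the filled Julia set, stability inside -/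
theorem hstep {c w : F} (h2 : u 2 < 1) (h20 : (2 : F) ≠ 0) (h4 : u (4 * c) < 1) :
    (1 < u (qm c w - w) → u (qm c (qm c w) - qm c w) = u (qm c w - w) ^ 2) ∧
    (u (qm c w - w) ≤ 1 → u (qm c (qm c w) - qm c w) ≤ 1) := by
  have e : qm c (qm c w) - qm c w = (qm c w - w) * ((qm c w - w) + 2 * w) := by
    simp only [qm]; ring
  constructor
  · intro h
    have h5 : u (2 * w) < u (qm c w - w) := by
      rcases lt_or_ge (u (2 * w)) 1 with h6 | h6
      · exact h6.trans h
      · obtain ⟨h7, h8⟩ := two_lt u h2 h20 h4 h6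
        rw [h7]
        refine h8.trans_le ?_
        have h9 : 1 ≤ u w := h6.trans h8.le
        rw [sq]
        exact le_mul_of_one_le_left zero_le h9
    rw [e, map_mul, Valuation.map_add_eq_of_lt_left _ h5, sq]
  · intro h
    have h5 : u (2 * w) ≤ 1 := by
      by_contra hcon
      push Not at hcon
      obtain ⟨h7, h8⟩ := two_lt u h2 h20 h4 hcon.le
      rw [h7] at h
      have h9 : 1 < u w := hcon.trans h8
      exact absurd h (not_le.mpr (one_lt_pow₀ h9 (by norm_num)))
    rw [e, map_mul]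
    exact mul_le_one₀ h zero_le (Valuation.map_add_le _ h h5)

theorem hiter {c w : F} (h2 : u 2 < 1) (h20 : (2 : F) ≠ 0) (h4 : u (4 * c) < 1) (n : ℕ) :
    (1 < u (qm c w - w) → 
      u (qm c ((qm c)^[n] w) - (qm c)^[n] w) = u (qm c w - w) ^ 2 ^ n) ∧
    (u (qm c w - w) ≤ 1 → u (qm c ((qm c)^[n] w) - (qm c)^[n] w) ≤ 1) := by
  induction n with
  | zero => exact ⟨fun _ => by simp, fun h => by simpa using h⟩
  | succ n ih =>
    have e : (qm c)^[n + 1] w = qm c ((qm c)^[n] w) := Function.iterate_succ_apply' _ _ _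
    rw [e]
    obtain ⟨s1, s2⟩ := hstep u h2 h20 h4 (w := (qm c)^[n] w)
    refine ⟨fun h => ?_, fun h => s2 (ih.2 h)⟩
    have h5 := ih.1 h
    have h6 : 1 < u (qm c ((qm c)^[n] w) - (qm c)^[n] w) := by
      rw [h5]; exact one_lt_pow₀ h (by positivity)
    rw [s1 h6, h5, ← pow_mul, pow_succ]

theorem two_small {c w : F} (h2 : u 2 < 1) (h4 : u (4 * c) < 1)
    (h : u (qm c w - w) ≤ 1) : u (2 * w) < 1 := by
  rcases le_or_gt (u w) 1 with h1 | h1
  · rw [map_mul]
    calc u 2 * u w ≤ u 2 * 1 := by gcongr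
      _ < 1 := by rw [mul_one]; exact h2
  · have huw : 0 < u w := zero_lt_one.trans h1
    have h3 : u w < u w ^ 2 := by
      rw [sq]; exact lt_mul_of_one_lt_left huw h1
    -- `w ^ 2 = (φ w - w) + w - c`
    have h5 : u (4 * (w ^ 2 - w)) < 1 := by
      have e : 4 * (w ^ 2 - w) = 4 * (qm c w - w) - 4 * c := by simp only [qm]; ring
      rw [e]
      refine Valuation.map_sub_lt _ ?_ h4
      rw [map_mul]
      have h44 : u (4 : F) < 1 := by
        have : (4 : F) = 2 * 2 := by norm_num
        rw [this, map_mul]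
        calc u 2 * u 2 ≤ u 2 * 1 := by gcongr
          _ < 1 := by rw [mul_one]; exact h2
      calc u 4 * u (qm c w - w) ≤ u 4 * 1 := by gcongr
        _ < 1 := by rw [mul_one]; exact h44
    have h6 : u (w ^ 2 - w) = u w ^ 2 := by
      rw [sub_eq_add_neg, Valuation.map_add_eq_of_lt_left _ (by
        rw [Valuation.map_neg, map_pow]; exact h3), map_pow]
    have h7 : u (4 * (w ^ 2 - w)) = u (2 * w) ^ 2 := by
      rw [map_mul, h6, map_mul, mul_pow, ← map_pow u 2 2]
      norm_num
    rw [h7] at h5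
    by_contra hcon
    push Not at hcon
    exact absurd h5 (not_lt.mpr (one_le_pow₀ hcon))

end

/-- **Eventual stability** under `|4 c| < 1` at a prime above two. -/
theorem degree_bound' (c γ : K)
    (v : HeightOneSpectrum (𝓞 K)) (h2 : v.valuation K 2 < 1) (hc : v.valuation K (4 * c) < 1)
    (hγ : ∀ n, 0 < n → (qm c)^[n] γ ≠ γ) :
    ∃ C0 : ℕ, ∀ (E : Type*) [Field E] [NumberField E] [Algebra K E] (w : E) (N : ℕ),
      (qm (algebraMap K E c))^[N] w = algebraMap K E γ → 2 ^ N ≤ C0 * Module.finrank K E := by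
  have h20 : (2 : K) ≠ 0 := two_ne_zero
  rcases lt_or_ge 1 (v.valuation K (qm c γ - γ)) with hg | hg
  · -- `γ` escapes at `v`
    refine ⟨(-(od (v.valuation K) (qm c γ - γ))).toNat, ?_⟩
    intro E _ _ _ w N hw
    obtain ⟨q, e, he0, he, hq⟩ := Arb.exists_above v E
    have h2E : q.valuation E 2 < 1 := by
      have := hq 2
      rw [map_ofNat (algebraMap K E)] at this
      rw [← this]; exact pow_lt_one₀ zero_le h2 (by omega)
    have h4E : q.valuation E (4 * algebraMap K E c) < 1 := by
      have := hq (4 * c)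
      rw [map_mul (algebraMap K E), map_ofNat (algebraMap K E)] at this
      rw [← this]; exact pow_lt_one₀ zero_le hc (by omega)
    have h20E : (2 : E) ≠ 0 := two_ne_zero
    have hqg : algebraMap K E (qm c γ - γ) =
        qm (algebraMap K E c) (algebraMap K E γ) - algebraMap K E γ := by
      simp [qm]
    have hq1 := hq (qm c γ - γ)
    rw [hqg] at hq1
    obtain ⟨s1, s2⟩ := hiter (q.valuation E) (w := w) h2E h20E h4E N
    rw [hw] at s1 s2
    have hw1 : 1 < q.valuation E (qm (algebraMap K E c) w - w) := by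
      by_contra hcon
      push Not at hcon
      have h3 := s2 hcon
      rw [← hq1] at h3
      exact absurd h3 (not_le.mpr (one_lt_pow₀ hg (by omega)))
    have h3 := s1 hw1
    rw [← hq1] at h3
    have hγ0 : qm c γ - γ ≠ 0 := by
      intro h
      rw [h, map_zero] at hg
      exact absurd hg (not_lt.mpr zero_le)
    have hwne : qm (algebraMap K E c) w - w ≠ 0 := by
      intro h
      rw [h, map_zero] at hw1
      exact absurd hw1 (not_lt.mpr zero_le)
    have h3' : (e : ℤ) * od (v.valuation K) (qm c γ - γ) =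
        ((2 ^ N : ℕ) : ℤ) * od (q.valuation E) (qm (algebraMap K E c) w - w) := by
      unfold od
      have h9 := congrArg WithZero.log h3
      rw [WithZero.log_pow, WithZero.log_pow] at h9
      simp only [nsmul_eq_mul] at h9
      linarith
    have h4 : od (v.valuation K) (qm c γ - γ) < 0 := by
      by_contra hcon
      push Not at hcon
      exact absurd ((od_nonneg _ hγ0).mpr hcon) (not_le.mpr hg)
    have h5 : od (q.valuation E) (qm (algebraMap K E c) w - w) < 0 := by
      by_contra hcon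
      push Not at hcon
      exact absurd ((od_nonneg _ hwne).mpr hcon) (not_le.mpr hw1)
    have h6 : ((2 ^ N : ℕ) : ℤ) ≤ (-(od (v.valuation K) (qm c γ - γ))) * e := by
      have : (0 : ℤ) < ((2 ^ N : ℕ) : ℤ) := by positivity
      nlinarith
    have h7 : ((2 ^ N : ℕ) : ℤ) ≤
        (((-(od (v.valuation K) (qm c γ - γ))).toNat * Module.finrank K E : ℕ) : ℤ) := by
      rw [Nat.cast_mul ((-(od (v.valuation K) (qm c γ - γ))).toNat),
        Int.toNat_of_nonneg (by linarith)]
      have h8 : (e : ℤ) ≤ Module.finrank K E := by exact_mod_cast he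
      nlinarith
    exact_mod_cast h7
  · -- conjugate by the translation by `γ`
    have hb : v.valuation K (2 * γ) < 1 := two_small _ h2 hc hg
    have hconj : ∀ {A : Type _} [Field A] (c γ x : A) (n : ℕ),
        (qg (2 * γ) (qm c γ - γ))^[n] (x - γ) = (qm c)^[n] x - γ := by
      intro A _ c γ x n
      induction n generalizing x with
      | zero => rfl
      | succ n ih =>
        rw [Function.iterate_succ_apply, Function.iterate_succ_apply, ← ih]
        congr 1
        simp only [qg, qm]; ring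
    have h00 : v.valuation K (0 : K) ≤ 1 := by rw [map_zero]; exact zero_le
    obtain ⟨C0, hC0⟩ := degree_int (2 * γ) (qm c γ - γ) 0 v h2 hb hg h00 (by
      intro n hn h
      apply hγ n hn
      have h3 := hconj c γ γ n
      rw [sub_self, h] at h3
      exact (sub_eq_zero.mp h3.symm))
    refine ⟨C0, ?_⟩
    intro E _ _ _ w N hw
    apply hC0 E (w - algebraMap K E γ) N
    have e1 : algebraMap K E (2 * γ) = 2 * algebraMap K E γ := by
      rw [map_mul, map_ofNat]
    have e2 : algebraMap K E (qm c γ - γ) =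
        qm (algebraMap K E c) (algebraMap K E γ) - algebraMap K E γ := by
      simp [qm]
    have h3 : (qg (2 * algebraMap K E γ)
        (qm (algebraMap K E c) (algebraMap K E γ) - algebraMap K E γ))^[N]
          (w - algebraMap K E γ) = (qm (algebraMap K E c))^[N] w - algebraMap K E γ := by
      generalize algebraMap K E γ = γ'
      generalize algebraMap K E c = c'
      clear hw
      induction N generalizing w with
      | zero => rfl
      | succ n ih =>
        rw [Function.iterate_succ_apply, Function.iterate_succ_apply, ← ih]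
        congr 1
        simp only [qg, qm]; ring
    rw [e1, e2, h3, hw, sub_self, map_zero]

end

end Pool.Agent.Arb.DB
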