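import Pool.Agent.Arb.Defs

/-!
# Module D: degrees of iterated preimages
-/

set_option autoImplicit false

open IsDedekindDomain NumberField

namespace Pool.Agent.Arb

/-- The elementary growth lemma. -/
theorem grow (B : ℕ) (hB : 0 < B) (N : ℕ) (d : ℕ → ℕ) (h0 : 1 ≤ d 0)
    (hd : ∀ t < N, d t + min (d t) B ≤ d (t + 1)) : 2 ^ N ≤ B * 2 ^ (d N / B) := by
  let g : ℕ → ℕ := fun d => if d < B then d else B * 2 ^ (d / B)
  have hg1 : ∀ a, 2 * g a ≤ g (a + min a B) := by
    intro a
    by_cases h : a < B
    · have h1 : min a B = a := min_eq_left h.le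
      rw [h1]
      by_cases h2 : a + a < B
      · simp only [g, if_pos h, if_pos h2]
        omega
      · simp only [g, if_pos h, if_neg h2]
        have h3 : (a + a) / B = 1 := by
          rw [Nat.div_eq_iff hB]
          omega
        rw [h3]
        omega
    · have h1 : min a B = B := min_eq_right (by omega)
      have h2 : ¬ (a + B < B) := by omega
      rw [h1]
      simp only [g, if_neg h, if_neg h2]
      rw [Nat.add_div_right _ hB, pow_succ]
      exact le_of_eq (by ring)
  have hg2 : ∀ a b, a ≤ b → g a ≤ g b := by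
    intro a b hab
    by_cases h : a < B
    · by_cases h2 : b < B
      · simp only [g, if_pos h, if_pos h2]
        exact hab
      · simp only [g, if_pos h, if_neg h2]
        calc a ≤ B := h.le
          _ = B * 1 := (mul_one B).symm
          _ ≤ B * 2 ^ (b / B) := Nat.mul_le_mul_left _ Nat.one_le_two_pow
    · have h2 : ¬ b < B := by omega
      simp only [g, if_neg h, if_neg h2]
      exact Nat.mul_le_mul_left _ (Nat.pow_le_pow_right (by norm_num) (Nat.div_le_div_right hab))
  have key : ∀ t ≤ N, 2 ^ t ≤ g (d t) := by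
    intro t
    induction t with
    | zero =>
      intro _
      have := hg2 1 (d 0) h0
      refine le_trans ?_ this
      by_cases h : 1 < B
      · simp only [g, if_pos h]; norm_num
      · have : B = 1 := by omega
        subst this
        simp [g]
    | succ t ih =>
      intro ht
      have h1 := ih (by omega)
      have h2 := hg1 (d t)
      have h3 := hg2 _ _ (hd t (by omega))
      rw [pow_succ]
      omega
  have h1 := key N le_rfl
  refine h1.trans ?_
  by_cases h : d N < B
  · simp only [g, if_pos h]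
    calc d N ≤ B := h.le
      _ = B * 1 := (mul_one B).symm
      _ ≤ B * 2 ^ (d N / B) := Nat.mul_le_mul_left _ Nat.one_le_two_pow
  · simp only [g, if_neg h]
    exact le_rfl

/-! ### Valuations -/

section Val

variable {F : Type*} [Field F] {Γ : Type*} [LinearOrderedCommGroupWithZero Γ]
  (v : Valuation F Γ) (c : F)

/-- integral elements stay integral -/
theorem qm_le_one (hc : v c ≤ 1) {x : F} (hx : v x ≤ 1) : v (qm c x) ≤ 1 := by
  unfold qm
  refine (v.map_add _ _).trans (max_le ?_ hc)
  rw [map_pow]
  exact pow_le_one' hx 2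

theorem iter_le_one (hc : v c ≤ 1) {x : F} (hx : v x ≤ 1) (n : ℕ) : v ((qm c)^[n] x) ≤ 1 := by
  induction n with
  | zero => exact hx
  | succ n ih =>
    rw [Function.iterate_succ_apply']
    exact qm_le_one v c hc ih

theorem qm_gt_one (hc : v c ≤ 1) {x : F} (hx : 1 < v x) : v (qm c x) = v x ^ 2 := by
  unfold qm
  have h1 : v c < v (x ^ 2) := by
    rw [map_pow]
    exact lt_of_le_of_lt hc (one_lt_pow₀ hx (by norm_num))
  rw [v.map_add_eq_of_lt_left h1, map_pow]

theorem iter_gt_one (hc : v c ≤ 1) {x : F} (hx : 1 < v x) (n : ℕ) :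
    v ((qm c)^[n] x) = v x ^ 2 ^ n := by
  induction n with
  | zero => simp
  | succ n ih =>
    rw [Function.iterate_succ_apply', qm_gt_one v c hc, ih, ← pow_mul, ← pow_succ]
    rw [ih]
    exact one_lt_pow₀ hx (by positivity)

theorem qm_sub (x y : F) : qm c x - qm c y = (x - y) * ((x - y) + 2 * y) := by
  unfold qm
  ring

/-- injectivity modulo the maximal ideal, residue characteristic two -/
theorem inj_mod (h2 : v 2 < 1) {x y : F} (hy : v y ≤ 1)
    (h : v (qm c x - qm c y) < 1) : v (x - y) < 1 := by
  by_contra hxy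
  push Not at hxy
  rw [qm_sub, map_mul] at h
  have h3 : v (2 * y) < 1 := by
    rw [map_mul]
    exact mul_lt_one_of_lt_of_le h2 hy
  have h4 : v ((x - y) + 2 * y) = v (x - y) := by
    rw [v.map_add_eq_of_lt_left (lt_of_lt_of_le h3 hxy)]
  rw [h4] at h
  exact absurd h (not_lt.2 (one_le_mul hxy hxy))

theorem inj_mod_iter (hc : v c ≤ 1) (h2 : v 2 < 1) {x y : F} (hy : v y ≤ 1) (n : ℕ)
    (h : v ((qm c)^[n] x - (qm c)^[n] y) < 1) : v (x - y) < 1 := by
  induction n with
  | zero => exact h
  | succ n ih =>
    rw [Function.iterate_succ_apply', Function.iterate_succ_apply'] at h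
    exact ih (inj_mod v c h2 (iter_le_one v c hc hy n) h)

/-- contraction -/
theorem contr (h2 : v 2 < 1) {x y : F} (hy : v y ≤ 1) (h0 : x ≠ y)
    (h : v (x - y) < 1) : v (qm c x - qm c y) < v (x - y) := by
  rw [qm_sub, map_mul]
  have h3 : v (2 * y) < 1 := by
    rw [map_mul]
    exact mul_lt_one_of_lt_of_le h2 hy
  have h4 : v ((x - y) + 2 * y) < 1 := lt_of_le_of_lt (v.map_add _ _) (max_lt h h3)
  have h5 : v (x - y) ≠ 0 := by
    rw [Ne, Valuation.zero_iff, sub_eq_zero]
    exact h0
  exact mul_lt_of_lt_one_right (zero_lt_iff.2 h5) h4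

theorem contr_iter (hc : v c ≤ 1) (h2 : v 2 < 1) {x y : F} (hy : v y ≤ 1) (h0 : x ≠ y)
    (h : v (x - y) < 1) (n : ℕ) (hn : 0 < n) :
    v ((qm c)^[n] x - (qm c)^[n] y) < v (x - y) := by
  have h5 : 0 < v (x - y) := by
    rw [zero_lt_iff, Ne, Valuation.zero_iff, sub_eq_zero]
    exact h0
  induction n with
  | zero => omega
  | succ n ih =>
    rw [Function.iterate_succ_apply', Function.iterate_succ_apply']
    rcases Nat.eq_zero_or_pos n with rfl | hn'
    · exact contr v c h2 hy h0 h
    · have h6 := ih hn'
      by_cases h7 : (qm c)^[n] x = (qm c)^[n] y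
      · rw [h7, sub_self, map_zero]
        exact h5
      · exact (contr v c h2 (iter_le_one v c hc hy n) h7 (h6.trans h)).trans h6

end Val

theorem map_iter {K E : Type*} [Field K] [Field E] [Algebra K E] (c x : K) (n : ℕ) :
    (qm (algebraMap K E c))^[n] (algebraMap K E x) = algebraMap K E ((qm c)^[n] x) := by
  induction n with
  | zero => rfl
  | succ n ih =>
    rw [Function.iterate_succ_apply', Function.iterate_succ_apply', ih]
    simp [qm]

/-- a prime above, and the comparison of the valuations -/
theorem exists_above {K : Type*} [Field K] [NumberField K] (v : HeightOneSpectrum (𝓞 K))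
    (E : Type*) [Field E] [NumberField E] [Algebra K E] :
    ∃ (W : HeightOneSpectrum (𝓞 E)) (e : ℕ), 0 < e ∧ e ≤ Module.finrank K E ∧
      ∀ x : K, v.valuation K x ^ e = W.valuation E (algebraMap K E x) := by
  have : v.asIdeal.IsMaximal := v.isMaximal
  obtain ⟨Q, hQ1, hQ2⟩ := Ideal.exists_maximal_ideal_liesOver_of_isIntegral (S := 𝓞 E) v.asIdeal
  have hQ3 : Q ≠ ⊥ := by
    rintro rfl
    have h1 := hQ2.over
    have h2 : (⊥ : Ideal (𝓞 E)).under (𝓞 K) = ⊥ := by
      rw [Ideal.under_bot]
    rw [h2] at h1
    exact v.ne_bot h1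
  let W : HeightOneSpectrum (𝓞 E) := ⟨Q, hQ1.isPrime, hQ3⟩
  have hW : W.asIdeal.LiesOver v.asIdeal := hQ2
  refine ⟨W, v.asIdeal.ramificationIdx' W.asIdeal, ?_, ?_, ?_⟩
  · exact Nat.pos_of_ne_zero
      (Ideal.IsDedekindDomain.ramificationIdx'_ne_zero_of_liesOver W.asIdeal v.ne_bot)
  · have h1 : ∀ (r : 𝓞 K) (m : 𝓞 E), r • m = 0 → r = 0 ∨ m = 0 := by
      intro r m h
      rw [Algebra.smul_def, mul_eq_zero] at h
      rcases h with h | h
      · left
        exact (FaithfulSMul.algebraMap_injective (𝓞 K) (𝓞 E)) (by rw [h, map_zero])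
      · right
        exact h
    have h2 : NoZeroSMulDivisors (𝓞 K) (𝓞 E) := ⟨fun {r m} h => h1 r m h⟩
    exact Ideal.ramificationIdx_le_finrank (𝓞 E) K E (p := v.asIdeal) W.asIdeal
  · intro x
    exact HeightOneSpectrum.valuation_liesOver E v W x

/-- periodicity modulo a prime above two -/
theorem exists_period {K : Type*} [Field K] [NumberField K] (c γ : K)
    (v : HeightOneSpectrum (𝓞 K)) (h2 : v.valuation K 2 < 1) (hc : v.valuation K c ≤ 1)
    (hγ : v.valuation K γ ≤ 1) : ∃ j, 0 < j ∧ v.valuation K ((qm c)^[j] γ - γ) < 1 := by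
  have h1 : ∀ n : ℕ, ∃ a : 𝓞 K, v.valuation K (algebraMap (𝓞 K) K a - (qm c)^[n] γ) < 1 := by
    intro n
    obtain ⟨a, ha⟩ := v.exists_valuation_sub_lt_of_integer
      (iter_le_one (v.valuation K) c hc hγ n) 1
    exact ⟨a, by simpa using ha⟩
  choose a ha using h1
  have hfin : Finite (𝓞 K ⧸ v.asIdeal) := Ideal.finiteQuotientOfFreeOfNeBot _ v.ne_bot
  obtain ⟨m, n, hmn, he⟩ := Finite.exists_ne_map_eq_of_infinite
    (fun n : ℕ => Ideal.Quotient.mk v.asIdeal (a n))
  wlog hlt : m < n generalizing m n
  · exact this n m hmn.symm he.symm (by omega)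
  have h3 : a n - a m ∈ v.asIdeal := by
    rw [← Ideal.Quotient.eq]
    exact he.symm
  have h4 : v.valuation K (algebraMap (𝓞 K) K (a n) - algebraMap (𝓞 K) K (a m)) < 1 := by
    rw [← map_sub]
    have h5 := (v.intValuation_lt_one_iff_mem (a n - a m)).2 h3
    rw [← v.valuation_of_algebraMap (K := K)] at h5
    exact h5
  have h5 : v.valuation K ((qm c)^[n] γ - (qm c)^[m] γ) < 1 := by
    have e : (qm c)^[n] γ - (qm c)^[m] γ =
        (algebraMap (𝓞 K) K (a m) - (qm c)^[m] γ) - (algebraMap (𝓞 K) K (a n) - (qm c)^[n] γ)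
        + (algebraMap (𝓞 K) K (a n) - algebraMap (𝓞 K) K (a m)) := by ring
    rw [e]
    refine lt_of_le_of_lt (Valuation.map_add _ _ _) (max_lt ?_ h4)
    exact lt_of_le_of_lt (Valuation.map_sub _ _ _) (max_lt (ha m) (ha n))
  refine ⟨n - m, by omega, ?_⟩
  refine inj_mod_iter (v.valuation K) c hc h2 hγ m ?_
  rw [← Function.iterate_add_apply, Nat.add_sub_cancel' hlt.le]
  exact h5

theorem degree_bound {K : Type*} [Field K] [NumberField K] (c γ : K)
    (v : HeightOneSpectrum (𝓞 K)) (h2 : v.valuation K 2 < 1) (hc : v.valuation K c ≤ 1)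
    (hγ : ∀ n, 0 < n → (qm c)^[n] γ ≠ γ) :
    ∃ C0 : ℕ, ∀ (E : Type*) [Field E] [NumberField E] [Algebra K E] (w : E) (N : ℕ),
      (qm (algebraMap K E c))^[N] w = algebraMap K E γ → 2 ^ N ≤ C0 * Module.finrank K E := by
  by_cases hγ1 : v.valuation K γ ≤ 1
  swap
  · -- the starting point is not integral
    push Not at hγ1
    have hk : 0 < WithZero.log (v.valuation K γ) := by
      have h := (WithZero.log_lt_log one_ne_zero (zero_lt_one.trans hγ1).ne').2 hγ1
      simpa using h
    refine ⟨(WithZero.log (v.valuation K γ)).toNat, ?_⟩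
    intro E _ _ _ w N hw
    obtain ⟨W, e, he0, he1, hW⟩ := exists_above v E
    have hcE : W.valuation E (algebraMap K E c) ≤ 1 := by
      rw [← hW]
      exact pow_le_one' hc e
    have hγE : 1 < W.valuation E (algebraMap K E γ) := by
      rw [← hW]
      exact one_lt_pow₀ hγ1 he0.ne'
    have hwE : 1 < W.valuation E w := by
      by_contra h
      push Not at h
      have h3 := iter_le_one (W.valuation E) _ hcE h N
      rw [hw] at h3
      exact absurd h3 (not_le.2 hγE)
    have h3 := iter_gt_one (W.valuation E) _ hcE hwE N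
    rw [hw, ← hW] at h3
    have h4 := congrArg WithZero.log h3
    rw [WithZero.log_pow, WithZero.log_pow] at h4
    have h5 : 0 < WithZero.log (W.valuation E w) := by
      have h := (WithZero.log_lt_log one_ne_zero (zero_lt_one.trans hwE).ne').2 hwE
      simpa using h
    simp only [nsmul_eq_mul] at h4
    have h6 : ((2 ^ N : ℕ) : ℤ) ≤ e * WithZero.log (v.valuation K γ) := by
      rw [h4]
      exact le_mul_of_one_le_right (by positivity) h5
    have h7 : (e : ℤ) * WithZero.log (v.valuation K γ) ≤
        Module.finrank K E * WithZero.log (v.valuation K γ) :=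
      mul_le_mul_of_nonneg_right (by exact_mod_cast he1) hk.le
    have h8 : (((WithZero.log (v.valuation K γ)).toNat : ℕ) : ℤ) =
        WithZero.log (v.valuation K γ) := Int.toNat_of_nonneg hk.le
    zify
    rw [h8]
    push_cast at h6
    linarith
  · -- integral
    obtain ⟨j, hj0, hj⟩ := exists_period c γ v h2 hc hγ1
    have hσ0 : v.valuation K ((qm c)^[j] γ - γ) ≠ 0 := by
      rw [Ne, Valuation.zero_iff, sub_eq_zero]
      exact hγ j hj0
    have h20 : v.valuation K 2 ≠ 0 := by
      rw [Ne, Valuation.zero_iff]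
      exact two_ne_zero
    have hper : ∀ n : ℕ, v.valuation K ((qm c)^[j * (n + 1)] γ - γ) =
        v.valuation K ((qm c)^[j] γ - γ) := by
      intro n
      induction n with
      | zero => rw [zero_add, mul_one]
      | succ n ih =>
        have e1 : (qm c)^[j * (n + 1 + 1)] γ - γ =
            ((qm c)^[j] ((qm c)^[j * (n + 1)] γ) - (qm c)^[j] γ) + ((qm c)^[j] γ - γ) := by
          rw [← Function.iterate_add_apply]
          have e2 : j * (n + 1 + 1) = j + j * (n + 1) := by ring
          rw [e2]
          ring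
        rw [e1]
        apply Valuation.map_add_eq_of_lt_right
        have h3 : (qm c)^[j * (n + 1)] γ ≠ γ := hγ _ (by positivity)
        have h4 := contr_iter (v.valuation K) c hc h2 hγ1 h3 (by rw [ih]; exact hj) j hj0
        rw [ih] at h4
        exact h4
    obtain ⟨s, hs⟩ : ∃ s : ℕ, WithZero.log (v.valuation K ((qm c)^[j] γ - γ)) = -s := by
      have h := (WithZero.log_lt_log hσ0 one_ne_zero).2 hj
      rw [WithZero.log_one] at h
      exact ⟨(-WithZero.log (v.valuation K ((qm c)^[j] γ - γ))).toNat, by omega⟩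
    obtain ⟨V, hV⟩ : ∃ V : ℕ, WithZero.log (v.valuation K 2) = -V := by
      have h := (WithZero.log_lt_log h20 one_ne_zero).2 h2
      rw [WithZero.log_one] at h
      exact ⟨(-WithZero.log (v.valuation K 2)).toNat, by omega⟩
    have hV0 : 0 < V := by
      have h := (WithZero.log_lt_log h20 one_ne_zero).2 h2
      rw [WithZero.log_one, hV] at h
      omega
    refine ⟨V * 2 ^ s, ?_⟩
    intro E _ _ _ w N hw
    obtain ⟨W, e, he0, he1, hW⟩ := exists_above v E
    have hcE : W.valuation E (algebraMap K E c) ≤ 1 := by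
      rw [← hW]
      exact pow_le_one' hc e
    have h2E : W.valuation E 2 = v.valuation K 2 ^ e := by
      have e1 : algebraMap K E 2 = 2 := map_ofNat _ 2
      rw [hW, e1]
    have h2E1 : W.valuation E 2 < 1 := by
      rw [h2E]
      exact pow_lt_one₀ zero_le h2 he0.ne'
    have h2E0 : W.valuation E 2 ≠ 0 := by
      rw [h2E]
      exact pow_ne_zero _ h20
    obtain ⟨i, hi⟩ : ∃ i : ℕ, N + i = j * (N + 1) := ⟨j * (N + 1) - N, by
      have : N + 1 ≤ j * (N + 1) := Nat.le_mul_of_pos_left _ hj0
      omega⟩
    let b : E := algebraMap K E ((qm c)^[i] γ)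
    have hb1 : W.valuation E b ≤ 1 := by
      rw [← hW]
      exact pow_le_one' (iter_le_one _ c hc hγ1 i) e
    have hN : W.valuation E ((qm (algebraMap K E c))^[N] w - (qm (algebraMap K E c))^[N] b) =
        v.valuation K ((qm c)^[j] γ - γ) ^ e := by
      rw [hw, map_iter, ← Function.iterate_add_apply, hi, ← map_sub, ← hW,
        Valuation.map_sub_swap, hper]
    have hN1 : W.valuation E ((qm (algebraMap K E c))^[N] w -
        (qm (algebraMap K E c))^[N] b) < 1 := by
      rw [hN]
      exact pow_lt_one₀ zero_le hj he0.ne'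
    have hN0 : (qm (algebraMap K E c))^[N] w ≠ (qm (algebraMap K E c))^[N] b := by
      intro h
      rw [h, sub_self, map_zero] at hN
      exact pow_ne_zero e hσ0 hN.symm
    -- all levels
    have hlt : ∀ t ≤ N, W.valuation E ((qm (algebraMap K E c))^[t] w -
        (qm (algebraMap K E c))^[t] b) < 1 := by
      intro t ht
      refine inj_mod_iter (W.valuation E) _ hcE h2E1 (iter_le_one _ _ hcE hb1 t) (N - t) ?_
      rw [← Function.iterate_add_apply, ← Function.iterate_add_apply, Nat.sub_add_cancel ht]
      exact hN1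
    have hne : ∀ t ≤ N, W.valuation E ((qm (algebraMap K E c))^[t] w -
        (qm (algebraMap K E c))^[t] b) ≠ 0 := by
      intro t ht h
      rw [Valuation.zero_iff, sub_eq_zero] at h
      apply hN0
      have e1 : N = (N - t) + t := by omega
      rw [e1, Function.iterate_add_apply, Function.iterate_add_apply, h]
    let L : ℕ → ℤ := fun t => WithZero.log (W.valuation E ((qm (algebraMap K E c))^[t] w -
        (qm (algebraMap K E c))^[t] b))
    have hL1 : ∀ t ≤ N, L t < 0 := by
      intro t ht
      have h := (WithZero.log_lt_log (hne t ht) one_ne_zero).2 (hlt t ht)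
      rw [WithZero.log_one] at h
      exact h
    have hlog2 : WithZero.log (W.valuation E 2) = -((e * V : ℕ) : ℤ) := by
      rw [h2E, WithZero.log_pow, hV, nsmul_eq_mul]
      push_cast
      ring
    have hL2 : ∀ t < N, L (t + 1) ≤ L t + max (L t) (-((e * V : ℕ) : ℤ)) := by
      intro t ht
      have h3 := hne (t + 1) ht
      have h4 : (qm (algebraMap K E c))^[t + 1] w - (qm (algebraMap K E c))^[t + 1] b =
          ((qm (algebraMap K E c))^[t] w - (qm (algebraMap K E c))^[t] b) *
          (((qm (algebraMap K E c))^[t] w - (qm (algebraMap K E c))^[t] b) +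
            2 * (qm (algebraMap K E c))^[t] b) := by
        rw [Function.iterate_succ_apply', Function.iterate_succ_apply']
        exact qm_sub _ _ _
      rw [h4, map_mul] at h3
      have h5 := right_ne_zero_of_mul h3
      have h6 := left_ne_zero_of_mul h3
      have h7 : L (t + 1) = L t + WithZero.log (W.valuation E
          (((qm (algebraMap K E c))^[t] w - (qm (algebraMap K E c))^[t] b) +
            2 * (qm (algebraMap K E c))^[t] b)) := by
        simp only [L]
        rw [h4, map_mul, WithZero.log_mul h6 h5]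
      rw [h7]
      gcongr
      have h8 : W.valuation E (2 * (qm (algebraMap K E c))^[t] b) ≤ W.valuation E 2 := by
        rw [map_mul]
        exact mul_le_of_le_one_right' (iter_le_one _ _ hcE hb1 t)
      have h9 := (W.valuation E).map_add
        ((qm (algebraMap K E c))^[t] w - (qm (algebraMap K E c))^[t] b)
        (2 * (qm (algebraMap K E c))^[t] b)
      rcases le_max_iff.1 h9 with h10 | h10
      · exact le_max_of_le_left ((WithZero.log_le_log h5 h6).2 h10)
      · refine le_max_of_le_right ?_
        rw [← hlog2]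
        exact (WithZero.log_le_log h5 h2E0).2 (h10.trans h8)
    have hLN : L N = -((e * s : ℕ) : ℤ) := by
      simp only [L]
      rw [hN, WithZero.log_pow, hs, nsmul_eq_mul]
      push_cast
      ring
    have hB : 0 < e * V := Nat.mul_pos he0 hV0
    have h3 := grow (e * V) hB N (fun t => (-L t).toNat) ?_ ?_
    · have h4 : (-L N).toNat = e * s := by
        rw [hLN, neg_neg, Int.toNat_natCast]
      simp only [h4] at h3
      have h5 : e * s / (e * V) ≤ s := by
        rw [Nat.mul_div_mul_left _ _ he0]
        exact Nat.div_le_self _ _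
      calc 2 ^ N ≤ e * V * 2 ^ (e * s / (e * V)) := h3
        _ ≤ Module.finrank K E * V * 2 ^ s := by
          gcongr
          norm_num
        _ = V * 2 ^ s * Module.finrank K E := by ring
    · have := hL1 0 (Nat.zero_le _)
      show 1 ≤ (-L 0).toNat
      omega
    · intro t ht
      have h4 := hL1 t ht.le
      have h5 := hL1 (t + 1) ht
      have h6 := hL2 t ht
      show (-L t).toNat + min (-L t).toNat (e * V) ≤ (-L (t + 1)).toNat
      rcases le_total (L t) (-((e * V : ℕ) : ℤ)) with h7 | h7
      · rw [max_eq_right h7] at h6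
        omega
      · rw [max_eq_left h7] at h6
        omega

end Pool.Agent.Arb
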