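import Pool.Agent.Arb.FewLoc

/-!
# At most a bounded number of square values in every window
-/

set_option autoImplicit false

open Filter Topology NumberField

namespace Pool.Agent.Arb

section glob

variable {M : Type*} [Field M] [NumberField M]

/-- the absolute value of a place -/
def av : InfinitePlace M ⊕ FinitePlace M → AbsoluteValue M ℝ :=
  Sum.elim (fun w => w.1) (fun w => w.1)

/-- the exponent of a place in the product formula -/
noncomputable def wt : InfinitePlace M ⊕ FinitePlace M → ℕ := Sum.elim (fun w => w.mult) (fun _ => 1)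

theorem wt_pos (p : InfinitePlace M ⊕ FinitePlace M) : 0 < wt p := by
  rcases p with w | w
  · exact w.mult_pos
  · exact one_pos

/-- the places to be considered -/
noncomputable def plS (T : Finset (FinitePlace M)) : Finset (InfinitePlace M ⊕ FinitePlace M) :=
  Finset.univ.disjSum T

theorem prod_ge {y : M} (hy : y ≠ 0) {T : Finset (FinitePlace M)} (h : ∀ w ∉ T, w y ≤ 1) :
    1 ≤ ∏ p ∈ plS T, av p y ^ wt p := by
  classical
  have h1 := prod_abs_eq_one hy
  have hfin := FinitePlace.hasFiniteMulSupport hy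
  have hfin' : (Function.mulSupport fun w : FinitePlace M => w y).Finite := hfin
  rw [plS, Finset.prod_disjSum]
  rw [finprod_eq_prod_of_mulSupport_subset _ (s := T ∪ hfin'.toFinset) (by
    intro w hw
    simp only [Finset.coe_union, Set.Finite.coe_toFinset]
    exact Or.inr hw)] at h1
  rw [← Finset.prod_sdiff (Finset.subset_union_left : T ⊆ T ∪ hfin'.toFinset)] at h1
  have h2 : ∏ w ∈ (T ∪ hfin'.toFinset) \ T, w y ≤ 1 :=
    Finset.prod_le_one (fun w _ => apply_nonneg w y) fun w hw =>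
      h w (Finset.mem_sdiff.1 hw).2
  have h3 : 0 ≤ ∏ w : InfinitePlace M, w y ^ w.mult :=
    Finset.prod_nonneg fun w _ => pow_nonneg (apply_nonneg w y) _
  have h4 : 0 ≤ ∏ w ∈ T, w y := Finset.prod_nonneg fun w _ => apply_nonneg w y
  have h5 : ∏ w ∈ T, av (Sum.inr w) y ^ wt (Sum.inr w : InfinitePlace M ⊕ FinitePlace M) =
      ∏ w ∈ T, w y := Finset.prod_congr rfl fun w _ => pow_one _
  have h6 : ∏ w : InfinitePlace M, av (Sum.inl w) y ^
      wt (Sum.inl w : InfinitePlace M ⊕ FinitePlace M) = ∏ w : InfinitePlace M, w y ^ w.mult := rfl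
  rw [h5, h6, ← h1]
  refine mul_le_mul_of_nonneg_left ?_ h3
  exact mul_le_of_le_one_left h4 h2

/-- an element that is small at one place and bounded at the others vanishes -/
theorem small_zero (T : Finset (FinitePlace M)) (B : InfinitePlace M ⊕ FinitePlace M → ℝ) :
    ∃ ε > 0, ∀ y : M, (∀ w ∉ T, w y ≤ 1) → (∀ p ∈ plS T, av p y ≤ B p) →
      (∃ p ∈ plS T, av p y ≤ ε) → y = 0 := by
  classical
  set Q := ∏ p ∈ plS T, (max 1 (B p)) ^ wt p with hQ
  have hQ1 : 1 ≤ Q := by
    have h0 : ∏ p ∈ plS T, (1 : ℝ) ≤ Q := Finset.prod_le_prod (fun _ _ => zero_le_one) fun p _ =>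
      one_le_pow₀ (le_max_left _ _)
    rwa [Finset.prod_const_one] at h0
  refine ⟨1 / (2 * Q), by positivity, fun y h1 h2 h3 => ?_⟩
  by_contra hy
  obtain ⟨p, hp, h4⟩ := h3
  have h5 := prod_ge hy h1
  rw [← Finset.mul_prod_erase _ _ hp] at h5
  have h6 : av p y ^ wt p ≤ 1 / (2 * Q) := by
    have h7 : 1 / (2 * Q) ≤ 1 := by
      rw [div_le_one (by positivity)]
      linarith
    calc av p y ^ wt p ≤ av p y ^ 1 := pow_le_pow_of_le_one ((av p).nonneg _) (h4.trans h7) (wt_pos p)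
      _ = av p y := pow_one _
      _ ≤ _ := h4
  have h8 : ∏ p ∈ (plS T).erase p, av p y ^ wt p ≤ Q := by
    have h9 : ∏ p ∈ (plS T).erase p, av p y ^ wt p ≤
        ∏ p ∈ (plS T).erase p, (max 1 (B p)) ^ wt p :=
      Finset.prod_le_prod (fun p _ => pow_nonneg ((av p).nonneg _) _) fun p hp =>
        pow_le_pow_left₀ ((av p).nonneg _) ((h2 p (Finset.mem_of_mem_erase hp)).trans
          (le_max_right _ _)) _
    refine h9.trans ?_
    rw [hQ, ← Finset.mul_prod_erase _ _ hp]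
    refine le_mul_of_one_le_left (Finset.prod_nonneg fun p _ => by positivity) ?_
    exact one_le_pow₀ (le_max_left _ _)
  have h9 : av p y ^ wt p * ∏ p ∈ (plS T).erase p, av p y ^ wt p ≤ 1 / (2 * Q) * Q :=
    mul_le_mul h6 h8 (Finset.prod_nonneg fun p _ => pow_nonneg ((av p).nonneg _) _) (by positivity)
  have h10 : 1 / (2 * Q) * Q = 1 / 2 := by
    field_simp
  linarith

theorem orbit_le_one {w : FinitePlace M} {c : M} (h : w c ≤ 1) (n : ℕ) :
    w ((qm c)^[n] 0) ≤ 1 := by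
  induction n with
  | zero => simp
  | succ n ih =>
    rw [qm_succ]
    refine (FinitePlace.add_le w _ _).trans (max_le ?_ h)
    rw [map_pow]
    exact pow_le_one₀ (apply_nonneg w _) ih

/-- there is a place at which the orbit is unbounded -/
theorem exists_esc {c : M} (hc : Function.Injective fun n : ℕ => (qm c)^[n] 0)
    {T : Finset (FinitePlace M)} (hT : ∀ w ∉ T, w c ≤ 1) : ∃ p ∈ plS T, Esc (av p) c := by
  by_contra hcon
  push Not at hcon
  have hb : ∀ p ∈ plS T, ∀ n, av p ((qm c)^[n] 0) ≤ max 3 (av p c) := fun p hp =>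
    (esc_or (av p) c).resolve_left (hcon p hp)
  obtain ⟨ε, hε, h1⟩ := small_zero T fun p => 2 * max 3 (av p c)
  obtain ⟨w⟩ : Nonempty (InfinitePlace M) := inferInstance
  have hw : (Sum.inl w : InfinitePlace M ⊕ FinitePlace M) ∈ plS T := by
    rw [plS, Finset.inl_mem_disjSum]
    exact Finset.mem_univ _
  -- a convergent subsequence
  have h2 : ∀ n, w.embedding ((qm c)^[n] 0) ∈ Metric.closedBall (0 : ℂ) (max 3 (w c)) := by
    intro n
    rw [mem_closedBall_zero_iff, InfinitePlace.norm_embedding_eq]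
    exact hb _ hw n
  obtain ⟨a, -, φ, hφ, h3⟩ := (isCompact_closedBall (0 : ℂ) (max 3 (w c))).tendsto_subseq h2
  have h4 := h3.cauchySeq
  rw [Metric.cauchySeq_iff] at h4
  obtain ⟨N, hN⟩ := h4 ε hε
  have h5 := hN N le_rfl (N + 1) (Nat.le_succ N)
  rw [dist_eq_norm] at h5
  have h6 : ((qm c)^[φ N] 0 : M) - (qm c)^[φ (N + 1)] 0 = 0 := by
    refine h1 _ (fun w' hw' => ?_) (fun p hp => ?_) ⟨Sum.inl w, hw, ?_⟩
    · rw [sub_eq_add_neg]
      refine (FinitePlace.add_le w' _ _).trans (max_le (orbit_le_one (hT w' hw') _) ?_)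
      rw [map_neg_eq_map]
      exact orbit_le_one (hT w' hw') _
    · rw [sub_eq_add_neg]
      refine ((av p).add_le _ _).trans ?_
      rw [(av p).map_neg, two_mul]
      exact add_le_add (hb p hp _) (hb p hp _)
    · have h7 : av (Sum.inl w) ((qm c)^[φ N] 0 - (qm c)^[φ (N + 1)] 0) =
          ‖w.embedding ((qm c)^[φ N] 0 - (qm c)^[φ (N + 1)] 0)‖ :=
        (InfinitePlace.norm_embedding_eq w _).symm
      rw [h7, map_sub]
      exact h5.le
  have h7 := hc (sub_eq_zero.1 h6)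
  have h8 : φ N < φ (N + 1) := hφ (Nat.lt_succ_self N)
  omega

theorem Pr.fin_le {w : FinitePlace M} {c x : M} (hc : w c ≤ 1) (h2 : w 2 = 1)
    (hd : w (x - c) = 1) {n : ℕ} {e e' : M} (h : Pr c x n e e') : w e ≤ 1 := by
  by_contra hcon
  push Not at hcon
  have h1 : w e * w e' = 1 := by rw [← map_mul, h.mul, hd]
  have h3 : w e' ≤ 1 := by
    by_contra h4
    push Not at h4
    have := mul_lt_mul'' hcon h4 zero_le_one zero_le_one
    linarith
  have h4 : w e ≤ 1 := by
    have h5 : e = (e + e') + -e' := by ring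
    rw [h5]
    refine (FinitePlace.add_le w _ _).trans (max_le ?_ ?_)
    · rw [h.add, map_mul, h2, one_mul]
      exact orbit_le_one hc n
    · rw [map_neg_eq_map]
      exact h3
  linarith

theorem Pr.fin_eq {w : FinitePlace M} {c x : M} (hc : w c ≤ 1) (h2 : w 2 = 1)
    (hd : w (x - c) = 1) {n : ℕ} {e e' : M} (h : Pr c x n e e') : w e = 1 := by
  have h1 := h.fin_le hc h2 hd
  have h3 := h.symm.fin_le hc h2 hd
  have h4 : w e * w e' = 1 := by rw [← map_mul, h.mul, hd]
  have h5 : w e * w e' ≤ w e * 1 := mul_le_mul_of_nonneg_left h3 (apply_nonneg w e)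
  linarith

omit [NumberField M] in
theorem Pr.ne {c x : M} (hd : x - c ≠ 0) {n : ℕ} {e e' : M} (h : Pr c x n e e') : e ≠ 0 :=
  left_ne_zero_of_mul (h.mul ▸ hd)

/-- a bound valid for all elements of a finite set -/
theorem exists_bound {α : Type*} (S : Finset α) {P : α → ℕ → Prop}
    (hmono : ∀ a m n, m ≤ n → P a m → P a n) (h : ∀ a ∈ S, ∃ n, P a n) :
    ∃ n, ∀ a ∈ S, P a n := by
  classical
  induction S using Finset.induction_on with
  | empty => exact ⟨0, by simp⟩
  | insert a s has ih =>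
    obtain ⟨n₁, h1⟩ := h a (Finset.mem_insert_self _ _)
    obtain ⟨n₂, h2⟩ := ih fun b hb => h b (Finset.mem_insert_of_mem hb)
    refine ⟨max n₁ n₂, fun b hb => ?_⟩
    rcases Finset.mem_insert.1 hb with rfl | hb
    · exact hmono _ _ _ (le_max_left _ _) h1
    · exact hmono _ _ _ (le_max_right _ _) (h2 b hb)

/-- Two square values with the same pattern of signs cannot be at the distance `j`. -/
theorem claim {c x : M} (hc : Function.Injective fun n : ℕ => (qm c)^[n] 0) (hd : x - c ≠ 0)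
    (hk : x + c ≠ 0) {T : Finset (FinitePlace M)}
    (hT : ∀ w ∉ T, w 2 = 1 ∧ w c ≤ 1 ∧ w (x - c) = 1) {j : ℕ} (hj : 0 < j) :
    ∃ N, ∀ n ≥ N, ∀ e e' f f', Pr c x n e e' → Pr c x (n + j) f f' →
      (∀ p ∈ plS T, (av p e' ≤ av p e ↔ av p f' ≤ av p f)) → False := by
  have h2 : (2 : M) ≠ 0 := two_ne_zero
  obtain ⟨p₀, hp₀, hesc⟩ := exists_esc hc fun w hw => (hT w hw).2.1
  -- the set of large places is not empty
  obtain ⟨N₁, hN₁⟩ : ∃ N, ∀ n ≥ N, ∀ e e', Pr c x n e e' →
      ∃ p ∈ plS T, Esc (av p) c ∧ av p e' ≤ av p e := by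
    obtain ⟨ε, hε, h1⟩ := small_zero T fun p => max 1 (av p 2 * max 3 (av p c) + av p (x - c) + 1)
    obtain ⟨N, hN⟩ := exists_bound (plS T)
      (P := fun p N => Esc (av p) c → ∀ n ≥ N, ∀ e e', Pr c x n e e' → av p e ≤ av p e' →
        av p e ≤ min ε 1)
      (fun p m n hmn h h3 k hk => h h3 k (hmn.trans hk))
      (fun p _ => by
        by_cases hv : Esc (av p) c
        · obtain ⟨N, hN⟩ := loc_e (x := x) hv h2 (lt_min hε one_pos)
          exact ⟨N, fun _ => hN⟩
        · exact ⟨0, fun h => absurd h hv⟩)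
    refine ⟨N, fun n hn e e' h => ?_⟩
    by_contra hcon
    push Not at hcon
    refine h.ne hd (h1 e (fun w hw => ?_) (fun p hp => ?_) ⟨p₀, hp₀, ?_⟩)
    · exact h.fin_le (hT w hw).2.1 (hT w hw).1 (hT w hw).2.2
    · rcases esc_or (av p) c with hv | hR
      · exact ((hN p hp hv n hn e e' h (hcon p hp hv).le).trans (min_le_right _ _)).trans
          (le_max_left _ _)
      · exact (h.le (hR n)).trans (le_max_right _ _)
    · exact (hN p₀ hp₀ hesc n hn e e' h (hcon p₀ hp₀ hesc).le).trans (min_le_left _ _)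
  -- bounds for theta
  choose B N₂ hB using fun p : InfinitePlace M ⊕ FinitePlace M => loc_bdd (av p) h2 hd j
  obtain ⟨ε, hε, h1⟩ := small_zero T B
  obtain ⟨N₃, hN₃⟩ := exists_bound (plS T) (P := fun p N => N₂ p ≤ N)
    (fun p m n hmn h => h.trans hmn) fun p _ => ⟨N₂ p, le_rfl⟩
  obtain ⟨N₄, hN₄⟩ := exists_bound (plS T)
      (P := fun p N => Esc (av p) c → ∀ n ≥ N, ∀ e e' f f', (Pr c x n e e' ∧ Pr c x (n + j) f f' ∧
        av p e' ≤ av p e ∧ av p f' ≤ av p f) →
        av p (f / e ^ (2 ^ j) - 2 / 2 ^ (2 ^ j)) ≤ ε ∧ f / e ^ (2 ^ j) - 2 / 2 ^ (2 ^ j) ≠ 0)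
      (fun p m n hmn h h3 k hk => h h3 k (hmn.trans hk))
      (fun p _ => by
        by_cases hv : Esc (av p) c
        · obtain ⟨N, hN⟩ := loc_small hv h2 hk hj hε
          exact ⟨N, fun _ => hN⟩
        · exact ⟨0, fun h => absurd h hv⟩)
  refine ⟨max N₁ (max N₃ N₄), fun n hn e e' f f' h3 h4 h5 => ?_⟩
  have hn1 : N₁ ≤ n := (le_max_left _ _).trans hn
  have hn3 : N₃ ≤ n := ((le_max_left _ _).trans (le_max_right _ _)).trans hn
  have hn4 : N₄ ≤ n := ((le_max_right _ _).trans (le_max_right _ _)).trans hn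
  obtain ⟨p, hp, hv, h6⟩ := hN₁ n hn1 e e' h3
  obtain ⟨h7, h8⟩ := hN₄ p hp hv n hn4 e e' f f' ⟨h3, h4, h6, (h5 p hp).1 h6⟩
  refine h8 (h1 _ (fun w hw => ?_) (fun p hp => ?_) ⟨p, hp, h7⟩)
  · obtain ⟨w2, wc, wd⟩ := hT w hw
    rw [sub_eq_add_neg]
    refine (FinitePlace.add_le w _ _).trans (max_le ?_ ?_)
    · rw [map_div₀, map_pow, h3.fin_eq wc w2 wd, h4.fin_eq wc w2 wd, one_pow, div_one]
    · rw [map_neg_eq_map, map_div₀, map_pow, w2, one_pow, div_one]
  · exact hB p n ((hN₃ p hp).trans hn3) e e' f f' h3 h4 fun _ => h5 p hp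

/-- E1: in every window far out there are at most `C` square values. -/
theorem few_squares (c x : M)
    (hc : Function.Injective fun n : ℕ => (qm c)^[n] 0)
    (h1 : ∀ n : ℕ, (qm c)^[n] 0 ≠ x) (h2 : x ≠ -c) :
    ∃ C : ℕ, ∀ W : ℕ, ∃ n0 : ℕ, ∀ n ≥ n0, ∀ I ⊆ Finset.Icc n (n + W),
      (∀ i ∈ I, IsSquare ((qm c)^[i] 0 - x)) → I.card ≤ C := by
  classical
  have hd : x - c ≠ 0 := by
    intro h
    refine h1 1 ?_
    rw [qm_succ]
    simp only [Function.iterate_zero, id]
    rw [sub_eq_zero] at h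
    rw [h]
    ring
  have hk : x + c ≠ 0 := fun h => h2 (eq_neg_of_add_eq_zero_left h)
  have hc0 : c ≠ 0 := by
    intro h
    have h3 := @hc 0 1 (by
      show (qm c)^[0] 0 = (qm c)^[0 + 1] 0
      rw [qm_succ]
      simp [h])
    exact absurd h3 (by norm_num)
  have f2 : (Function.mulSupport fun w : FinitePlace M => w (2 : M)).Finite :=
    FinitePlace.hasFiniteMulSupport two_ne_zero
  have fc : (Function.mulSupport fun w : FinitePlace M => w c).Finite :=
    FinitePlace.hasFiniteMulSupport hc0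
  have fd : (Function.mulSupport fun w : FinitePlace M => w (x - c)).Finite :=
    FinitePlace.hasFiniteMulSupport hd
  set T : Finset (FinitePlace M) := f2.toFinset ∪ fc.toFinset ∪ fd.toFinset with hTdef
  have hT : ∀ w ∉ T, w 2 = 1 ∧ w c ≤ 1 ∧ w (x - c) = 1 := by
    intro w hw
    rw [hTdef, Finset.mem_union, Finset.mem_union, Set.Finite.mem_toFinset,
      Set.Finite.mem_toFinset, Set.Finite.mem_toFinset, Function.mem_mulSupport,
      Function.mem_mulSupport, Function.mem_mulSupport] at hw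
    push Not at hw
    exact ⟨hw.1.1, hw.1.2.le, hw.2⟩
  refine ⟨2 ^ (plS T).card, fun W => ?_⟩
  obtain ⟨N, hN⟩ := exists_bound (Finset.Icc 1 W)
      (P := fun j N => ∀ n ≥ N, ∀ e e' f f', Pr c x n e e' → Pr c x (n + j) f f' →
      (∀ p ∈ plS T, (av p e' ≤ av p e ↔ av p f' ≤ av p f)) → False)
      (fun p m n hmn h k hk => h k (hmn.trans hk))
      (fun j hj => claim hc hd hk hT (Finset.mem_Icc.1 hj).1)
  refine ⟨N + 1, fun n hn I hI hsq => ?_⟩
  by_contra hcon
  push Not at hcon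
  choose! t ht using hsq
  set pat : ℕ → Finset (InfinitePlace M ⊕ FinitePlace M) := fun i =>
    (plS T).filter fun p => av p ((qm c)^[i - 1] 0 - t i) ≤ av p ((qm c)^[i - 1] 0 + t i) with hpat
  have hmap : Set.MapsTo pat I (plS T).powerset := fun i _ =>
    Finset.mem_coe.2 (Finset.mem_powerset.2 (Finset.filter_subset _ _))
  rw [← Finset.card_powerset] at hcon
  obtain ⟨i₁, hi₁, i₂, hi₂, hne, heq⟩ := Finset.exists_ne_map_eq_of_card_lt_of_maps_to hcon hmap
  have hpr : ∀ i ∈ I, Pr c x (i - 1) ((qm c)^[i - 1] 0 + t i) ((qm c)^[i - 1] 0 - t i) := by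
    intro i hi
    have h3 := (Finset.mem_Icc.1 (hI hi)).1
    refine Pr.of_sq ?_
    rw [Nat.sub_add_cancel (by omega)]
    exact ht i hi
  have main : ∀ i₁ ∈ I, ∀ i₂ ∈ I, i₁ < i₂ → pat i₁ = pat i₂ → False := by
    intro i₁ hi₁ i₂ hi₂ hlt heq
    have h3 := Finset.mem_Icc.1 (hI hi₁)
    have h4 := Finset.mem_Icc.1 (hI hi₂)
    refine hN (i₂ - i₁) (Finset.mem_Icc.2 ⟨by omega, by omega⟩) (i₁ - 1) (by omega) _ _
      ((qm c)^[i₂ - 1] 0 + t i₂) ((qm c)^[i₂ - 1] 0 - t i₂) (hpr i₁ hi₁) ?_ ?_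
    · have h5 : i₁ - 1 + (i₂ - i₁) = i₂ - 1 := by omega
      rw [h5]
      exact hpr i₂ hi₂
    · intro p hp
      have h5 := Finset.ext_iff.1 heq p
      simp only [hpat, Finset.mem_filter] at h5
      constructor
      · intro h
        exact (h5.1 ⟨hp, h⟩).2
      · intro h
        exact (h5.2 ⟨hp, h⟩).2
  rcases lt_or_gt_of_ne hne with h | h
  · exact main i₁ hi₁ i₂ hi₂ h heq
  · exact main i₂ hi₂ i₁ hi₁ h heq.symm

end glob

end Pool.Agent.Arb
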