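import Pool.Agent.Arb.Defs

/-!
# Local analysis of consecutive square values at one absolute value
-/

set_option autoImplicit false

open Filter Topology

namespace Pool.Agent.Arb

section loc

variable {F : Type*} [Field F] (v : AbsoluteValue F ℝ) (c x : F)

theorem qm_succ (n : ℕ) : (qm c)^[n + 1] 0 = ((qm c)^[n] 0) ^ 2 + c := by
  rw [Function.iterate_succ_apply']
  rfl

/-- The orbit of `0` goes to infinity for `v`. -/
def Esc : Prop := Tendsto (fun n => v ((qm c)^[n] 0)) atTop atTop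

theorem esc_or : Esc v c ∨ ∀ n, v ((qm c)^[n] 0) ≤ max 3 (v c) := by
  by_cases h : ∀ n, v ((qm c)^[n] 0) ≤ max 3 (v c)
  · exact Or.inr h
  · left
    push Not at h
    obtain ⟨n₀, h0⟩ := h
    have key : ∀ k, 2 ^ k * max 3 (v c) < v ((qm c)^[n₀ + k] 0) := by
      intro k
      induction k with
      | zero => simpa using h0
      | succ k ih =>
        have h3 : 3 ≤ max 3 (v c) := le_max_left _ _
        have hc : v c ≤ max 3 (v c) := le_max_right _ _
        have h1 : (1 : ℝ) ≤ 2 ^ k := one_le_pow₀ (by norm_num)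
        have h4 : max 3 (v c) ≤ 2 ^ k * max 3 (v c) := by nlinarith
        have h5 : max 3 (v c) < v ((qm c)^[n₀ + k] 0) := lt_of_le_of_lt h4 ih
        rw [← add_assoc, qm_succ]
        set a := v ((qm c)^[n₀ + k] 0) with ha
        have h6 : a ^ 2 ≤ v (((qm c)^[n₀ + k] 0) ^ 2 + c) + v c := by
          have h7 := v.add_le (((qm c)^[n₀ + k] 0) ^ 2 + c) (-c)
          rw [add_neg_cancel_right, v.map_neg, map_pow] at h7
          exact h7
        have h8 : 2 * a ≤ v (((qm c)^[n₀ + k] 0) ^ 2 + c) := by nlinarith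
        calc 2 ^ (k + 1) * max 3 (v c) = 2 * (2 ^ k * max 3 (v c)) := by ring
          _ < 2 * a := by linarith
          _ ≤ _ := h8
    have h1 : Tendsto (fun k : ℕ => (2 : ℝ) ^ k * max 3 (v c)) atTop atTop :=
      (tendsto_pow_atTop_atTop_of_one_lt (by norm_num)).atTop_mul_const
        (lt_of_lt_of_le (by norm_num) (le_max_left _ _))
    have h2 : Tendsto (fun k => v ((qm c)^[n₀ + k] 0)) atTop atTop :=
      tendsto_atTop_mono (fun k => (key k).le) h1
    have h3 : Tendsto (fun k => v ((qm c)^[k + n₀] 0)) atTop atTop := by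
      simpa only [add_comm] using h2
    exact (tendsto_add_atTop_iff_nat n₀).1 h3

/-- `e, e'` are the two numbers `z_n ± t` with `t ^ 2 = z_{n+1} - x`. -/
structure Pr (n : ℕ) (e e' : F) : Prop where
  mul : e * e' = x - c
  add : e + e' = 2 * (qm c)^[n] 0

variable {v c x}

theorem Pr.symm {n : ℕ} {e e' : F} (h : Pr c x n e e') : Pr c x n e' e :=
  ⟨by rw [mul_comm, h.mul], by rw [add_comm, h.add]⟩

theorem Pr.of_sq {n : ℕ} {t : F} (h : (qm c)^[n + 1] 0 - x = t * t) :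
    Pr c x n ((qm c)^[n] 0 + t) ((qm c)^[n] 0 - t) := by
  rw [qm_succ] at h
  exact ⟨by linear_combination h, by ring⟩

/-- the number `2 (e/2) ^ (2 ^ i)` -/
def G (e : F) (i : ℕ) : F := 2 * (e / 2) ^ (2 ^ i)

theorem G_zero (h2 : (2 : F) ≠ 0) (e : F) : G e 0 = e := by
  unfold G
  rw [pow_zero, pow_one, mul_div_cancel₀ _ h2]

theorem G_succ (h2 : (2 : F) ≠ 0) (e : F) (i : ℕ) : G e (i + 1) = G e i ^ 2 / 2 := by
  unfold G
  rw [pow_succ 2 i, pow_mul]
  field_simp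

/-- the difference -/
def Df (c : F) (n : ℕ) (e : F) (i : ℕ) : F := 2 * (qm c)^[n + i] 0 - G e i

theorem Df_succ (h2 : (2 : F) ≠ 0) (n : ℕ) (e : F) (i : ℕ) :
    Df c n e (i + 1) = Df c n e i * G e i + Df c n e i ^ 2 / 2 + 2 * c := by
  unfold Df
  rw [← add_assoc, qm_succ, G_succ h2]
  field_simp
  ring

theorem Df_one (h2 : (2 : F) ≠ 0) {n : ℕ} {e e' : F} (h : Pr c x n e e') :
    Df c n e 1 = x + c + e' ^ 2 / 2 := by
  have h0 : Df c n e 0 = e' := by
    unfold Df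
    rw [G_zero h2, add_zero, ← h.add]
    ring
  rw [Df_succ h2, h0, G_zero h2]
  linear_combination h.mul

variable {ι : Type*} {l : Filter ι} {n : ι → ℕ} {e e' f f' : ι → F} {j : ℕ}

section esc

variable (hv : Esc v c) (h2 : (2 : F) ≠ 0) (hn : Tendsto n l atTop)
  (he : ∀ᶠ i in l, Pr c x (n i) (e i) (e' i)) (hee : ∀ᶠ i in l, v (e' i) ≤ v (e i))

include hv h2 hn he hee

theorem tendsto_e : Tendsto (fun i => v (e i)) l atTop := by
  have h2' : 0 < v 2 := v.pos h2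
  have h1 : Tendsto (fun i => v 2 * v ((qm c)^[n i] 0) / 2) l atTop :=
    ((Tendsto.const_mul_atTop h2' (hv.comp hn)).atTop_div_const (by norm_num))
  refine tendsto_atTop_mono' l ?_ h1
  filter_upwards [he, hee] with i h3 h4
  have h5 := v.add_le (e i) (e' i)
  rw [h3.add, map_mul] at h5
  linarith

theorem tendsto_e' : Tendsto (fun i => v (e' i)) l (𝓝 0) := by
  have h1 := tendsto_e hv h2 hn he hee
  have h3 : Tendsto (fun i => v (x - c) / v (e i)) l (𝓝 0) := h1.const_div_atTop _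
  refine h3.congr' ?_
  filter_upwards [he, h1.eventually_gt_atTop 0] with i h4 h5
  rw [← h4.mul, map_mul, mul_div_cancel_left₀ _ h5.ne']

theorem tendsto_G (k : ℕ) : Tendsto (fun i => v (G (e i) k)) l atTop := by
  have h2' : 0 < v 2 := v.pos h2
  have h1 := (tendsto_e hv h2 hn he hee).atTop_div_const h2'
  have h3 : Tendsto (fun i => v 2 * (v (e i) / v 2) ^ (2 ^ k)) l atTop :=
    Tendsto.const_mul_atTop h2' ((tendsto_pow_atTop (pow_pos (by norm_num) k).ne').comp h1)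
  refine h3.congr fun i => ?_
  rw [G, map_mul, map_pow, map_div₀]

theorem tendsto_Df (k : ℕ) : Tendsto (fun i => v (Df c (n i) (e i) k) / v (G (e i) k)) l (𝓝 0) := by
  have h2' : 0 < v 2 := v.pos h2
  induction k with
  | zero =>
    have h1 := tendsto_e hv h2 hn he hee
    have h3 := (tendsto_e' hv h2 hn he hee).div_atTop h1
    refine h3.congr' ?_
    filter_upwards [he] with i h4
    unfold Df
    rw [G_zero h2, add_zero, ← h4.add, add_sub_cancel_left]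
  | succ k ih =>
    have hG := tendsto_G hv h2 hn he hee k
    have h1 : Tendsto (fun i => v 2 * (v (Df c (n i) (e i) k) / v (G (e i) k)) +
        (v (Df c (n i) (e i) k) / v (G (e i) k)) ^ 2 +
        v 2 * v (2 * c) / v (G (e i) k) ^ 2) l (𝓝 (v 2 * 0 + 0 ^ 2 + 0)) := by
      refine ((ih.const_mul _).add (ih.pow 2)).add ?_
      exact Tendsto.const_div_atTop ((tendsto_pow_atTop (by norm_num)).comp hG) _
    rw [mul_zero, zero_pow (by norm_num), add_zero, add_zero] at h1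
    refine squeeze_zero' (Eventually.of_forall fun i => by positivity) ?_ h1
    filter_upwards [hG.eventually_gt_atTop 0] with i hi
    rw [Df_succ h2, G_succ h2, map_div₀, map_pow]
    set D := Df c (n i) (e i) k
    set g := G (e i) k
    have h3 : v (D * g + D ^ 2 / 2 + 2 * c) ≤ v D * v g + v D ^ 2 / v 2 + v (2 * c) := by
      refine (v.add_le _ _).trans (add_le_add ((v.add_le _ _).trans ?_) le_rfl)
      rw [map_mul, map_div₀, map_pow]
    rw [div_le_iff₀ (by positivity)]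
    refine h3.trans (le_of_eq ?_)
    field_simp

theorem Df_ge (hk : x + c ≠ 0) (k : ℕ) :
    ∀ᶠ i in l, v (x + c) / 2 ≤ v (Df c (n i) (e i) (k + 1)) := by
  have h2' : 0 < v 2 := v.pos h2
  have hk' : 0 < v (x + c) := v.pos hk
  induction k with
  | zero =>
    have h1 : Tendsto (fun i => v (e' i) ^ 2 / v 2) l (𝓝 (0 ^ 2 / v 2)) :=
      ((tendsto_e' hv h2 hn he hee).pow 2).div_const _
    rw [zero_pow (by norm_num), zero_div] at h1
    filter_upwards [he, h1.eventually_lt_const (by positivity : 0 < v (x + c) / 2)] with i h3 h4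
    rw [Df_one h2 h3]
    have h5 := v.add_le (x + c + e' i ^ 2 / 2) (-(e' i ^ 2 / 2))
    rw [add_neg_cancel_right, v.map_neg, map_div₀, map_pow] at h5
    linarith
  | succ k ih =>
    have hG := tendsto_G hv h2 hn he hee (k + 1)
    have hD := tendsto_Df hv h2 hn he hee (k + 1)
    have h1 : Tendsto (fun i => v (x + c) / 4 * v (G (e i) (k + 1))) l atTop :=
      Tendsto.const_mul_atTop (by positivity) hG
    filter_upwards [ih, hG.eventually_gt_atTop 0,
      hD.eventually_lt_const (by positivity : 0 < v 2 / 2),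
      h1.eventually_ge_atTop (v (x + c) / 2 + v (2 * c))] with i h3 h4 h5 h6
    rw [Df_succ h2]
    set D := Df c (n i) (e i) (k + 1)
    set g := G (e i) (k + 1)
    have h7 : v D * v g ≤ v (D * g + D ^ 2 / 2 + 2 * c) + v D ^ 2 / v 2 + v (2 * c) := by
      have h8 : D * g = (D * g + D ^ 2 / 2 + 2 * c) + (-(D ^ 2 / 2)) + (-(2 * c)) := by ring
      calc v D * v g = v (D * g) := (map_mul _ _ _).symm
        _ ≤ v ((D * g + D ^ 2 / 2 + 2 * c) + (-(D ^ 2 / 2))) + v (-(2 * c)) := by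
            conv_lhs => rw [h8]
            exact v.add_le _ _
        _ ≤ _ := by
            refine add_le_add ((v.add_le _ _).trans (le_of_eq ?_)) (le_of_eq (v.map_neg _))
            rw [v.map_neg, map_div₀, map_pow]
    rw [div_lt_iff₀ h4] at h5
    have h8 : v D ^ 2 / v 2 ≤ v D * v g / 2 := by
      rw [div_le_iff₀ h2']
      nlinarith [v.nonneg D]
    have h9 : v (x + c) / 2 * v g ≤ v D * v g := by nlinarith
    linarith

variable (hf : ∀ᶠ i in l, Pr c x (n i + j) (f i) (f' i)) (hff : ∀ᶠ i in l, v (f' i) ≤ v (f i))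

include hf hff

omit he hee in
theorem tendsto_f' : Tendsto (fun i => v (f' i)) l (𝓝 0) :=
  tendsto_e' hv h2 (tendsto_atTop_mono (fun i => Nat.le_add_right (n i) j) hn) hf hff

/-- the quotient is close to `2 / 2 ^ (2 ^ j)` -/
theorem tendsto_theta : Tendsto (fun i => v (f i / e i ^ (2 ^ j) - 2 / 2 ^ (2 ^ j))) l (𝓝 0) := by
  have h2' : 0 < v 2 := v.pos h2
  have hG := tendsto_G hv h2 hn he hee j
  have h1 : Tendsto (fun i => (v (Df c (n i) (e i) j) / v (G (e i) j) +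
      v (f' i) / v (G (e i) j)) * (v 2 / v 2 ^ (2 ^ j))) l (𝓝 ((0 + 0) * (v 2 / v 2 ^ (2 ^ j)))) :=
    ((tendsto_Df hv h2 hn he hee j).add
      ((tendsto_f' hv h2 hn hf hff).div_atTop hG)).mul_const _
  rw [add_zero, zero_mul] at h1
  refine squeeze_zero' (Eventually.of_forall fun i => v.nonneg _) ?_ h1
  filter_upwards [hf, hG.eventually_gt_atTop 0,
    (tendsto_e hv h2 hn he hee).eventually_gt_atTop 0] with i h3 h4 h5
  have he0 : e i ≠ 0 := v.pos_iff.1 h5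
  have h6 : f i / e i ^ (2 ^ j) - 2 / 2 ^ (2 ^ j) = (Df c (n i) (e i) j - f' i) / G (e i) j *
      (2 / 2 ^ (2 ^ j)) := by
    have h7 : f i = Df c (n i) (e i) j + G (e i) j - f' i := by
      unfold Df
      rw [sub_add_cancel, ← h3.add, add_sub_cancel_right]
    rw [h7]
    unfold G
    have h8 : e i ^ (2 ^ j) ≠ 0 := pow_ne_zero _ he0
    rw [div_pow]
    field_simp
    ring
  rw [h6, map_mul, map_div₀, map_div₀, map_pow]
  refine mul_le_mul_of_nonneg_right ?_ (by positivity)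
  rw [← add_div]
  refine div_le_div_of_nonneg_right ?_ h4.le
  rw [sub_eq_add_neg]
  exact (v.add_le _ _).trans (by rw [v.map_neg])

/-- the quotient is not equal to `2 / 2 ^ (2 ^ j)` -/
theorem theta_ne (hj : 0 < j) (hk : x + c ≠ 0) :
    ∀ᶠ i in l, f i / e i ^ (2 ^ j) - 2 / 2 ^ (2 ^ j) ≠ 0 := by
  have hk' : 0 < v (x + c) := v.pos hk
  obtain ⟨k, rfl⟩ : ∃ k, j = k + 1 := ⟨j - 1, by omega⟩
  filter_upwards [hf, Df_ge hv h2 hn he hee hk k,
    (tendsto_f' hv h2 hn hf hff).eventually_lt_const (by positivity : 0 < v (x + c) / 2),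
    (tendsto_e hv h2 hn he hee).eventually_gt_atTop 0] with i h3 h4 h5 h6 h7
  have he0 : e i ≠ 0 := v.pos_iff.1 h6
  have h8 : f i = G (e i) (k + 1) := by
    unfold G
    rw [sub_eq_zero, div_eq_iff (pow_ne_zero _ he0)] at h7
    rw [h7, div_pow]
    ring
  have h9 : Df c (n i) (e i) (k + 1) = f' i := by
    unfold Df
    rw [← h3.add, h8, add_sub_cancel_left]
  rw [h9] at h4
  linarith

end esc

/-- The estimate on the other side. -/
theorem theta_bdd_swap (hv : Esc v c) (h2 : (2 : F) ≠ 0) (hd : x - c ≠ 0)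
    (hn : Tendsto n l atTop) (he : ∀ᶠ i in l, Pr c x (n i) (e i) (e' i))
    (hee : ∀ᶠ i in l, v (e i) ≤ v (e' i)) (hf : ∀ᶠ i in l, Pr c x (n i + j) (f i) (f' i))
    (hff : ∀ᶠ i in l, v (f i) ≤ v (f' i)) :
    ∃ B, ∀ᶠ i in l, v (f i / e i ^ (2 ^ j) - 2 / 2 ^ (2 ^ j)) ≤ B := by
  have h2' : 0 < v 2 := v.pos h2
  have hd' : 0 < v (x - c) := v.pos hd
  set a := v (2 / 2 ^ (2 ^ j)) with ha
  have ha0 : 0 < a := v.pos (div_ne_zero h2 (pow_ne_zero _ h2))
  have h1 := tendsto_theta hv h2 hn (he.mono fun _ h => h.symm) hee (hf.mono fun _ h => h.symm) hff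
  refine ⟨v (x - c) / v (x - c) ^ (2 ^ j) / (a / 2) + a, ?_⟩
  filter_upwards [he, hf, h1.eventually_lt_const (by positivity : 0 < a / 2)] with i h3 h4 h5
  have e0 : e i ≠ 0 := left_ne_zero_of_mul (h3.mul ▸ hd)
  have e0' : e' i ≠ 0 := right_ne_zero_of_mul (h3.mul ▸ hd)
  have f0 : f i ≠ 0 := left_ne_zero_of_mul (h4.mul ▸ hd)
  have f0' : f' i ≠ 0 := right_ne_zero_of_mul (h4.mul ▸ hd)
  have h6 : a / 2 ≤ v (f' i / e' i ^ (2 ^ j)) := by
    have h7 := v.add_le (f' i / e' i ^ (2 ^ j)) (-(f' i / e' i ^ (2 ^ j) - 2 / 2 ^ (2 ^ j)))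
    rw [v.map_neg, ← sub_eq_add_neg, sub_sub_cancel] at h7
    rw [← ha] at h7
    linarith
  have h8 : f i / e i ^ (2 ^ j) = (x - c) / (x - c) ^ (2 ^ j) / (f' i / e' i ^ (2 ^ j)) := by
    have h9 : f i = (x - c) / f' i := by rw [← h4.mul, mul_div_cancel_right₀ _ f0']
    have h10 : (x - c) ^ (2 ^ j) = e i ^ (2 ^ j) * e' i ^ (2 ^ j) := by rw [← h3.mul, mul_pow]
    rw [h9, h10]
    have := pow_ne_zero (2 ^ j) e0
    have := pow_ne_zero (2 ^ j) e0'
    field_simp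
  rw [sub_eq_add_neg]
  refine (v.add_le _ _).trans ?_
  rw [v.map_neg, ← ha]
  refine add_le_add ?_ le_rfl
  rw [h8, map_div₀, map_div₀, map_pow]
  exact div_le_div_of_nonneg_left (by positivity) (by positivity) h6

theorem Pr.le {m : ℕ} {a b : F} (h : Pr c x m a b) {R : ℝ} (hR : v ((qm c)^[m] 0) ≤ R) :
    v a ≤ v 2 * R + v (x - c) + 1 := by
  have h0 : 0 ≤ R := (v.nonneg _).trans hR
  by_contra hcon
  push Not at hcon
  have h1 : a ^ 2 = (2 * (qm c)^[m] 0) * a + -(x - c) := by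
    rw [← h.add, ← h.mul]; ring
  have h2 : v a ^ 2 ≤ v 2 * R * v a + v (x - c) := by
    rw [← map_pow, h1]
    refine (v.add_le _ _).trans ?_
    rw [v.map_neg, map_mul, map_mul]
    refine add_le_add (mul_le_mul_of_nonneg_right ?_ (v.nonneg _)) le_rfl
    exact mul_le_mul_of_nonneg_left hR (v.nonneg _)
  have h3 : 0 ≤ v 2 * R := mul_nonneg (v.nonneg _) h0
  have h4 : 0 ≤ v (x - c) := v.nonneg _
  nlinarith

/-- The estimate where the orbit is bounded. -/
theorem theta_bdd_non (h2 : (2 : F) ≠ 0) (hd : x - c ≠ 0) {R : ℝ}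
    (hR : ∀ n, v ((qm c)^[n] 0) ≤ R) (j : ℕ) :
    ∃ B, ∀ (n : ℕ) (e e' f f' : F), Pr c x n e e' → Pr c x (n + j) f f' →
      v (f / e ^ (2 ^ j) - 2 / 2 ^ (2 ^ j)) ≤ B := by
  have h2' : 0 < v 2 := v.pos h2
  have hd' : 0 < v (x - c) := v.pos hd
  have h0 : 0 ≤ R := (v.nonneg _).trans (hR 0)
  set C := v 2 * R + v (x - c) + 1 with hC
  have hC0 : 0 < C := by positivity
  refine ⟨C / (v (x - c) / C) ^ (2 ^ j) + v (2 / 2 ^ (2 ^ j)), fun n e e' f f' h3 h4 => ?_⟩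
  have e0' : e' ≠ 0 := right_ne_zero_of_mul (h3.mul ▸ hd)
  have h5 : v (x - c) / C ≤ v e := by
    have h6 : v e' ≤ C := h3.symm.le (hR n)
    rw [← h3.mul, map_mul]
    rw [div_le_iff₀ hC0]
    exact mul_le_mul_of_nonneg_left h6 (v.nonneg _)
  rw [sub_eq_add_neg]
  refine (v.add_le _ _).trans ?_
  rw [v.map_neg]
  refine add_le_add ?_ le_rfl
  rw [map_div₀, map_pow]
  exact div_le_div₀ hC0.le (h4.le (hR _)) (by positivity) (pow_le_pow_left₀ (by positivity) h5 _)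

/-! ### Statements with explicit bounds -/

theorem of_eventually {P Q : ℕ × F × F × F × F → Prop}
    (h : ∀ᶠ p in (atTop.comap fun p : ℕ × F × F × F × F => p.1) ⊓ 𝓟 {p | P p}, Q p) :
    ∃ N, ∀ n ≥ N, ∀ e e' f f', P (n, e, e', f, f') → Q (n, e, e', f, f') := by
  rw [eventually_inf_principal, eventually_comap, eventually_atTop] at h
  obtain ⟨N, hN⟩ := h
  exact ⟨N, fun n hn e e' f f' => hN n hn (n, e, e', f, f') rfl⟩

theorem tendsto_fst (P : ℕ × F × F × F × F → Prop) : Tendsto (fun p : ℕ × F × F × F × F => p.1)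
    ((atTop.comap fun p : ℕ × F × F × F × F => p.1) ⊓ 𝓟 {p | P p}) atTop :=
  tendsto_comap.mono_left inf_le_left

theorem ev_mem (P : ℕ × F × F × F × F → Prop) :
    ∀ᶠ p in (atTop.comap fun p : ℕ × F × F × F × F => p.1) ⊓ 𝓟 {p | P p}, P p :=
  eventually_inf_principal.2 (Eventually.of_forall fun _ h => h)

/-- Esc, both on the large side -/
theorem loc_small (hv : Esc v c) (h2 : (2 : F) ≠ 0) (hk : x + c ≠ 0) {j : ℕ} (hj : 0 < j) {ε : ℝ}
    (hε : 0 < ε) : ∃ N, ∀ n ≥ N, ∀ e e' f f', (Pr c x n e e' ∧ Pr c x (n + j) f f' ∧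
      v e' ≤ v e ∧ v f' ≤ v f) → v (f / e ^ (2 ^ j) - 2 / 2 ^ (2 ^ j)) ≤ ε ∧
        f / e ^ (2 ^ j) - 2 / 2 ^ (2 ^ j) ≠ 0 := by
  set P : ℕ × F × F × F × F → Prop := fun p => Pr c x p.1 p.2.1 p.2.2.1 ∧
    Pr c x (p.1 + j) p.2.2.2.1 p.2.2.2.2 ∧ v p.2.2.1 ≤ v p.2.1 ∧ v p.2.2.2.2 ≤ v p.2.2.2.1
  have h := ev_mem P
  have hn := tendsto_fst P
  have h3 := tendsto_theta hv h2 hn (h.mono fun _ h => h.1) (h.mono fun _ h => h.2.2.1)
    (h.mono fun _ h => h.2.1) (h.mono fun _ h => h.2.2.2)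
  have h4 := theta_ne hv h2 hn (h.mono fun _ h => h.1) (h.mono fun _ h => h.2.2.1)
    (h.mono fun _ h => h.2.1) (h.mono fun _ h => h.2.2.2) hj hk
  exact of_eventually (P := P)
    (Q := fun p => v (p.2.2.2.1 / p.2.1 ^ (2 ^ j) - 2 / 2 ^ (2 ^ j)) ≤ ε ∧
      p.2.2.2.1 / p.2.1 ^ (2 ^ j) - 2 / 2 ^ (2 ^ j) ≠ 0) ((h3.eventually_le_const hε).and h4)

theorem loc_bdd (v : AbsoluteValue F ℝ) (h2 : (2 : F) ≠ 0) (hd : x - c ≠ 0) (j : ℕ) :
    ∃ (B : ℝ) (N : ℕ), ∀ n ≥ N, ∀ e e' f f', Pr c x n e e' → Pr c x (n + j) f f' →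
      (Esc v c → (v e' ≤ v e ↔ v f' ≤ v f)) → v (f / e ^ (2 ^ j) - 2 / 2 ^ (2 ^ j)) ≤ B := by
  rcases esc_or v c with hv | hR
  · set P : ℕ × F × F × F × F → Prop := fun p => Pr c x p.1 p.2.1 p.2.2.1 ∧
      Pr c x (p.1 + j) p.2.2.2.1 p.2.2.2.2 ∧ v p.2.2.1 ≤ v p.2.1 ∧ v p.2.2.2.2 ≤ v p.2.2.2.1
    have h := ev_mem P
    have h3 := tendsto_theta hv h2 (tendsto_fst P) (h.mono fun _ h => h.1)
      (h.mono fun _ h => h.2.2.1) (h.mono fun _ h => h.2.1) (h.mono fun _ h => h.2.2.2)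
    obtain ⟨N₁, hN₁⟩ := of_eventually (P := P)
      (Q := fun p => v (p.2.2.2.1 / p.2.1 ^ (2 ^ j) - 2 / 2 ^ (2 ^ j)) ≤ 1)
      (h3.eventually_le_const one_pos)
    set P' : ℕ × F × F × F × F → Prop := fun p => Pr c x p.1 p.2.1 p.2.2.1 ∧
      Pr c x (p.1 + j) p.2.2.2.1 p.2.2.2.2 ∧ v p.2.1 ≤ v p.2.2.1 ∧ v p.2.2.2.1 ≤ v p.2.2.2.2
    have h' := ev_mem P'
    obtain ⟨B, hB⟩ := theta_bdd_swap hv h2 hd (tendsto_fst P') (h'.mono fun _ h => h.1)
      (h'.mono fun _ h => h.2.2.1) (h'.mono fun _ h => h.2.1) (h'.mono fun _ h => h.2.2.2)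
    obtain ⟨N₂, hN₂⟩ := of_eventually (P := P')
      (Q := fun p => v (p.2.2.2.1 / p.2.1 ^ (2 ^ j) - 2 / 2 ^ (2 ^ j)) ≤ B) hB
    refine ⟨max 1 B, max N₁ N₂, fun n hn e e' f f' h4 h5 h6 => ?_⟩
    have h6 := h6 hv
    by_cases h7 : v e' ≤ v e
    · exact (hN₁ n ((le_max_left _ _).trans hn) e e' f f' ⟨h4, h5, h7, h6.1 h7⟩).trans
        (le_max_left _ _)
    · have h8 : ¬ v f' ≤ v f := fun h => h7 (h6.2 h)
      exact (hN₂ n ((le_max_right _ _).trans hn) e e' f f'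
        ⟨h4, h5, (not_le.1 h7).le, (not_le.1 h8).le⟩).trans (le_max_right _ _)
  · obtain ⟨B, hB⟩ := theta_bdd_non h2 hd hR j
    exact ⟨B, 0, fun n _ e e' f f' h3 h4 _ => hB n e e' f f' h3 h4⟩

theorem loc_e (hv : Esc v c) (h2 : (2 : F) ≠ 0) {ε : ℝ} (hε : 0 < ε) :
    ∃ N, ∀ n ≥ N, ∀ e e', Pr c x n e e' → v e ≤ v e' → v e ≤ ε := by
  set P : ℕ × F × F × F × F → Prop := fun p => Pr c x p.1 p.2.1 p.2.2.1 ∧ v p.2.1 ≤ v p.2.2.1
  have h := ev_mem P
  have h3 := tendsto_e' hv h2 (tendsto_fst P) (h.mono fun _ h => h.1.symm) (h.mono fun _ h => h.2)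
  obtain ⟨N, hN⟩ := of_eventually (P := P) (Q := fun p => v p.2.1 ≤ ε)
    (h3.eventually_le_const hε)
  exact ⟨N, fun n hn e e' h4 h5 => hN n hn e e' 0 0 ⟨h4, h5⟩⟩

end loc

end Pool.Agent.Arb
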