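import Mathlib

/-!
# Finiteness of the 2-Selmer group
-/

set_option autoImplicit false

open NumberField IsDedekindDomain UniqueFactorizationMonoid nonZeroDivisors

namespace Pool.Agent.Arb

/-- in a finitely generated commutative group the squares have finite index -/
lemma exists_reps_squares (G : Type*) [CommGroup G] [Group.FG G] :
    ∃ U : Finset G, ∀ u : G, ∃ r ∈ U, ∃ w, u = r * w ^ 2 := by
  classical
  let N : Subgroup G := (powMonoidHom 2 : G →* G).range
  have hfin : Finite (G ⧸ N) := by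
    apply CommGroup.finite_of_fg_isMulTorsion
    intro x
    obtain ⟨g, rfl⟩ := QuotientGroup.mk_surjective x
    rw [isOfFinOrder_iff_pow_eq_one]
    refine ⟨2, by norm_num, ?_⟩
    rw [← QuotientGroup.mk_pow, QuotientGroup.eq_one_iff]
    exact ⟨g, rfl⟩
  cases nonempty_fintype (G ⧸ N)
  refine ⟨Finset.univ.image (fun q : G ⧸ N => q.out), fun u => ?_⟩
  refine ⟨(QuotientGroup.mk u : G ⧸ N).out, Finset.mem_image_of_mem _ (Finset.mem_univ _), ?_⟩
  have h1 : (QuotientGroup.mk ((QuotientGroup.mk u : G ⧸ N).out) : G ⧸ N) =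
      QuotientGroup.mk u := QuotientGroup.out_eq' _
  rw [QuotientGroup.eq] at h1
  obtain ⟨w, hw⟩ := h1
  refine ⟨w, ?_⟩
  have hw' : w ^ 2 = ((QuotientGroup.mk u : G ⧸ N).out)⁻¹ * u := hw
  rw [hw', mul_inv_cancel_left]

/-- an ideal with even multiplicities outside `S` is a square times a product of different
elements of `S` -/
lemma ideal_decomp {A : Type*} [CommRing A] [IsDedekindDomain A] [DecidableEq (Ideal A)]
    (S : Finset (Ideal A)) (I : Ideal A) (hI : I ≠ ⊥)
    (h : ∀ P ∈ normalizedFactors I, P ∉ S → Even ((normalizedFactors I).count P)) :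
    ∃ b : Ideal A, b ≠ ⊥ ∧ ∃ T ⊆ S, I = b ^ 2 * ∏ P ∈ T, P := by
  classical
  set m := normalizedFactors I with hm
  have h1 : I = ∏ P ∈ m.toFinset, P ^ m.count P := by
    rw [← Finset.prod_multiset_count, hm, Ideal.prod_normalizedFactors_eq_self hI]
  have h2 : ∀ P ∈ m.toFinset, P ^ m.count P =
      (P ^ (m.count P / 2)) ^ 2 * (if Odd (m.count P) then P else 1) := by
    intro P _
    split_ifs with ho
    · obtain ⟨k, hk⟩ := ho
      have : m.count P / 2 = k := by omega
      rw [this, hk, ← pow_mul, pow_succ]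
      congr 2
      ring
    · rw [Nat.not_odd_iff_even] at ho
      obtain ⟨k, hk⟩ := ho
      have : m.count P / 2 = k := by omega
      rw [this, hk, ← pow_mul, mul_one]
      congr 1
      ring
  refine ⟨∏ P ∈ m.toFinset, P ^ (m.count P / 2), ?_, m.toFinset.filter (fun P => Odd (m.count P)),
    ?_, ?_⟩
  · rw [Ne, ← Ideal.zero_eq_bot, Finset.prod_eq_zero_iff]
    rintro ⟨P, hP, h0⟩
    have hP' : P ∈ normalizedFactors I := by rwa [Multiset.mem_toFinset] at hP
    exact (prime_of_normalized_factor P hP').ne_zero (eq_zero_of_pow_eq_zero h0)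
  · intro P hP
    rw [Finset.mem_filter, Multiset.mem_toFinset] at hP
    by_contra hS
    have := h P hP.1 hS
    rw [← Nat.not_odd_iff_even] at this
    exact this hP.2
  · conv_lhs => rw [h1]
    rw [Finset.prod_congr rfl h2, Finset.prod_mul_distrib, Finset.prod_pow, Finset.prod_filter]

/-- the valuation of an integral element through the factorization -/
lemma valuation_eq_count {M : Type*} [Field M] [NumberField M] (v : HeightOneSpectrum (𝓞 M))
    [inst : DecidableEq (Ideal (𝓞 M))] (x : 𝓞 M) (hx : x ≠ 0) :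
    v.valuation M (x : M) =
      WithZero.exp (-((normalizedFactors (Ideal.span {x})).count v.asIdeal : ℤ)) := by
  have h0 : Ideal.span {x} ≠ (0 : Ideal (𝓞 M)) := by
    rw [Ne, Ideal.zero_eq_bot, Ideal.span_singleton_eq_bot]; exact hx
  have h1 : v.valuation M (x : M) = v.intValuation x := v.valuation_of_algebraMap x
  rw [h1, v.intValuation_if_neg hx, Ideal.count_associates_factors_eq h0 v.isPrime v.ne_bot]
  have key : ∀ (i j : DecidableEq (Ideal (𝓞 M))) (s : Multiset (Ideal (𝓞 M))) (a : Ideal (𝓞 M)),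
      @Multiset.count _ i a s = @Multiset.count _ j a s := by
    intro i j s a
    obtain rfl : i = j := Subsingleton.elim _ _
    rfl
  rw [key _ inst]

/-- E2: finiteness of the 2-Selmer group. -/
theorem selmer_finite {M : Type*} [Field M] [NumberField M] (S : Set (HeightOneSpectrum (𝓞 M)))
    (hS : S.Finite) :
    ∃ R : Finset M, (∀ r ∈ R, r ≠ 0) ∧ ∀ a : M, a ≠ 0 →
      (∀ v : HeightOneSpectrum (𝓞 M), v ∉ S → ∃ m : ℤ, v.valuation M a = WithZero.exp (2 * m)) →
      ∃ r ∈ R, IsSquare (a * r) := by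
  classical
  have hFG : Group.FG (𝓞 M)ˣ := Group.fg_iff_monoid_fg.2 inferInstance
  obtain ⟨U, hU⟩ := exists_reps_squares (𝓞 M)ˣ
  set S' : Finset (Ideal (𝓞 M)) := hS.toFinset.image (fun v => v.asIdeal) with hS'
  -- the witnesses
  let Wit : Finset (Ideal (𝓞 M)) → ClassGroup (𝓞 M) → 𝓞 M → Prop := fun T κ x =>
    x ≠ 0 ∧ ∃ b : (Ideal (𝓞 M))⁰, ClassGroup.mk0 b = κ ∧
      Ideal.span {x} = (b : Ideal (𝓞 M)) ^ 2 * ∏ P ∈ T, P
  have hch : ∀ T κ, ∃ x : 𝓞 M, x ≠ 0 ∧ ((∃ y, Wit T κ y) → Wit T κ x) := by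
    intro T κ
    by_cases h : ∃ y, Wit T κ y
    · obtain ⟨y, hy⟩ := h
      exact ⟨y, hy.1, fun _ => hy⟩
    · exact ⟨1, one_ne_zero, fun h' => absurd h' h⟩
  choose x0 hx0 hx0' using hch
  let R : Finset M := ((S'.powerset ×ˢ (Finset.univ : Finset (ClassGroup (𝓞 M)))) ×ˢ U).image
    (fun p => (x0 p.1.1 p.1.2 : M) * ((p.2 : 𝓞 M) : M))
  refine ⟨R, ?_, ?_⟩
  · intro r hr
    obtain ⟨p, -, rfl⟩ := Finset.mem_image.1 hr
    apply mul_ne_zero
    · exact RingOfIntegers.coe_ne_zero_iff.2 (hx0 _ _)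
    · exact RingOfIntegers.coe_ne_zero_iff.2 p.2.ne_zero
  · intro a ha hev
    obtain ⟨x, y, hy, hxy⟩ := IsFractionRing.div_surjective (A := 𝓞 M) a
    have hy0 : y ≠ 0 := nonZeroDivisors.ne_zero hy
    have hyM : (y : M) ≠ 0 := RingOfIntegers.coe_ne_zero_iff.2 hy0
    have hxy' : a * (y : M) = (x : M) := by
      rw [← hxy]
      exact div_mul_cancel₀ _ hyM
    have hx0M : (x : M) ≠ 0 := by
      rw [← hxy']; exact mul_ne_zero ha hyM
    have hxne : x ≠ 0 := RingOfIntegers.coe_ne_zero_iff.1 hx0M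
    obtain ⟨a', ha'⟩ : ∃ a' : 𝓞 M, a' = x * y := ⟨_, rfl⟩
    have ha'0 : a' ≠ 0 := by rw [ha']; exact mul_ne_zero hxne hy0
    have ha'M : (a' : M) = a * (y : M) ^ 2 := by
      have h1 : ((x * y : 𝓞 M) : M) = (x : M) * (y : M) := map_mul _ _ _
      rw [ha', h1, ← hxy']; ring
    have hspan0 : Ideal.span {a'} ≠ (⊥ : Ideal (𝓞 M)) := by
      rw [Ne, Ideal.span_singleton_eq_bot]; exact ha'0
    -- even multiplicities
    have hcount : ∀ P ∈ normalizedFactors (Ideal.span {a'}), P ∉ S' →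
        Even ((normalizedFactors (Ideal.span {a'})).count P) := by
      intro P hP hPS
      have hpr := prime_of_normalized_factor P hP
      set v : HeightOneSpectrum (𝓞 M) := ⟨P, Ideal.isPrime_of_prime hpr, hpr.ne_zero⟩ with hv
      have hvS : v ∉ S := by
        intro h
        apply hPS
        rw [hS', Finset.mem_image]
        exact ⟨v, by simpa using h, rfl⟩
      obtain ⟨k, hk⟩ := hev v hvS
      have h1 := valuation_eq_count v a' ha'0
      have h2 := valuation_eq_count v y hy0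
      rw [ha'M, map_mul, map_pow, hk, h2, ← WithZero.exp_nsmul, ← WithZero.exp_add,
        WithZero.exp_inj] at h1
      have h3 : ((normalizedFactors (Ideal.span {a'})).count v.asIdeal : ℤ) =
          2 * ((normalizedFactors (Ideal.span {y})).count v.asIdeal - k) := by
        simp only [nsmul_eq_mul] at h1
        push_cast at h1
        linarith
      have h4 : Even ((normalizedFactors (Ideal.span {a'})).count v.asIdeal : ℤ) := by
        rw [h3]; exact even_two_mul _
      exact (Int.even_coe_nat _).1 h4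
    obtain ⟨b, hb0, T, hTS, hdec⟩ := ideal_decomp S' (Ideal.span {a'}) hspan0 hcount
    have hTprod : ∏ P ∈ T, P ≠ (0 : Ideal (𝓞 M)) := by
      intro h
      rw [h, mul_zero] at hdec
      exact hspan0 hdec
    set b' : (Ideal (𝓞 M))⁰ := ⟨b, mem_nonZeroDivisors_of_ne_zero hb0⟩ with hb'
    have hwit : Wit T (ClassGroup.mk0 b') a' := ⟨ha'0, b', rfl, hdec⟩
    obtain ⟨hz0, c, hc1, hc2⟩ := hx0' T (ClassGroup.mk0 b') ⟨a', hwit⟩
    obtain ⟨z, hz⟩ : ∃ z, z = x0 T (ClassGroup.mk0 b') := ⟨_, rfl⟩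
    rw [← hz] at hz0 hc2
    obtain ⟨X, Y, hX, hY, hXY⟩ := ClassGroup.mk0_eq_mk0_iff.1 hc1
    -- `X c = Y b`, `z = c ^ 2 t`, `a' = b ^ 2 t`: `X ^ 2 z = unit * Y ^ 2 a'`
    have hass : Associated (Y ^ 2 * a') (X ^ 2 * z) := by
      rw [← Ideal.span_singleton_eq_span_singleton, ← Ideal.span_singleton_mul_span_singleton,
        ← Ideal.span_singleton_mul_span_singleton, ← Ideal.span_singleton_pow,
        ← Ideal.span_singleton_pow, hdec, hc2, ← mul_assoc, ← mul_assoc, ← mul_pow, ← mul_pow,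
        hXY]
    obtain ⟨u, hu⟩ := hass
    obtain ⟨r, hr, w, hw⟩ := hU u
    refine ⟨(z : M) * ((r : 𝓞 M) : M), ?_, ?_⟩
    · rw [Finset.mem_image]
      exact ⟨((T, ClassGroup.mk0 b'), r), by simp [hTS, hr], by rw [hz]⟩
    · -- `X ^ 2 z = Y ^ 2 a' r w ^ 2`
      have hu' : (Y : M) ^ 2 * (a' : M) * (((r : 𝓞 M) : M) * ((w : 𝓞 M) : M) ^ 2) =
          (X : M) ^ 2 * (z : M) := by
        have h1 := congrArg (fun t : 𝓞 M => (t : M)) hu
        rw [hw] at h1
        push_cast at h1
        exact h1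
      have hYM : (Y : M) ≠ 0 := RingOfIntegers.coe_ne_zero_iff.2 hY
      have hwM : ((w : 𝓞 M) : M) ≠ 0 := RingOfIntegers.coe_ne_zero_iff.2 w.ne_zero
      -- a z r = a' z r / y ^ 2 = (X z) ^ 2 / (Y y w) ^ 2
      refine ⟨(X : M) * (z : M) / ((Y : M) * (y : M) * ((w : 𝓞 M) : M)), ?_⟩
      rw [ha'M] at hu'
      rw [div_mul_div_comm, eq_div_iff (by positivity)]
      linear_combination (z : M) * hu'

end Pool.Agent.Arb
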