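import Pool.Agent.Arb.Few
import Pool.Agent.Arb.Selmer
import Pool.Agent.Arb.Conj

/-!
# Windows of multiplicatively independent critical values
-/

set_option autoImplicit false

open IsDedekindDomain NumberField
open scoped WithZero

namespace Pool.Agent.Arb

section
variable {M : Type*} [Field M] [NumberField M]

theorem u_ne {F : Type*} [Field F] (u : Valuation F ℤᵐ⁰) {x : F} (hx : x ≠ 0) : u x ≠ 0 :=
  (Valuation.ne_zero_iff u).mpr hx

theorem finite_lt (z : M) (hz : z ≠ 0) :
    {v : HeightOneSpectrum (𝓞 M) | v.valuation M z < 1}.Finite := by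
  refine (HeightOneSpectrum.Support.finite (𝓞 M) (z⁻¹)).subset ?_
  intro v hv
  have hv' : v.valuation M z < 1 := hv
  change 1 < v.valuation M z⁻¹
  rw [map_inv₀]
  exact (one_lt_inv₀ (zero_lt_iff.mpr (u_ne _ hz))).mpr hv'

theorem finite_gt (z : M) :
    {v : HeightOneSpectrum (𝓞 M) | ¬ v.valuation M z ≤ 1}.Finite := by
  refine (HeightOneSpectrum.Support.finite (𝓞 M) z).subset ?_
  intro v hv
  exact lt_of_not_ge hv

/-- The bad primes. -/
def bad (c : M) (X : Finset M) (B : ℕ) : Set (HeightOneSpectrum (𝓞 M)) :=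
  {v | ¬ v.valuation M c ≤ 1} ∪ ⋃ x ∈ X, ({v | ¬ v.valuation M x ≤ 1} ∪
    ⋃ j ∈ Finset.Icc 1 B, {v | v.valuation M ((qm c)^[j] x - x) < 1})

theorem bad_finite (c : M) (X : Finset M) (h0 : ∀ x ∈ X, ∀ n, 0 < n → (qm c)^[n] x ≠ x) (B : ℕ) :
    (bad c X B).Finite := by
  unfold bad
  refine (finite_gt c).union (Set.Finite.biUnion (Finset.finite_toSet X) fun x hx => ?_)
  refine (finite_gt x).union (Set.Finite.biUnion (Finset.finite_toSet _) fun j hj => ?_)
  exact finite_lt _ (sub_ne_zero.mpr (h0 x (Finset.mem_coe.mp hx) j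
    (Finset.mem_Icc.mp (Finset.mem_coe.mp hj)).1))

theorem even_of_square (c : M) (X : Finset M)
    (h1 : ∀ x ∈ X, ∀ n : ℕ, (qm c)^[n] 0 ≠ x) (B N : ℕ) (x : M) (hx : x ∈ X) (A : Finset ℕ)
    (hA : A ⊆ Finset.Icc 1 B) (hsq : IsSquare (∏ h ∈ A, ((qm c)^[N + h] 0 - x)))
    (h : ℕ) (hh : h ∈ A) (v : HeightOneSpectrum (𝓞 M)) (hv : v ∉ bad c X B) :
    ∃ m : ℤ, v.valuation M ((qm c)^[N + h] 0 - x) = WithZero.exp (2 * m) := by
  classical
  simp only [bad, Set.mem_union, Set.mem_iUnion, not_or, not_exists] at hv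
  obtain ⟨hc, hX⟩ := hv
  have hc' : v.valuation M c ≤ 1 := by
    by_contra hcon; exact hc hcon
  have hxv : v.valuation M x ≤ 1 := by
    by_contra hcon; exact (hX x hx).1 hcon
  have hj : ∀ j ∈ Finset.Icc 1 B, ¬ v.valuation M ((qm c)^[j] x - x) < 1 := by
    intro j hj hcon
    exact (hX x hx).2 j hj hcon
  have h00 : v.valuation M (0 : M) ≤ 1 := by rw [map_zero]; exact zero_le
  have hint : ∀ n, v.valuation M ((qm c)^[n] 0 - x) ≤ 1 := fun n =>
    Valuation.map_sub_le _ (iter_le_one _ _ hc' h00 n) hxv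
  -- reduction of one difference to another
  have hred : ∀ (n d : ℕ), v.valuation M ((qm c)^[n] 0 - x) < 1 →
      v.valuation M ((qm c)^[d + n] 0 - (qm c)^[d] x) < 1 := by
    intro n d hlt
    rw [Function.iterate_add_apply]
    generalize (qm c)^[n] 0 = a at hlt
    have gen : ∀ d, ∀ a b : M, v.valuation M b ≤ 1 → v.valuation M (a - b) < 1 →
        v.valuation M ((qm c)^[d] a - (qm c)^[d] b) < 1 := by
      intro d
      induction d with
      | zero => intro a b _ h; exact h
      | succ d ih =>
        intro a b hb hab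
        rw [Function.iterate_succ_apply, Function.iterate_succ_apply]
        apply ih _ _ (qm_le_one _ _ hc' hb)
        have e : qm c a - qm c b = (a - b) * (a + b) := by simp only [qm]; ring
        rw [e, map_mul]
        have ha : v.valuation M a ≤ 1 := by
          have : a = (a - b) + b := by ring
          rw [this]; exact Valuation.map_add_le _ hab.le hb
        calc v.valuation M (a - b) * v.valuation M (a + b) ≤ v.valuation M (a - b) * 1 := by
              gcongr
              exact Valuation.map_add_le _ ha hb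
          _ < 1 := by rw [mul_one]; exact hab
    exact gen d a x hxv hlt
  -- at most one factor is small
  have honly : ∀ h ∈ A, ∀ h' ∈ A, h < h' → v.valuation M ((qm c)^[N + h] 0 - x) < 1 →
      v.valuation M ((qm c)^[N + h'] 0 - x) < 1 → False := by
    intro h hh h' hh' hlt e1 e2
    have h3 := hred (N + h) (h' - h) e1
    rw [show h' - h + (N + h) = N + h' by omega] at h3
    have hB := Finset.mem_Icc.mp (hA hh')
    have hB' := Finset.mem_Icc.mp (hA hh)
    apply hj (h' - h) (Finset.mem_Icc.mpr ⟨by omega, by omega⟩)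
    have e : (qm c)^[h' - h] x - x = ((qm c)^[N + h'] 0 - x) -
        ((qm c)^[N + h'] 0 - (qm c)^[h' - h] x) := by ring
    rw [e]
    exact Valuation.map_sub_lt _ e2 h3
  rcases lt_or_eq_of_le (hint (N + h)) with hlt | heq
  · -- the other factors are units
    obtain ⟨s, hs⟩ := hsq
    have h4 : v.valuation M (∏ h ∈ A, ((qm c)^[N + h] 0 - x)) =
        v.valuation M ((qm c)^[N + h] 0 - x) := by
      rw [map_prod]
      refine Finset.prod_eq_single h ?_ (fun h => absurd hh h)
      intro k hk hkh
      rcases lt_or_eq_of_le (hint (N + k)) with hk1 | hk1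
      · exfalso
        rcases lt_or_gt_of_ne hkh with hh1 | hh1
        · exact honly k hk h hh hh1 hk1 hlt
        · exact honly h hh k hk hh1 hlt hk1
      · exact hk1
    rw [hs, map_mul] at h4
    have hs0 : s ≠ 0 := by
      rintro rfl
      have : ∏ h ∈ A, ((qm c)^[N + h] 0 - x) ≠ 0 :=
        Finset.prod_ne_zero_iff.mpr fun k _ => sub_ne_zero.mpr (h1 x hx _)
      exact this (by rw [hs]; simp)
    refine ⟨WithZero.log (v.valuation M s), ?_⟩
    rw [← h4, two_mul, WithZero.exp_add, WithZero.exp_log (u_ne _ hs0)]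
  · exact ⟨0, by rw [heq]; simp⟩

theorem window (c : M)
    (hc : Function.Injective fun n : ℕ => (qm c)^[n] 0) (X : Finset M)
    (h0 : ∀ x ∈ X, ∀ n, 0 < n → (qm c)^[n] x ≠ x)
    (h1 : ∀ x ∈ X, ∀ n : ℕ, (qm c)^[n] 0 ≠ x) (h2 : ∀ x ∈ X, x ≠ -c) (B N0 : ℕ) :
    ∃ N ≥ N0, ∀ x ∈ X, ∀ A ⊆ Finset.Icc 1 B, A.Nonempty →
      ¬ IsSquare (∏ h ∈ A, ((qm c)^[N + h] 0 - x)) := by
  classical
  obtain ⟨R, hR0, hR⟩ := selmer_finite (bad c X B) (bad_finite c X h0 B)
  -- the field containing all square roots
  let Ω := AlgebraicClosure M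
  choose s hs using fun y : Ω => IsAlgClosed.exists_pow_nat_eq y (n := 2) (by norm_num)
  let M' : IntermediateField M Ω :=
    IntermediateField.adjoin M ((R.image fun a => s (algebraMap M Ω a) : Finset Ω) : Set Ω)
  have hfd : FiniteDimensional M M' :=
    IntermediateField.finiteDimensional_adjoin fun x _ => Algebra.IsIntegral.isIntegral x
  have hnf : NumberField M' := NumberField.of_module_finite M _
  have hinjM : Function.Injective (algebraMap M M') := (algebraMap M M').injective
  have hsqR : ∀ a ∈ R, IsSquare (algebraMap M M' a) := by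
    intro a ha
    have hmem : s (algebraMap M Ω a) ∈ M' :=
      IntermediateField.subset_adjoin M _ (Finset.mem_coe.mpr (Finset.mem_image_of_mem _ ha))
    refine ⟨⟨_, hmem⟩, ?_⟩
    apply (algebraMap M' Ω).injective
    rw [← IsScalarTower.algebraMap_apply, map_mul]
    change algebraMap M Ω a = s (algebraMap M Ω a) * s (algebraMap M Ω a)
    rw [← sq, hs]
  have hsq : ∀ a : M, a ≠ 0 →
      (∀ v : HeightOneSpectrum (𝓞 M), v ∉ bad c X B →
        ∃ m : ℤ, v.valuation M a = WithZero.exp (2 * m)) → IsSquare (algebraMap M M' a) := by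
    intro a ha h
    obtain ⟨b, hb, hab⟩ := hR a ha h
    have h3 : IsSquare (algebraMap M M' (a * b)) := hab.map _
    have h4 := hsqR b hb
    have h5 : algebraMap M M' b ≠ 0 := by
      simpa using hR0 b hb
    rw [map_mul] at h3
    have h6 : algebraMap M M' a = (algebraMap M M' a * algebraMap M M' b) *
        algebraMap M M' b / (algebraMap M M' b) ^ 2 := by
      field_simp
    rw [h6]
    exact (h3.mul h4).div (IsSquare.sq _)
  -- few squares for each point
  have hcM : Function.Injective fun n : ℕ => (qm (algebraMap M M' c))^[n] 0 := by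
    intro a b hab
    apply hc
    apply hinjM
    simp only at hab ⊢
    rw [map_iterR, map_iterR, map_zero]; exact hab
  have hfew : ∀ x ∈ X, ∃ C : ℕ, ∀ W : ℕ, ∃ n0 : ℕ, ∀ n ≥ n0, ∀ I ⊆ Finset.Icc n (n + W),
      (∀ i ∈ I, IsSquare ((qm (algebraMap M M' c))^[i] 0 - algebraMap M M' x)) → I.card ≤ C := by
    intro x hx
    apply few_squares (algebraMap M M' c) (algebraMap M M' x) hcM
    · intro n h
      apply h1 x hx n
      apply hinjM
      rw [map_iterR, map_zero]; exact h
    · intro h
      apply h2 x hx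
      apply hinjM
      rw [map_neg]; exact h
  choose! C hC using hfew
  let D := ∑ x ∈ X, C x
  let W := (D + 1) * (B + 1)
  choose! n0 hn0 using fun x (hx : x ∈ X) => hC x hx W
  let n := N0 + ∑ x ∈ X, n0 x
  have hn : ∀ x ∈ X, n0 x ≤ n := fun x hx =>
    (Finset.single_le_sum (f := n0) (fun _ _ => Nat.zero_le _) hx).trans (Nat.le_add_left _ _)
  by_contra hcon
  push Not at hcon
  -- every block contains a square
  have hblock : ∀ k : ℕ, ∃ x ∈ X, ∃ i : ℕ, n + k * (B + 1) < i ∧ i ≤ n + k * (B + 1) + B ∧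
      IsSquare ((qm (algebraMap M M' c))^[i] 0 - algebraMap M M' x) := by
    intro k
    obtain ⟨x, hx, A, hA, hAne, hprod⟩ := hcon (n + k * (B + 1)) (by omega)
    obtain ⟨h, hh⟩ := hAne
    have hB := Finset.mem_Icc.mp (hA hh)
    refine ⟨x, hx, n + k * (B + 1) + h, by omega, by omega, ?_⟩
    have h7 := hsq ((qm c)^[n + k * (B + 1) + h] 0 - x) (sub_ne_zero.mpr (h1 x hx _))
      (fun v hv => even_of_square c X h1 B (n + k * (B + 1)) x hx A hA hprod h hh v hv)
    rw [map_sub, map_iterR, map_zero] at h7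
    exact h7
  choose xk hxk ik hik1 hik2 hiks using hblock
  -- counting
  have hcount : (Finset.range (D + 1)).card ≤ ∑ x ∈ X, C x := by
    rw [Finset.card_eq_sum_card_fiberwise (f := xk) (t := X) (fun k _ => hxk k)]
    refine Finset.sum_le_sum fun x hx => ?_
    let F := (Finset.range (D + 1)).filter fun k => xk k = x
    have hinj : Set.InjOn ik F := by
      intro a _ b _ hab
      by_contra hne
      rcases lt_or_gt_of_ne hne with h | h
      · have := hik2 a
        have := hik1 b
        have : (a + 1) * (B + 1) ≤ b * (B + 1) := Nat.mul_le_mul_right _ h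
        have e : (a + 1) * (B + 1) = a * (B + 1) + (B + 1) := by ring
        omega
      · have := hik2 b
        have := hik1 a
        have : (b + 1) * (B + 1) ≤ a * (B + 1) := Nat.mul_le_mul_right _ h
        have e : (b + 1) * (B + 1) = b * (B + 1) + (B + 1) := by ring
        omega
    have h8 := hn0 x hx n (hn x hx) (F.image ik) (by
      intro i hi
      obtain ⟨k, hk, rfl⟩ := Finset.mem_image.mp hi
      have hk' := Finset.mem_range.mp (Finset.mem_filter.mp hk).1
      have h1k := hik1 k
      have h2k := hik2 k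
      have h3k : (k + 1) * (B + 1) ≤ W := Nat.mul_le_mul_right _ (by omega)
      have e : (k + 1) * (B + 1) = k * (B + 1) + (B + 1) := by ring
      exact Finset.mem_Icc.mpr ⟨by omega, by omega⟩) (by
      intro i hi
      obtain ⟨k, hk, rfl⟩ := Finset.mem_image.mp hi
      have := hiks k
      rwa [(Finset.mem_filter.mp hk).2] at this)
    rwa [Finset.card_image_of_injOn hinj] at h8
  rw [Finset.card_range] at hcount
  have : D + 1 ≤ D := hcount
  omega

end

end Pool.Agent.Arb
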