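import Pool.Agent.Arb.Primes
import Pool.Agent.Arb.Tree
import Pool.Agent.Arb.Window

/-!
# From an automorphism without fixed points to primes
-/

set_option autoImplicit false

open IsDedekindDomain NumberField
open scoped WithZero

namespace Pool.Agent.Arb

section
variable {F : Type*} [Field F] (u : Valuation F ℤᵐ⁰)

/-- lifting of congruences through the tree -/
theorem lift_cong {c γ : F} {r : F → F} {m : ℕ} (hroot : Root c r m γ) {k : ℕ} (hk : k ≤ m)
    {a : F} (h : u ((qm c)^[k] a - γ) < 1) : ∃ y ∈ T r k γ, u (a - y) < 1 := by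
  induction k generalizing a with
  | zero => exact ⟨γ, by rw [mem_T_zero], by simpa using h⟩
  | succ k ih =>
    rw [Function.iterate_succ_apply] at h
    obtain ⟨z, hz, hza⟩ := ih (by omega) h
    have hr := hroot k (by omega) z hz
    have e : qm c a - z = (a - r z) * (a - - r z) := by
      simp only [qm]; linear_combination hr
    rw [e, map_mul] at hza
    rcases lt_or_ge (u (a - r z)) 1 with h1 | h1
    · exact ⟨r z, mem_T_succ.mpr ⟨z, hz, Or.inl rfl⟩, h1⟩
    · refine ⟨- r z, mem_T_succ.mpr ⟨z, hz, Or.inr rfl⟩, ?_⟩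
      by_contra hcon
      push Not at hcon
      have : (1 : ℤᵐ⁰) ≤ u (a - r z) * u (a - - r z) := by
        calc (1 : ℤᵐ⁰) = 1 * 1 := (one_mul 1).symm
          _ ≤ _ := mul_le_mul' h1 hcon
      exact absurd hza (not_lt.mpr this)

/-- congruences propagate along the orbit -/
theorem cong_iter {c a b : F} (hc : u c ≤ 1) (hb : u b ≤ 1) (hab : u (a - b) < 1) (n : ℕ) :
    u ((qm c)^[n] a - (qm c)^[n] b) < 1 := by
  induction n generalizing a b with
  | zero => exact hab
  | succ n ih =>
    rw [Function.iterate_succ_apply, Function.iterate_succ_apply]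
    apply ih (qm_le_one _ _ hc hb)
    have e : qm c a - qm c b = (a - b) * (a + b) := by simp only [qm]; ring
    rw [e, map_mul]
    have ha : u a ≤ 1 := by
      have : a = (a - b) + b := by ring
      rw [this]; exact Valuation.map_add_le _ hab.le hb
    calc u (a - b) * u (a + b) ≤ u (a - b) * 1 := by
          gcongr
          exact Valuation.map_add_le _ ha hb
      _ < 1 := by rw [mul_one]; exact hab

theorem cong_period {c γ : F} (hc : u c ≤ 1) (hγ : u γ ≤ 1) {n : ℕ}
    (h : u ((qm c)^[n] γ - γ) < 1) (k : ℕ) : u ((qm c)^[n * k] γ - γ) < 1 := by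
  induction k with
  | zero => simp
  | succ k ih =>
    have h1 := cong_iter u hc hγ ih n
    rw [← Function.iterate_add_apply] at h1
    have e : (qm c)^[n * (k + 1)] γ - γ = ((qm c)^[n + n * k] γ - (qm c)^[n] γ) +
        ((qm c)^[n] γ - γ) := by
      rw [show n * (k + 1) = n + n * k by ring]; ring
    rw [e]
    exact Valuation.map_add_lt _ h1 h

end

theorem infinite_of_auto {K L : Type*} [Field K] [NumberField K] [Field L] [NumberField L]
    [Algebra K L] (c : K) (Γ : Finset K) (r : L → L) (m : ℕ)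
    (hroot : ∀ γ ∈ Γ, Root (algebraMap K L c) r m (algebraMap K L γ)) (g : L ≃ₐ[K] L) (k : ℕ)
    (hg : g ^ (2 ^ k) = 1)
    (hfix : ∀ γ ∈ Γ, ∀ y ∈ T r m (algebraMap K L γ), g y ≠ y) :
    {v : HeightOneSpectrum (𝓞 K) | v.valuation K c ≤ 1 ∧ ∀ γ ∈ Γ, v.valuation K γ ≤ 1 ∧
      ∀ n, 0 < n → ¬ v.valuation K ((qm c)^[n] γ - γ) < 1}.Infinite := by
  classical
  intro hfin
  set g' : L ≃+* L := (g : L ≃+* L) with hg'
  have hgg : ∀ (j : ℕ) (x : L), (g' ^ j) x = (g ^ j) x := by
    intro j
    induction j with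
    | zero => intro x; rfl
    | succ j ih =>
      intro x
      rw [pow_succ', pow_succ']
      change g' ((g' ^ j) x) = g ((g ^ j) x)
      rw [ih]; rfl
  have hg'1 : g' ^ (2 ^ k) = 1 := by
    ext x
    rw [hgg, hg]; rfl
  have hinf := inv_primes L g' k hg'1
  -- bad primes
  let bd : Set (HeightOneSpectrum (𝓞 L)) :=
    {v | ¬ v.valuation L (algebraMap K L c) ≤ 1} ∪ ⋃ γ ∈ Γ,
      ({v | ¬ v.valuation L (algebraMap K L γ) ≤ 1} ∪
        ⋃ y ∈ T r m (algebraMap K L γ), {v | v.valuation L (y - g y) < 1})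
  have hbd : bd.Finite := by
    refine (finite_gt _).union (Set.Finite.biUnion (Finset.finite_toSet Γ) fun γ hγ => ?_)
    refine (finite_gt _).union (Set.Finite.biUnion (Finset.finite_toSet _) fun y hy => ?_)
    refine finite_lt _ (sub_ne_zero.mpr ?_)
    exact (hfix γ (Finset.mem_coe.mp hγ) y (Finset.mem_coe.mp hy)).symm
  -- fibres of the map to primes of `K` are finite
  have hfib : ∀ p : HeightOneSpectrum (𝓞 K),
      {v : HeightOneSpectrum (𝓞 L) | v.under (𝓞 K) = p}.Finite := by
    intro p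
    obtain ⟨z, hz, hz0⟩ := Submodule.exists_mem_ne_zero_of_ne_bot p.ne_bot
    have h0 : algebraMap (𝓞 K) (𝓞 L) z ≠ 0 := by
      intro h
      apply hz0
      exact FaithfulSMul.algebraMap_injective (𝓞 K) (𝓞 L) (by rw [h, map_zero])
    refine (finite_lt (algebraMap (𝓞 L) L (algebraMap (𝓞 K) (𝓞 L) z)) ?_).subset ?_
    · intro h
      apply h0
      exact FaithfulSMul.algebraMap_injective (𝓞 L) L (by rw [h, map_zero])
    · intro v hv
      have hv' : v.under (𝓞 K) = p := hv
      change v.valuation L _ < 1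
      rw [v.valuation_lt_one_iff_mem]
      have : z ∈ (v.under (𝓞 K)).asIdeal := by rw [hv']; exact hz
      exact this
  apply hinf
  refine (hbd.union (Set.Finite.biUnion hfin fun p _ => hfib p)).subset ?_
  intro v hv
  have hv' : ∀ z : L, v.valuation L (g z) = v.valuation L z := fun z => hv z
  by_cases hvb : v ∈ bd
  · exact Or.inl hvb
  right
  rw [Set.mem_iUnion₂]
  refine ⟨v.under (𝓞 K), ?_, rfl⟩
  have : v.asIdeal.LiesOver (v.under (𝓞 K)).asIdeal := ⟨rfl⟩
  set p := v.under (𝓞 K) with hp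
  set e := p.asIdeal.ramificationIdx' v.asIdeal with he
  have he0 : e ≠ 0 :=
    Ideal.IsDedekindDomain.ramificationIdx'_ne_zero_of_liesOver v.asIdeal p.ne_bot
  have hval : ∀ x : K, p.valuation K x ^ e = v.valuation L (algebraMap K L x) :=
    fun x => HeightOneSpectrum.valuation_liesOver L p v x
  have hle : ∀ x : K, v.valuation L (algebraMap K L x) ≤ 1 → p.valuation K x ≤ 1 := by
    intro x hx
    rw [← hval] at hx
    exact (pow_le_one_iff he0).mp hx
  have hlt : ∀ x : K, p.valuation K x < 1 → v.valuation L (algebraMap K L x) < 1 := by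
    intro x hx
    rw [← hval]
    exact pow_lt_one₀ zero_le hx he0
  simp only [bd, Set.mem_union, Set.mem_iUnion, not_or, not_exists] at hvb
  obtain ⟨hc, hX⟩ := hvb
  have hc' : v.valuation L (algebraMap K L c) ≤ 1 := by
    by_contra hcon; exact hc hcon
  refine ⟨hle c hc', fun γ hγ => ?_⟩
  have hγv : v.valuation L (algebraMap K L γ) ≤ 1 := by
    by_contra hcon; exact (hX γ hγ).1 hcon
  refine ⟨hle γ hγv, fun n hn hper => ?_⟩
  have h1 := hlt _ hper
  rw [map_sub, map_iterR] at h1
  have h2 := cong_period (v.valuation L) hc' hγv h1 m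
  obtain ⟨n', rfl⟩ : ∃ n', n = n' + 1 := ⟨n - 1, by omega⟩
  rw [show (n' + 1) * m = m + n' * m by ring, Function.iterate_add_apply] at h2
  obtain ⟨y, hy, hya⟩ := lift_cong (v.valuation L) (hroot γ hγ) le_rfl h2
  have h3 : v.valuation L (g ((qm (algebraMap K L c))^[n' * m] (algebraMap K L γ) - y)) < 1 := by
    rw [hv']; exact hya
  rw [map_sub, ← map_iterR (algebraMap K L), g.commutes] at h3
  rw [← map_iterR (algebraMap K L)] at hya
  apply (hX γ hγ).2 y hy
  change v.valuation L (y - g y) < 1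
  have e1 : y - g y = (algebraMap K L ((qm c)^[n' * m] γ) - g y) -
      (algebraMap K L ((qm c)^[n' * m] γ) - y) := by ring
  rw [e1]
  exact Valuation.map_sub_lt _ h3 hya

end Pool.Agent.Arb
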