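import Pool.Agent.Arb.Auto
import Pool.Agent.Arb.Lift

/-!
# Simultaneous non-periodicity modulo infinitely many primes
-/

set_option autoImplicit false

open IsDedekindDomain NumberField IntermediateField

namespace Pool.Agent.Arb

theorem nonperiodic_infinite {K : Type*} [Field K] [NumberField K] (c : K)
    (h2 : ∃ v : HeightOneSpectrum (𝓞 K), v.valuation K 2 < 1 ∧ v.valuation K (4 * c) < 1)
    (h0 : Function.Injective fun n : ℕ => (qm c)^[n] 0)
    (Γ : Finset K) (hΓ : ∀ γ ∈ Γ, ∀ n, 0 < n → (qm c)^[n] γ ≠ γ) :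
    {v : HeightOneSpectrum (𝓞 K) | v.valuation K c ≤ 1 ∧ ∀ γ ∈ Γ, v.valuation K γ ≤ 1 ∧
      ∀ n, 0 < n → ¬ v.valuation K ((qm c)^[n] γ - γ) < 1}.Infinite := by
  classical
  obtain ⟨v, hv2, hvc⟩ := h2
  let Ω := AlgebraicClosure K
  let c' : Ω := algebraMap K Ω c
  choose r hr using fun y : Ω => IsAlgClosed.exists_pow_nat_eq (y - c') (n := 2) (by norm_num)
  have hqr : ∀ y : Ω, qm c' (r y) = y := fun y => by simp only [qm]; rw [hr]; ring
  have hinjK : Function.Injective (algebraMap K Ω) := (algebraMap K Ω).injective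
  -- constants
  have hC : ∀ γ ∈ Γ, ∃ C0 : ℕ, ∀ (w : Ω) (N : ℕ), (qm c')^[N] w = algebraMap K Ω γ →
      2 ^ N ≤ C0 * (minpoly K w).natDegree :=
    fun γ hγ => minpoly_degree_bound c γ v hv2 hvc (hΓ γ hγ)
  choose! C0 hC0 using hC
  have hlev : ∀ γ ∈ Γ, ∃ n0 : ℕ, ∀ n ≥ n0, ∀ w : Ω, (qm c')^[n + 1] w = algebraMap K Ω γ →
      minpoly K w = minpoly K (-w) := fun γ hγ => exists_level c γ (C0 γ) (hC0 γ hγ)
  choose! l hl using hlev
  have hidx : ∀ γ ∈ Γ, ∃ i0 : ℕ, ∀ i ≥ i0, (qm c)^[i] 0 ≠ γ := by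
    intro γ _
    by_cases h : ∃ j, (qm c)^[j] 0 = γ
    · obtain ⟨j, hj⟩ := h
      refine ⟨j + 1, fun i hi he => ?_⟩
      have : j = i := h0 (by simp only [hj, he])
      omega
    · push Not at h
      exact ⟨0, fun i _ => h i⟩
  choose! i0 hi0 using hidx
  obtain ⟨C, hCdef⟩ : ∃ C : ℕ, C = ∑ γ ∈ Γ, C0 γ := ⟨_, rfl⟩
  obtain ⟨n0, hn0def⟩ : ∃ n0 : ℕ, n0 = 1 + ∑ γ ∈ Γ, (l γ + i0 γ) := ⟨_, rfl⟩
  obtain ⟨B, hBdef⟩ : ∃ B : ℕ, B = 2 * (Γ.card * C) := ⟨_, rfl⟩
  have hCle : ∀ γ ∈ Γ, C0 γ ≤ C := fun γ hγ => by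
    rw [hCdef]; exact Finset.single_le_sum (f := C0) (fun _ _ => Nat.zero_le _) hγ
  have hn0le : ∀ γ ∈ Γ, l γ + i0 γ + 1 ≤ n0 := fun γ hγ => by
    have := Finset.single_le_sum (f := fun γ => l γ + i0 γ) (fun _ _ => Nat.zero_le _) hγ
    rw [hn0def]
    omega
  have hrootΩ : ∀ n w, Root c' r n w := fun _ _ _ _ y _ => hr y
  have hn0pos : 0 < n0 := by omega
  -- the field of level `n0`
  let S0 : Finset Ω := Γ.biUnion fun γ => T r n0 (algebraMap K Ω γ)
  let M : IntermediateField K Ω := adjoin K (S0 : Set Ω)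
  have hMfd : FiniteDimensional K M :=
    IntermediateField.finiteDimensional_adjoin fun x _ => Algebra.IsIntegral.isIntegral x
  have hMnf : NumberField M := NumberField.of_module_finite K _
  have hinjM : Function.Injective (algebraMap M Ω) := (algebraMap M Ω).injective
  let X : Finset M := S0.preimage (algebraMap M Ω) hinjM.injOn
  have hcM : algebraMap M Ω (algebraMap K M c) = c' :=
    (IsScalarTower.algebraMap_apply K M Ω c).symm
  have hXspec : ∀ x ∈ X, ∃ γ ∈ Γ, (qm c')^[n0] (algebraMap M Ω x) = algebraMap K Ω γ := by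
    intro x hx
    rw [Finset.mem_preimage, Finset.mem_biUnion] at hx
    obtain ⟨γ, hγ, hx⟩ := hx
    exact ⟨γ, hγ, (hrootΩ n0 _).iter le_rfl hx⟩
  have hzero : ∀ n, (qm c')^[n] 0 = algebraMap K Ω ((qm c)^[n] 0) := fun n => by
    rw [map_iterR, map_zero]
  obtain ⟨N', hN'1, hN'2⟩ := window (algebraMap K M c) (by
      intro a b hab
      apply h0
      apply (algebraMap K M).injective
      simp only at hab ⊢
      rw [map_iterR, map_iterR, map_zero]; exact hab) X (by
      intro x hx n hn hper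
      obtain ⟨γ, hγ, hxγ⟩ := hXspec x hx
      apply hΓ γ hγ n hn
      apply hinjK
      have h3 := congrArg (algebraMap M Ω) hper
      rw [map_iterR, hcM] at h3
      rw [map_iterR, ← hxγ]
      change (qm c')^[n] _ = _
      rw [← Function.iterate_add_apply, add_comm, Function.iterate_add_apply, h3]) (by
      intro x hx n hn
      obtain ⟨γ, hγ, hxγ⟩ := hXspec x hx
      apply hi0 γ hγ (n0 + n) (by have := hn0le γ hγ; omega)
      apply hinjK
      have h3 := congrArg (algebraMap M Ω) hn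
      rw [map_iterR, hcM, map_zero] at h3
      rw [← hzero, Function.iterate_add_apply, h3, hxγ]) (by
      intro x hx hxc
      obtain ⟨γ, hγ, hxγ⟩ := hXspec x hx
      apply hi0 γ hγ (n0 + 1) (by have := hn0le γ hγ; omega)
      apply hinjK
      have h3 := congrArg (algebraMap M Ω) hxc
      rw [map_neg, hcM] at h3
      rw [h3] at hxγ
      obtain ⟨k, rfl⟩ : ∃ k, n0 = k + 1 := ⟨n0 - 1, by omega⟩
      rw [← hzero, ← hxγ, Function.iterate_succ_apply, Function.iterate_succ_apply,
        Function.iterate_succ_apply]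
      congr 1
      simp [qm]) B 1
  obtain ⟨N, rfl⟩ : ∃ N, N' = N + 1 := ⟨N' - 1, by omega⟩
  -- the big field
  obtain ⟨n1, hn1def⟩ : ∃ n1 : ℕ, n1 = n0 + (N + 1) + B := ⟨_, rfl⟩
  let S1 : Finset Ω := Γ.biUnion fun γ => T r n1 (algebraMap K Ω γ)
  let L : IntermediateField K Ω := adjoin K (S1 : Set Ω)
  have hLfd : FiniteDimensional K L :=
    IntermediateField.finiteDimensional_adjoin fun x _ => Algebra.IsIntegral.isIntegral x
  have hLnf : NumberField L := NumberField.of_module_finite K _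
  have hinjL : Function.Injective (algebraMap L Ω) := (algebraMap L Ω).injective
  have hcL : algebraMap L Ω (algebraMap K L c) = c' :=
    (IsScalarTower.algebraMap_apply K L Ω c).symm
  have hγL : ∀ γ, algebraMap L Ω (algebraMap K L γ) = algebraMap K Ω γ := fun γ =>
    (IsScalarTower.algebraMap_apply K L Ω γ).symm
  have hiterL : ∀ (n : ℕ) (x : L), algebraMap L Ω ((qm (algebraMap K L c))^[n] x) =
      (qm c')^[n] (algebraMap L Ω x) := fun n x => by rw [map_iterR, hcL]
  have hlift : ∀ (k : ℕ) (y : Ω), ∃ y', (qm c')^[k] y' = y := by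
    intro k
    induction k with
    | zero => intro y; exact ⟨y, rfl⟩
    | succ k ih =>
      intro y
      obtain ⟨z, hz⟩ := ih y
      exact ⟨r z, by rw [Function.iterate_succ_apply, hqr, hz]⟩
  have hmemL : ∀ γ ∈ Γ, ∀ j ≤ n1, ∀ y : Ω, (qm c')^[j] y = algebraMap K Ω γ → y ∈ L := by
    intro γ hγ j hj y hy
    obtain ⟨y', hy'⟩ := hlift (n1 - j) y
    have h3 : (qm c')^[n1] y' = algebraMap K Ω γ := by
      rw [← hy, ← hy', ← Function.iterate_add_apply]
      congr 1
      rw [Nat.add_sub_cancel' hj]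
    have h4 : y' ∈ L := by
      apply subset_adjoin
      rw [Finset.mem_coe, Finset.mem_biUnion]
      exact ⟨γ, hγ, (hrootΩ n1 _).mem_of_iter le_rfl h3⟩
    have h5 := hiterL (n1 - j) ⟨y', h4⟩
    have h6 : algebraMap L Ω ⟨y', h4⟩ = y' := rfl
    rw [h6, hy'] at h5
    rw [← h5]
    exact SetLike.coe_mem _
  let rL : L → L := fun y => if h : r (algebraMap L Ω y) ∈ L then ⟨_, h⟩ else 0
  have hrootL : ∀ γ ∈ Γ, ∀ n ≤ n1, Root (algebraMap K L c) rL n (algebraMap K L γ) := by
    intro γ hγ n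
    induction n with
    | zero => intro _ k hk; omega
    | succ n ih =>
      intro hn k hk y hy
      have ih' := ih (by omega)
      rcases Nat.lt_succ_iff_lt_or_eq.mp hk with hk' | rfl
      · exact ih' k hk' y hy
      · have h3 := ih'.iter le_rfl hy
        have h4 := congrArg (algebraMap L Ω) h3
        rw [hiterL, hγL] at h4
        have h5 : r (algebraMap L Ω y) ∈ L := by
          apply hmemL γ hγ (k + 1) hn
          rw [Function.iterate_succ_apply, hqr, h4]
        have h6 : rL y = ⟨_, h5⟩ := dif_pos h5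
        apply hinjL
        rw [h6, map_pow, map_sub, hcL, ← hr]
        rfl
  have hnorm : Normal K L := by
    rw [IntermediateField.normal_iff_forall_map_le]
    intro σ
    rw [IntermediateField.adjoin_map, adjoin_le_iff]
    rintro _ ⟨y, hy, rfl⟩
    rw [Finset.mem_coe, Finset.mem_biUnion] at hy
    obtain ⟨γ, hγ, hy⟩ := hy
    apply hmemL γ hγ n1 le_rfl
    have h3 := (hrootΩ n1 _).iter le_rfl hy
    have h4 := congrArg σ h3
    have h5 := map_iterR (σ : Ω →+* Ω) c' y n1
    have h6 : (σ : Ω →+* Ω) c' = c' := σ.commutes c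
    rw [h6] at h5
    rw [σ.commutes] at h4
    rw [← h4]
    exact h5.symm
  have hgal : IsGalois K L := ⟨⟩
  have hpow : ∀ g : L ≃ₐ[K] L, g ^ (2 ^ n1) = 1 := by
    intro g
    have h3 : ∀ γ ∈ Γ, ∀ j ≤ n1, ∀ y : L, (qm (algebraMap K L c))^[j] y = algebraMap K L γ →
        (g ^ (2 ^ j)) y = y := by
      intro γ hγ j
      induction j with
      | zero =>
        intro _ y hy
        have : y = algebraMap K L γ := hy
        rw [this, AlgEquiv.commutes]
      | succ j ih =>
        intro hj y hy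
        rw [Function.iterate_succ_apply] at hy
        have h4 := ih (by omega) _ hy
        set f := g ^ (2 ^ j) with hf
        have h5 : (f y) ^ 2 = y ^ 2 := by
          have h6 : f (qm (algebraMap K L c) y) = (f y) ^ 2 + algebraMap K L c := by
            simp only [qm]
            rw [map_add, map_pow, AlgEquiv.commutes]
          rw [h6] at h4
          simpa [qm] using h4
        have h7 : g ^ (2 ^ (j + 1)) = f * f := by
          rw [hf, ← pow_add, pow_succ]; congr 1; ring
        rw [h7]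
        change f (f y) = y
        rcases sq_eq_sq_iff_eq_or_eq_neg.mp h5 with h | h
        · rw [h, h]
        · rw [h, map_neg, h, neg_neg]
    have h4 : ∀ (x : Ω) (hx : x ∈ L), (g ^ (2 ^ n1)) ⟨x, hx⟩ = ⟨x, hx⟩ := by
      intro x hx
      induction hx using IntermediateField.adjoin_induction with
      | mem x hx =>
        rw [Finset.mem_coe, Finset.mem_biUnion] at hx
        obtain ⟨γ, hγ, hx⟩ := hx
        apply h3 γ hγ n1 le_rfl
        apply hinjL
        rw [hiterL, hγL]
        exact (hrootΩ n1 _).iter le_rfl hx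
      | algebraMap x => exact AlgEquiv.commutes _ x
      | add x y hx hy h1 h2 =>
        have e : (⟨x + y, add_mem hx hy⟩ : L) = ⟨x, hx⟩ + ⟨y, hy⟩ := rfl
        rw [e, map_add, h1, h2]
      | inv x hx h1 =>
        have e : (⟨x⁻¹, inv_mem hx⟩ : L) = (⟨x, hx⟩ : L)⁻¹ := rfl
        rw [e, map_inv₀, h1]
      | mul x y hx hy h1 h2 =>
        have e : (⟨x * y, mul_mem hx hy⟩ : L) = ⟨x, hx⟩ * ⟨y, hy⟩ := rfl
        rw [e, map_mul, h1, h2]
    ext x
    exact congrArg Subtype.val (h4 x.1 x.2)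
  have hminL : ∀ w : L, minpoly K w = minpoly K (algebraMap L Ω w) := fun w =>
    (minpoly.algebraMap_eq hinjL w).symm
  obtain ⟨g, hg⟩ := exists_auto (L := L) c Γ rL n0 N B C
    (fun γ hγ => hrootL γ hγ _ (by omega))
    (fun g => ⟨n1, hpow g⟩)
    (by
      intro γ hγ w hw
      have h3 := congrArg (algebraMap L Ω) hw
      rw [hiterL, hγL] at h3
      rw [hminL]
      exact (hC0 γ hγ _ _ h3).trans (Nat.mul_le_mul_right _ (hCle γ hγ)))
    (by
      intro γ hγ n hn w hw
      have h3 := congrArg (algebraMap L Ω) hw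
      rw [hiterL, hγL] at h3
      rw [hminL, hminL, map_neg]
      exact hl γ hγ n (by have := hn0le γ hγ; omega) _ h3)
    (by
      intro γ hγ i hi
      exact hi0 γ hγ i (by have := hn0le γ hγ; omega))
    (by
      intro γ hγ x hx A hA hne
      rintro ⟨s, hs, hss⟩
      have h3 := congrArg (algebraMap L Ω) hx
      rw [hiterL, hγL] at h3
      have hxM : algebraMap L Ω x ∈ M := by
        apply subset_adjoin
        rw [Finset.mem_coe, Finset.mem_biUnion]
        exact ⟨γ, hγ, (hrootΩ n0 _).mem_of_iter le_rfl h3⟩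
      have hsM : algebraMap L Ω s ∈ M := by
        have h4 : K⟮x⟯ ≤ M.comap L.val := by
          rw [adjoin_simple_le_iff]
          exact hxM
        exact h4 hs
      refine hN'2 ⟨_, hxM⟩ ?_ A hA hne ⟨⟨_, hsM⟩, ?_⟩
      · rw [Finset.mem_preimage, Finset.mem_biUnion]
        exact ⟨γ, hγ, (hrootΩ n0 _).mem_of_iter le_rfl h3⟩
      · apply hinjM
        have h5 := congrArg (algebraMap L Ω) hss
        rw [map_pow, map_prod] at h5
        rw [map_mul, map_prod, ← sq]
        change _ = (algebraMap L Ω s) ^ 2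
        rw [h5]
        refine Finset.prod_congr rfl fun h _ => ?_
        rw [map_sub, map_sub, hiterL, map_iterR, hcM, map_zero, map_zero]
        rfl)
    (by omega)
  refine infinite_of_auto c Γ rL n1 (fun γ hγ => hrootL γ hγ n1 le_rfl) g n1 (hpow g) ?_
  intro γ hγ y hy
  apply hg γ hγ y
  rw [← hn1def]; exact hy

end Pool.Agent.Arb
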