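import Pool.Agent.Arb.Tree

/-!
# Fullness of the Galois action on the tree (Stoll's criterion)
-/

set_option autoImplicit false

open scoped Pointwise

namespace Pool.Agent.Arb

variable {L : Type*} [Field L] {G : Type*} [Group G] [MulSemiringAction G L]

/-- The critical values `w - c, φ²(0) - w, φ³(0) - w, …`. -/
noncomputable def bet (c w : L) (n : ℕ) : L := if n = 1 then w - c else (qm c)^[n] 0 - w

theorem smul_sub' (g : G) (a b : L) : g • (a - b) = g • a - g • b := by
  rw [sub_eq_add_neg, smul_add, smul_neg, ← sub_eq_add_neg]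

theorem smul_qm (g : G) {c : L} (hc : g • c = c) (y : L) : g • (qm c y) = qm c (g • y) := by
  simp only [qm, smul_add, smul_pow', hc]

theorem smul_iter (g : G) {c : L} (hc : g • c = c) (n : ℕ) (y : L) :
    g • ((qm c)^[n] y) = (qm c)^[n] (g • y) := by
  induction n generalizing y with
  | zero => rfl
  | succ n ih => rw [Function.iterate_succ_apply, Function.iterate_succ_apply, ih, smul_qm g hc]

theorem sq_smul {g : G} {s : L} (h : g • (s ^ 2) = s ^ 2) : g • s = s ∨ g • s = - s := by
  rw [smul_pow'] at h
  exact sq_eq_sq_iff_eq_or_eq_neg.mp h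

/-- The setting: `G` fixes `c` and `w` and acts on the tree of height `B` above `w`. -/
structure Setup (G : Type*) [Group G] [MulSemiringAction G L] (c : L) (r : L → L) (B : ℕ)
    (w : L) : Prop where
  two : (2 : L) ≠ 0
  fc : ∀ g : G, g • c = c
  fw : ∀ g : G, g • w = w
  root : Root c r B w
  nd : Nondeg c r B w

namespace Setup

variable {c : L} {r : L → L} {B : ℕ} {w : L} (S : Setup G c r B w)

include S in
theorem smul_mem {n : ℕ} (hn : n ≤ B) (g : G) {y : L} (hy : y ∈ T r n w) : g • y ∈ T r n w := by
  apply S.root.mem_of_iter hn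
  rw [← smul_iter g (S.fc g), S.root.iter hn hy, S.fw g]

include S in
theorem smul_r {n : ℕ} (hn : n < B) (g : G) {y : L} (hy : y ∈ T r n w) :
    g • r y = r (g • y) ∨ g • r y = - r (g • y) := by
  apply sq_eq_sq_iff_eq_or_eq_neg.mp
  rw [← smul_pow', S.root n hn y hy, S.root n hn _ (S.smul_mem hn.le g hy), smul_sub', S.fc g]

/-- Full action of the pointwise stabiliser of level `n` on level `n + 1`. -/
def Full (G : Type*) [Group G] [MulSemiringAction G L] (r : L → L) (n : ℕ) (w : L) : Prop :=
  ∀ A ⊆ T r n w, ∃ g : G, (∀ y ∈ T r n w, g • y = y) ∧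
    ∀ y ∈ T r n w, (y ∈ A → g • r y = - r y) ∧ (y ∉ A → g • r y = r y)

/-- Being fixed by the pointwise stabiliser of level `n`. -/
def FixN (G : Type*) [Group G] [MulSemiringAction G L] (r : L → L) (n : ℕ) (w t : L) : Prop :=
  ∀ g : G, (∀ y ∈ T r n w, g • y = y) → g • t = t

include S in
theorem fix_pred {n : ℕ} (hn : n < B) {g : G} (h : ∀ y ∈ T r (n + 1) w, g • y = y) :
    ∀ y ∈ T r n w, g • y = y := by
  intro y hy
  have h1 := h (r y) (mem_T_succ.mpr ⟨y, hy, Or.inl rfl⟩)
  have h2 := S.root n hn y hy
  have h3 : y = (r y) ^ 2 + c := by rw [h2]; ring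
  rw [h3, smul_add, smul_pow', h1, S.fc g]

include S in
/-- One step down for square roots of fixed elements. -/
theorem step_down {n : ℕ} (hn : n < B) (hfull : Full G r n w)
    (htr : ∀ y ∈ T r n w, ∀ z ∈ T r n w, ∃ g : G, g • y = z) {u t : L}
    (hu : ∀ g : G, g • u = u) (htu : t ^ 2 = u) (ht : FixN G r (n + 1) w t) :
    FixN G r n w t ∨ FixN G r n w (t * ∏ y ∈ T r n w, r y) := by
  classical
  have htt : ∀ g : G, g • t = t ∨ g • t = - t := fun g => sq_smul (by rw [htu, hu g])
  have ht0 : t = 0 ∨ t ≠ - t := by
    by_cases h : t = 0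
    · exact Or.inl h
    · right
      intro h1
      have h5 : 2 * t = 0 := by
        calc 2 * t = t + t := by ring
          _ = t + - t := by rw [← h1]
          _ = 0 := by ring
      exact h ((mul_eq_zero.mp h5).resolve_left S.two)
  rcases ht0 with h0 | hne
  · left
    intro g _
    rw [h0, smul_zero]
  -- elementary flips
  have hflip : ∀ z ∈ T r n w, ∃ g : G, (∀ y ∈ T r n w, g • y = y) ∧
      (g • r z = - r z) ∧ ∀ y ∈ T r n w, y ≠ z → g • r y = r y := by
    intro z hz
    obtain ⟨g, h1, h2⟩ := hfull {z} (by simpa using hz)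
    exact ⟨g, h1, (h2 z hz).1 (by simp), fun y hy hyz => (h2 y hy).2 (by simpa using hyz)⟩
  choose! fl hfl1 hfl2 hfl3 using hflip
  -- two elements with the same signs act in the same way on `t`
  have hsame : ∀ g g' : G, (∀ y ∈ T r n w, g • y = y) → (∀ y ∈ T r n w, g' • y = y) →
      (∀ y ∈ T r n w, g • r y = g' • r y) → g • t = g' • t := by
    intro g g' hg hg' h
    have h1 : (g'⁻¹ * g) • t = t := by
      apply ht
      intro y hy
      obtain ⟨z, hz, hyz⟩ := mem_T_succ.mp hy
      have h2 : (g'⁻¹ * g) • r z = r z := by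
        rw [mul_smul, h z hz, inv_smul_smul]
      rcases hyz with rfl | rfl
      · exact h2
      · rw [smul_neg, h2]
    rw [mul_smul, inv_smul_eq_iff] at h1
    exact h1
  -- general formula by induction on the set of flipped vertices
  have hform : ∀ A ⊆ T r n w, ∀ g : G, (∀ y ∈ T r n w, g • y = y) →
      (∀ y ∈ T r n w, (y ∈ A → g • r y = - r y) ∧ (y ∉ A → g • r y = r y)) →
      g • t = (∏ y ∈ A, if fl y • t = t then (1 : L) else -1) * t := by
    intro A
    induction A using Finset.induction_on with
    | empty =>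
      intro _ g hg h
      rw [Finset.prod_empty, one_mul]
      apply ht
      intro y hy
      obtain ⟨z, hz, hyz⟩ := mem_T_succ.mp hy
      have h2 : g • r z = r z := (h z hz).2 (by simp)
      rcases hyz with rfl | rfl
      · exact h2
      · rw [smul_neg, h2]
    | insert a A ha ih =>
      intro hA g hg h
      have haT : a ∈ T r n w := hA (Finset.mem_insert_self a A)
      have hg' : ∀ y ∈ T r n w, ((fl a)⁻¹ * g) • y = y := by
        intro y hy
        rw [mul_smul, hg y hy, inv_smul_eq_iff, hfl1 a haT y hy]
      have h' : ∀ y ∈ T r n w, (y ∈ A → ((fl a)⁻¹ * g) • r y = - r y) ∧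
          (y ∉ A → ((fl a)⁻¹ * g) • r y = r y) := by
        intro y hy
        constructor
        · intro hyA
          have hya : y ≠ a := fun h => ha (h ▸ hyA)
          rw [mul_smul, (h y hy).1 (Finset.mem_insert_of_mem hyA), inv_smul_eq_iff, smul_neg,
            hfl3 a haT y hy hya]
        · intro hyA
          by_cases hya : y = a
          · subst hya
            rw [mul_smul, (h y hy).1 (Finset.mem_insert_self y A), inv_smul_eq_iff,
              hfl2 y hy]
          · rw [mul_smul, (h y hy).2 (by simp [hya, hyA]), inv_smul_eq_iff,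
              hfl3 a haT y hy hya]
      have h3 := ih (fun y hy => hA (Finset.mem_insert_of_mem hy)) _ hg' h'
      rw [mul_smul, inv_smul_eq_iff] at h3
      rw [h3, Finset.prod_insert ha]
      have hsm : fl a • ((∏ y ∈ A, if fl y • t = t then (1 : L) else -1) * t) =
          (∏ y ∈ A, if fl y • t = t then (1 : L) else -1) * fl a • t := by
        rw [smul_mul']
        congr 1
        have : ∀ s : Finset L, fl a • (∏ y ∈ s, if fl y • t = t then (1 : L) else -1) =
            ∏ y ∈ s, if fl y • t = t then (1 : L) else -1 := by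
          intro s
          rw [Finset.smul_prod']
          refine Finset.prod_congr rfl fun y _ => ?_
          split_ifs
          · exact smul_one _
          · rw [smul_neg, smul_one]
        exact this A
      rw [hsm]
      rcases htt (fl a) with h4 | h4
      · rw [if_pos h4, h4]; ring
      · rw [if_neg (by rw [h4]; exact fun h => hne h.symm), h4]; ring
  -- the set of vertices whose flip moves `t` is invariant
  have hinv : ∀ y ∈ T r n w, ∀ z ∈ T r n w, fl y • t = t → fl z • t = t := by
    intro y hy z hz hyt
    obtain ⟨g, rfl⟩ := htr y hy z hz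
    -- `g * fl y * g⁻¹` flips exactly `g • y`
    have h1 : ∀ x ∈ T r n w, (g * fl y * g⁻¹) • x = x := by
      intro x hx
      rw [mul_smul, mul_smul, hfl1 y hy _ (S.smul_mem hn.le g⁻¹ hx), smul_inv_smul]
    have h2 : ∀ x ∈ T r n w, (g * fl y * g⁻¹) • r x = fl (g • y) • r x := by
      intro x hx
      have hx' := S.smul_mem hn.le g⁻¹ hx
      have hr := S.smul_r hn g⁻¹ hx
      have hkey : (g * fl y * g⁻¹) • r x = if x = g • y then - r x else r x := by
        have h5 : ∀ s : L, s = r (g⁻¹ • x) ∨ s = - r (g⁻¹ • x) →
            fl y • s = if x = g • y then - s else s := by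
          intro s hs
          split_ifs with hxy
          · have h6 : g⁻¹ • x = y := by rw [hxy, inv_smul_smul]
            rw [h6] at hs
            rcases hs with rfl | rfl
            · exact hfl2 y hy
            · rw [smul_neg, hfl2 y hy]
          · have h6 : g⁻¹ • x ≠ y := by
              intro h; apply hxy; rw [← h, smul_inv_smul]
            rcases hs with rfl | rfl
            · exact hfl3 y hy _ hx' h6
            · rw [smul_neg, hfl3 y hy _ hx' h6]
        rw [mul_smul, mul_smul, h5 _ hr]
        split_ifs
        · rw [smul_neg, smul_inv_smul]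
        · rw [smul_inv_smul]
      rw [hkey]
      split_ifs with hxy
      · rw [hxy, hfl2 _ hz]
      · rw [hfl3 _ hz x hx hxy]
    have h3 := hsame _ _ h1 (hfl1 _ hz) h2
    rw [← h3, mul_smul, mul_smul]
    rcases htt g⁻¹ with h4 | h4
    · rw [h4, hyt]
      have := congrArg (g • ·) h4
      simp only [smul_inv_smul] at this
      exact this.symm
    · rw [h4, smul_neg, hyt]
      have := congrArg (g • ·) h4
      simp only [smul_inv_smul, smul_neg] at this
      rw [smul_neg]; exact this.symm
  -- sign set of an element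
  have hset : ∀ g : G, (∀ y ∈ T r n w, g • y = y) →
      ∀ y ∈ T r n w, (y ∈ (T r n w).filter (fun y => g • r y = - r y) → g • r y = - r y) ∧
        (y ∉ (T r n w).filter (fun y => g • r y = - r y) → g • r y = r y) := by
    intro g hg y hy
    constructor
    · intro h; exact (Finset.mem_filter.mp h).2
    · intro h
      have h1 : ¬ g • r y = - r y := fun h2 => h (Finset.mem_filter.mpr ⟨hy, h2⟩)
      have h2 := S.smul_r hn g hy
      rw [hg y hy] at h2
      exact h2.resolve_right h1
  by_cases hall : ∃ y ∈ T r n w, fl y • t = t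
  · left
    obtain ⟨y0, hy0, h0⟩ := hall
    intro g hg
    rw [hform _ (Finset.filter_subset _ _) g hg (hset g hg)]
    rw [Finset.prod_eq_one, one_mul]
    intro y hy
    rw [if_pos (hinv y0 hy0 y (Finset.mem_filter.mp hy).1 h0)]
  · right
    push Not at hall
    intro g hg
    rw [smul_mul', hform _ (Finset.filter_subset _ _) g hg (hset g hg)]
    have h1 : g • (∏ y ∈ T r n w, r y) =
        (∏ y ∈ (T r n w).filter (fun y => g • r y = - r y), (-1 : L)) * ∏ y ∈ T r n w, r y := by
      rw [Finset.smul_prod', Finset.prod_filter, ← Finset.prod_mul_distrib]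
      refine Finset.prod_congr rfl fun y hy => ?_
      split_ifs with h
      · rw [h]; ring
      · rw [((hset g hg) y hy).2 (by simp [h])]; ring
    have h2 : (∏ y ∈ (T r n w).filter (fun y => g • r y = - r y),
        if fl y • t = t then (1 : L) else -1) =
        ∏ y ∈ (T r n w).filter (fun y => g • r y = - r y), (-1 : L) := by
      refine Finset.prod_congr rfl fun y hy => ?_
      rw [if_neg (hall y (Finset.mem_filter.mp hy).1)]
    rw [h1, h2]
    have h3 : ∀ s : Finset L, (∏ y ∈ s, (-1 : L)) * (∏ y ∈ s, (-1 : L)) = 1 := by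
      intro s
      rw [← Finset.prod_mul_distrib]
      simp
    calc _ = ((∏ y ∈ (T r n w).filter (fun y => g • r y = - r y), (-1 : L)) *
          (∏ y ∈ (T r n w).filter (fun y => g • r y = - r y), (-1 : L))) *
          (t * ∏ y ∈ T r n w, r y) := by ring
      _ = _ := by rw [h3, one_mul]

end Setup

end Pool.Agent.Arb
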