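import Pool.Agent.Arb.Full

/-!
# Stoll's criterion: independence of the critical values implies fullness
-/

set_option autoImplicit false

open scoped Pointwise

namespace Pool.Agent.Arb

variable {L : Type*} [Field L] {G : Type*} [Group G] [MulSemiringAction G L]

namespace Setup

variable {c : L} {r : L → L} {B : ℕ} {w : L} (S : Setup G c r B w)

include S in
theorem prod_sq {n : ℕ} (hn : n < B) :
    (∏ y ∈ T r n w, r y) ^ 2 = bet c w (n + 1) := by
  rw [← Finset.prod_pow]
  have h1 : ∏ y ∈ T r n w, (r y) ^ 2 = ∏ y ∈ T r n w, (-1 : L) * (c - y) := by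
    refine Finset.prod_congr rfl fun y hy => ?_
    rw [S.root n hn y hy]; ring
  rw [h1, Finset.prod_mul_distrib, S.root.prod_sub S.nd S.two hn.le, Finset.prod_const,
    S.root.card S.nd S.two hn.le]
  unfold bet
  rcases Nat.eq_zero_or_pos n with h | h
  · subst h; simp
  · rw [if_neg (by omega)]
    have h2 : (-1 : L) ^ (2 ^ n) = 1 := by
      obtain ⟨m, rfl⟩ : ∃ m, n = m + 1 := ⟨n - 1, by omega⟩
      rw [pow_succ, mul_comm, pow_mul]; simp
    have h3 : (qm c)^[n + 1] 0 = (qm c)^[n] c := by
      rw [Function.iterate_succ_apply]; simp [qm]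
    rw [h2, h3, one_mul]

include S in
theorem bet_fixed (n : ℕ) (g : G) : g • bet c w n = bet c w n := by
  unfold bet
  split_ifs
  · rw [smul_sub', S.fc, S.fw]
  · rw [smul_sub', smul_iter g (S.fc g), smul_zero, S.fw]

/-- transitivity on level `n` -/
def Tr (G : Type*) [Group G] [MulSemiringAction G L] (r : L → L) (n : ℕ) (w : L) : Prop :=
  ∀ y ∈ T r n w, ∀ z ∈ T r n w, ∃ g : G, g • y = z

include S in
theorem descend {n : ℕ} (hn : n ≤ B) (hfull : ∀ m < n, Full G r m w)
    (htr : ∀ m < n, Tr G r m w) {u t : L}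
    (hu : ∀ g : G, g • u = u) (htu : t ^ 2 = u) (ht : FixN G r n w t) :
    ∃ A ⊆ Finset.Icc 1 n, ∃ t' : L, (∀ g : G, g • t' = t') ∧
      t' ^ 2 = u * ∏ i ∈ A, bet c w i := by
  classical
  induction n generalizing u t with
  | zero =>
    refine ⟨∅, by simp, t, ?_, by simpa using htu⟩
    intro g
    apply ht
    intro y hy
    rw [mem_T_zero] at hy
    rw [hy, S.fw]
  | succ n ih =>
    rcases S.step_down (by omega) (hfull n (by omega)) (htr n (by omega)) hu htu ht with h | h
    · obtain ⟨A, hA, t', h1, h2⟩ := ih (by omega) (fun m hm => hfull m (by omega))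
        (fun m hm => htr m (by omega)) hu htu h
      exact ⟨A, hA.trans (Finset.Icc_subset_Icc_right (by omega)), t', h1, h2⟩
    · have hsq : (t * ∏ y ∈ T r n w, r y) ^ 2 = u * bet c w (n + 1) := by
        rw [mul_pow, htu, S.prod_sq (by omega)]
      obtain ⟨A, hA, t', h1, h2⟩ := ih (by omega) (fun m hm => hfull m (by omega))
        (fun m hm => htr m (by omega)) (u := u * bet c w (n + 1))
        (fun g => by rw [smul_mul', hu, S.bet_fixed]) hsq h
      have hnA : n + 1 ∉ A := fun h => by
        have := Finset.mem_Icc.mp (hA h); omega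
      refine ⟨insert (n + 1) A, ?_, t', h1, ?_⟩
      · intro i hi
        rcases Finset.mem_insert.mp hi with rfl | hi
        · simp
        · have := Finset.mem_Icc.mp (hA hi)
          exact Finset.mem_Icc.mpr ⟨this.1, by omega⟩
      · rw [h2, Finset.prod_insert hnA]; ring

include S in
theorem prod_symmDiff {n : ℕ} (hn : n < B) {A A' : Finset L} (hA : A ⊆ T r n w)
    (hA' : A' ⊆ T r n w) [DecidableEq L] (h1 : FixN G r n w (∏ y ∈ A, r y))
    (h2 : FixN G r n w (∏ y ∈ A', r y)) : FixN G r n w (∏ y ∈ symmDiff A A', r y) := by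
  intro g hg
  have e1 : (∏ y ∈ A, r y) * (∏ y ∈ A', r y) =
      (∏ y ∈ symmDiff A A', r y) * ∏ y ∈ A ∩ A', (y - c) := by
    have h3 : ∏ y ∈ A, r y = (∏ y ∈ A \ A', r y) * ∏ y ∈ A ∩ A', r y := by
      rw [mul_comm]; exact (Finset.prod_inter_mul_prod_diff A A' r).symm
    have h4 : ∏ y ∈ A', r y = (∏ y ∈ A' \ A, r y) * ∏ y ∈ A ∩ A', r y := by
      rw [mul_comm, Finset.inter_comm]; exact (Finset.prod_inter_mul_prod_diff A' A r).symm
    have h5 : ∏ y ∈ symmDiff A A', r y = (∏ y ∈ A \ A', r y) * ∏ y ∈ A' \ A, r y := by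
      have : symmDiff A A' = (A \ A') ∪ (A' \ A) := rfl
      rw [this, Finset.prod_union]
      rw [Finset.disjoint_left]
      intro a ha hb
      exact (Finset.mem_sdiff.mp ha).2 (Finset.mem_sdiff.mp hb).1
    have h6 : ∏ y ∈ A ∩ A', (y - c) = (∏ y ∈ A ∩ A', r y) * ∏ y ∈ A ∩ A', r y := by
      rw [← Finset.prod_mul_distrib]
      refine Finset.prod_congr rfl fun y hy => ?_
      rw [← S.root n hn y (hA (Finset.mem_inter.mp hy).1)]; ring
    rw [h3, h4, h5, h6]; ring
  have hne : ∏ y ∈ A ∩ A', (y - c) ≠ 0 := by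
    rw [Finset.prod_ne_zero_iff]
    intro y hy
    have hyT := hA (Finset.mem_inter.mp hy).1
    rw [← S.root n hn y hyT]
    exact pow_ne_zero _ (S.nd.ne_zero S.root hn hyT)
  have e2 : g • (∏ y ∈ A ∩ A', (y - c)) = ∏ y ∈ A ∩ A', (y - c) := by
    rw [Finset.smul_prod']
    refine Finset.prod_congr rfl fun y hy => ?_
    rw [smul_sub', hg y (hA (Finset.mem_inter.mp hy).1), S.fc]
  have e3 := congrArg (g • ·) e1
  simp only [smul_mul'] at e3
  rw [h1 g hg, h2 g hg, e2, e1] at e3
  exact (mul_right_cancel₀ hne e3).symm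

include S in
theorem smul_fixN {n : ℕ} (hn : n < B) {A : Finset L} (hA : A ⊆ T r n w) [DecidableEq L]
    (h1 : FixN G r n w (∏ y ∈ A, r y)) (g : G) :
    FixN G r n w (∏ y ∈ A.image (g • ·), r y) := by
  intro ν hν
  have hinj : Set.InjOn (g • · : L → L) A := fun a _ b _ h => MulAction.injective g h
  rw [Finset.prod_image hinj]
  have h2 : g • (∏ y ∈ A, r y) = (∏ y ∈ A, if g • r y = r (g • y) then (1 : L) else -1) *
      ∏ y ∈ A, r (g • y) := by
    rw [Finset.smul_prod', ← Finset.prod_mul_distrib]
    refine Finset.prod_congr rfl fun y hy => ?_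
    split_ifs with h
    · rw [h, one_mul]
    · rw [(S.smul_r hn g (hA hy)).resolve_left h]; ring
  have h3 : (∏ y ∈ A, if g • r y = r (g • y) then (1 : L) else -1) *
      (∏ y ∈ A, if g • r y = r (g • y) then (1 : L) else -1) = 1 := by
    rw [← Finset.prod_mul_distrib]
    apply Finset.prod_eq_one
    intro y _
    split_ifs <;> ring
  have h4 : ∏ y ∈ A, r (g • y) = (∏ y ∈ A, if g • r y = r (g • y) then (1 : L) else -1) *
      g • (∏ y ∈ A, r y) := by
    rw [h2, ← mul_assoc, h3, one_mul]
  have h5 : ∀ a : G, a • (∏ y ∈ A, if g • r y = r (g • y) then (1 : L) else -1) =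
      ∏ y ∈ A, if g • r y = r (g • y) then (1 : L) else -1 := by
    intro a
    rw [Finset.smul_prod']
    refine Finset.prod_congr rfl fun y _ => ?_
    split_ifs
    · exact smul_one _
    · rw [smul_neg, smul_one]
  have h6 : ν • g • (∏ y ∈ A, r y) = g • (∏ y ∈ A, r y) := by
    have h7 : (g⁻¹ * ν * g) • (∏ y ∈ A, r y) = ∏ y ∈ A, r y := by
      apply h1
      intro y hy
      rw [mul_smul, mul_smul, hν _ (S.smul_mem hn.le g hy), inv_smul_smul]
    rw [mul_smul, mul_smul, inv_smul_eq_iff] at h7
    exact h7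
  rw [h4, smul_mul', h5, h6]

include S in
/-- The `p`-group argument. -/
theorem not_fixN_of {n : ℕ} (hn : n < B) [Finite G] (hG : IsPGroup 2 G) (htr : Tr G r n w)
    (hP : ¬ FixN G r n w (∏ y ∈ T r n w, r y)) {A0 : Finset L} (hA0 : A0 ⊆ T r n w)
    (hne : A0.Nonempty) : ¬ FixN G r n w (∏ y ∈ A0, r y) := by
  classical
  intro hfix
  let α := {A : Finset L // A ⊆ T r n w ∧ FixN G r n w (∏ y ∈ A, r y)}
  have hfin : Finite α := by
    apply Finite.of_injective (β := {A : Finset L // A ∈ (T r n w).powerset})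
      (fun a => ⟨a.1, Finset.mem_powerset.mpr a.2.1⟩)
    intro a b h
    exact Subtype.ext (congrArg (fun x : {A : Finset L // A ∈ (T r n w).powerset} => x.1) h)
  letI : Fintype α := Fintype.ofFinite α
  letI act : MulAction G α :=
    { smul := fun g a => ⟨a.1.image (g • ·), by
        refine ⟨?_, S.smul_fixN hn a.2.1 a.2.2 g⟩
        intro y hy
        obtain ⟨z, hz, rfl⟩ := Finset.mem_image.mp hy
        exact S.smul_mem hn.le g (a.2.1 hz)⟩
      one_smul := fun a => Subtype.ext (by
        change a.1.image ((1 : G) • ·) = a.1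
        simp)
      mul_smul := fun g h a => Subtype.ext (by
        change a.1.image ((g * h) • ·) = (a.1.image (h • ·)).image (g • ·)
        rw [Finset.image_image]
        congr 1
        funext y
        simp [mul_smul]) }
  have hsm : ∀ (g : G) (a : α), (g • a).1 = a.1.image (g • ·) := fun g a => rfl
  -- card is even
  have heven : 2 ∣ Nat.card α := by
    let f : Function.End α := fun a => ⟨symmDiff a.1 A0, by
      refine ⟨?_, S.prod_symmDiff hn a.2.1 hA0 a.2.2 hfix⟩
      intro y hy
      rcases Finset.mem_symmDiff.mp hy with h | h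
      · exact a.2.1 h.1
      · exact hA0 h.1⟩
    have hf : f ^ 2 ^ 1 = 1 := by
      funext a
      apply Subtype.ext
      change symmDiff (symmDiff a.1 A0) A0 = a.1
      rw [symmDiff_assoc, symmDiff_self]
      simp
    haveI : Fact (Nat.Prime 2) := ⟨Nat.prime_two⟩
    have h1 := Equiv.Perm.card_fixedPoints_modEq hf
    have h2 : IsEmpty (Function.fixedPoints f) := by
      constructor
      rintro ⟨a, ha⟩
      have h3 : symmDiff a.1 A0 = a.1 := congrArg Subtype.val ha
      have h4 : A0 = ⊥ := by
        have := congrArg (fun s => symmDiff a.1 s) h3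
        simp only [← symmDiff_assoc, symmDiff_self] at this
        simpa using this
      simp only [Finset.bot_eq_empty] at h4
      rw [h4] at hne
      exact Finset.not_nonempty_empty hne
    rw [Fintype.card_eq_zero (α := Function.fixedPoints f)] at h1
    rw [Nat.card_eq_fintype_card]
    exact (Nat.modEq_zero_iff_dvd).mp h1
  have hempty : FixN G r n w (∏ y ∈ (∅ : Finset L), r y) := by
    intro g _
    simp
  let a0 : α := ⟨∅, by simp, hempty⟩
  have ha0 : a0 ∈ MulAction.fixedPoints G α := by
    intro g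
    apply Subtype.ext
    rw [hsm]
    simp [a0]
  haveI : Fact (Nat.Prime 2) := ⟨Nat.prime_two⟩
  obtain ⟨b, hb, hab⟩ := hG.exists_fixed_point_of_prime_dvd_card_of_fixed_point α heven ha0
  have hbne : b.1.Nonempty := by
    rw [Finset.nonempty_iff_ne_empty]
    intro h
    apply hab
    apply Subtype.ext
    rw [h]
  obtain ⟨y0, hy0⟩ := hbne
  have hball : b.1 = T r n w := by
    apply Finset.Subset.antisymm b.2.1
    intro z hz
    obtain ⟨g, rfl⟩ := htr y0 (b.2.1 hy0) z hz
    have h1 := congrArg Subtype.val (hb g)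
    rw [hsm] at h1
    rw [← h1]
    exact Finset.mem_image_of_mem _ hy0
  apply hP
  rw [← hball]
  exact b.2.2

include S in
/-- Linear algebra: independence implies fullness. -/
theorem full_of_ind {n : ℕ} (hn : n < B)
    (h : ∀ A ⊆ T r n w, A.Nonempty → ¬ FixN G r n w (∏ y ∈ A, r y)) : Full G r n w := by
  classical
  let ι := {y : L // y ∈ T r n w}
  have hz2 : ∀ a : ZMod 2, a = 0 ∨ a = 1 := by decide
  let W' : AddSubgroup (ι → ZMod 2) :=
    { carrier := {v | ∃ g : G, (∀ y ∈ T r n w, g • y = y) ∧
        ∀ y : ι, g • r y.1 = if v y = 0 then r y.1 else - r y.1}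
      zero_mem' := ⟨1, by simp, by simp⟩
      add_mem' := by
        rintro v v' ⟨g, hg, h1⟩ ⟨g', hg', h1'⟩
        refine ⟨g * g', fun y hy => by rw [mul_smul, hg' y hy, hg y hy], fun y => ?_⟩
        rw [mul_smul, h1' y]
        have e11 : (1 : ZMod 2) + 1 = 0 := by decide
        rcases hz2 (v y) with hv | hv <;> rcases hz2 (v' y) with hv' | hv' <;>
          simp [hv, hv', h1 y, e11]
      neg_mem' := by
        rintro v ⟨g, hg, h1⟩
        refine ⟨g, hg, fun y => ?_⟩
        have : (-v) y = v y := by
          rcases hz2 (v y) with hv | hv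
          · simp [hv]
          · simp only [Pi.neg_apply, hv]; decide
        rw [this]; exact h1 y }
  let W : Submodule (ZMod 2) (ι → ZMod 2) := AddSubgroup.toZModSubmodule 2 W'
  have hWmem : ∀ v, v ∈ W ↔ ∃ g : G, (∀ y ∈ T r n w, g • y = y) ∧
        ∀ y : ι, g • r y.1 = if v y = 0 then r y.1 else - r y.1 := fun v => Iff.rfl
  have hWtop : W = ⊤ := by
    by_contra hW
    obtain ⟨f, hf0, hf⟩ := Submodule.exists_le_ker_of_lt_top W (lt_top_iff_ne_top.mpr hW)
    let A : Finset L := (T r n w).attach.filter (fun y => f (Pi.single y 1) ≠ 0) |>.image Subtype.val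
    have hAT : A ⊆ T r n w := by
      intro y hy
      obtain ⟨z, _, rfl⟩ := Finset.mem_image.mp hy
      exact z.2
    have hmemA : ∀ y : ι, y.1 ∈ A ↔ f (Pi.single y 1) ≠ 0 := by
      intro y
      constructor
      · intro hy
        obtain ⟨z, hz, hzy⟩ := Finset.mem_image.mp hy
        have : z = y := Subtype.ext hzy
        rw [← this]; exact (Finset.mem_filter.mp hz).2
      · intro hy
        exact Finset.mem_image.mpr ⟨y, Finset.mem_filter.mpr ⟨Finset.mem_attach _ _, hy⟩, rfl⟩
    have hfsum : ∀ v : ι → ZMod 2, f v = ∑ y : ι, v y * f (Pi.single y 1) := by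
      intro v
      conv_lhs => rw [← Finset.univ_sum_single v]
      rw [map_sum]
      refine Finset.sum_congr rfl fun y _ => ?_
      have : (Pi.single y (v y) : ι → ZMod 2) = v y • Pi.single y 1 := by
        rw [← Pi.single_smul, smul_eq_mul, mul_one]
      rw [this, map_smul, smul_eq_mul]
    have hAne : A.Nonempty := by
      by_contra hA
      rw [Finset.not_nonempty_iff_eq_empty] at hA
      apply hf0
      ext v
      simp only [LinearMap.coe_comp, LinearMap.coe_single, Function.comp_apply,
        LinearMap.zero_comp, LinearMap.zero_apply]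
      by_contra hne
      have := (hmemA v).mpr hne
      rw [hA] at this
      exact absurd this (Finset.notMem_empty _)
    apply h A hAT hAne
    intro g hg
    let v : ι → ZMod 2 := fun y => if g • r y.1 = r y.1 then 0 else 1
    have hv : v ∈ W := by
      rw [hWmem]
      refine ⟨g, hg, fun y => ?_⟩
      by_cases hy : g • r y.1 = r y.1
      · simp [v, hy]
      · have h1 := S.smul_r hn g y.2
        rw [hg y.1 y.2] at h1
        simp [v, hy, h1.resolve_left hy]
    have hfv : f v = 0 := LinearMap.mem_ker.mp (hf hv)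
    rw [hfsum] at hfv
    -- product formula
    have hprod : ∀ s : Finset ι, (∏ y ∈ s, if v y = 0 then (1 : L) else -1) =
        if (∑ y ∈ s, v y) = 0 then 1 else -1 := by
      intro s
      induction s using Finset.induction_on with
      | empty => simp
      | insert a s ha ih =>
        rw [Finset.prod_insert ha, Finset.sum_insert ha, ih]
        have e11 : (1 : ZMod 2) + 1 = 0 := by decide
        have e10 : (1 : ZMod 2) ≠ 0 := by decide
        rcases hz2 (v a) with h1 | h1
        · rw [h1, zero_add, if_pos rfl, one_mul]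
        · rcases hz2 (∑ y ∈ s, v y) with h2 | h2
          · rw [h1, h2, add_zero, if_neg e10, if_pos rfl, mul_one]
          · rw [h1, h2, e11, if_neg e10, if_pos rfl]; ring
    have hsum : ∑ y ∈ (T r n w).attach.filter (fun y => f (Pi.single y 1) ≠ 0), v y = 0 := by
      have e : ∑ y : ι, v y * f (Pi.single y 1) =
          ∑ y ∈ (T r n w).attach.filter (fun y => f (Pi.single y 1) ≠ 0), v y := by
        rw [Finset.sum_filter]
        have : (Finset.univ : Finset ι) = (T r n w).attach := by
          ext y; exact ⟨fun _ => Finset.mem_attach _ _, fun _ => Finset.mem_univ _⟩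
        rw [this]
        refine Finset.sum_congr rfl fun y _ => ?_
        rcases hz2 (f (Pi.single y 1)) with h1 | h1
        · simp [h1]
        · simp [h1]
      rw [← e]; exact hfv
    have hPA : ∏ y ∈ A, r y = ∏ y ∈ (T r n w).attach.filter (fun y => f (Pi.single y 1) ≠ 0),
        r y.1 := by
      rw [Finset.prod_image]
      intro a _ b _ hab
      exact Subtype.ext hab
    rw [hPA, Finset.smul_prod']
    have h3 : ∏ y ∈ (T r n w).attach.filter (fun y => f (Pi.single y 1) ≠ 0), g • r y.1 =
        (∏ y ∈ (T r n w).attach.filter (fun y => f (Pi.single y 1) ≠ 0),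
          if v y = 0 then (1 : L) else -1) *
        ∏ y ∈ (T r n w).attach.filter (fun y => f (Pi.single y 1) ≠ 0), r y.1 := by
      rw [← Finset.prod_mul_distrib]
      refine Finset.prod_congr rfl fun y _ => ?_
      by_cases hy : g • r y.1 = r y.1
      · simp [v, hy]
      · have h1 := S.smul_r hn g y.2
        rw [hg y.1 y.2] at h1
        simp [v, hy, h1.resolve_left hy]
    rw [h3, hprod, hsum, if_pos rfl, one_mul]
  -- conclusion
  intro A hA
  let v : ι → ZMod 2 := fun y => if y.1 ∈ A then 1 else 0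
  have hv : v ∈ W := by rw [hWtop]; trivial
  obtain ⟨g, hg, h1⟩ := (hWmem v).mp hv
  refine ⟨g, hg, fun y hy => ⟨fun hyA => ?_, fun hyA => ?_⟩⟩
  · have := h1 ⟨y, hy⟩
    simpa [v, hyA] using this
  · have := h1 ⟨y, hy⟩
    simpa [v, hyA] using this

include S in
theorem tr_succ {n : ℕ} (hn : n < B) (hfull : Full G r n w) (htr : Tr G r n w) :
    Tr G r (n + 1) w := by
  classical
  intro y hy z hz
  obtain ⟨g, hg⟩ := htr _ (S.root.parent hn hy) _ (S.root.parent hn hz)
  have h1 : qm c (g • y) = qm c z := by rw [← smul_qm g (S.fc g), hg]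
  have h2 : (g • y) ^ 2 = z ^ 2 := by simpa [qm] using h1
  rcases sq_eq_sq_iff_eq_or_eq_neg.mp h2 with h3 | h3
  · exact ⟨g, h3⟩
  · obtain ⟨x, hx, hzx⟩ := mem_T_succ.mp hz
    obtain ⟨g', _, h5⟩ := hfull {x} (by simpa using hx)
    have h6 := (h5 x hx).1 (by simp)
    refine ⟨g' * g, ?_⟩
    rw [mul_smul, h3]
    rcases hzx with rfl | rfl
    · rw [smul_neg, h6, neg_neg]
    · rw [neg_neg, h6]

/-- Independence of the critical values (in the field fixed by `G`). -/
def Ind (G : Type*) [Group G] [MulSemiringAction G L] (c w : L) (B : ℕ) : Prop :=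
  ∀ A ⊆ Finset.Icc 1 B, A.Nonempty → ¬ ∃ t : L, (∀ g : G, g • t = t) ∧
    t ^ 2 = ∏ i ∈ A, bet c w i

include S in
/-- Stoll's criterion. -/
theorem full_all [Finite G] (hG : IsPGroup 2 G) (hI : Ind G c w B) :
    ∀ n < B, Full G r n w := by
  classical
  have key : ∀ n ≤ B, (∀ m < n, Full G r m w) ∧ (∀ m ≤ n, Tr G r m w) := by
    intro n
    induction n with
    | zero =>
      intro _
      refine ⟨by simp, fun m hm => ?_⟩
      have : m = 0 := by omega
      subst this
      intro y hy z hz
      rw [mem_T_zero] at hy hz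
      exact ⟨1, by rw [hy, hz, one_smul]⟩
    | succ n ih =>
      intro hn
      obtain ⟨h1, h2⟩ := ih (by omega)
      have hfull : Full G r n w := by
        apply S.full_of_ind (by omega)
        intro A hA hAne
        refine S.not_fixN_of (by omega) hG (h2 n le_rfl) ?_ hA hAne
        intro hP
        obtain ⟨A', hA', t', ht', ht2⟩ := S.descend (by omega) h1 (fun m hm => h2 m hm.le)
          (S.bet_fixed (n + 1)) (S.prod_sq (by omega)) hP
        have hnA : n + 1 ∉ A' := fun h => by
          have := Finset.mem_Icc.mp (hA' h); omega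
        apply hI (insert (n + 1) A')
        · intro i hi
          rcases Finset.mem_insert.mp hi with rfl | hi
          · exact Finset.mem_Icc.mpr ⟨by omega, hn⟩
          · have := Finset.mem_Icc.mp (hA' hi)
            exact Finset.mem_Icc.mpr ⟨this.1, by omega⟩
        · exact Finset.insert_nonempty _ _
        · exact ⟨t', ht', by rw [ht2, Finset.prod_insert hnA]⟩
      refine ⟨fun m hm => ?_, fun m hm => ?_⟩
      · rcases Nat.lt_succ_iff_lt_or_eq.mp hm with h | h
        · exact h1 m h
        · rw [h]; exact hfull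
      · rcases Nat.le_succ_iff.mp hm with h | h
        · exact h2 m h
        · rw [h]; exact S.tr_succ (by omega) hfull (h2 n le_rfl)
  intro n hn
  exact (key B le_rfl).1 n hn

end Setup

end Pool.Agent.Arb
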