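import Pool.Agent.Arb.Lift

/-!
# Local obstructions: an automorphism of a larger field without fixed points in the trees
-/

set_option autoImplicit false

open IsDedekindDomain NumberField IntermediateField

namespace Pool.Agent.Arb

theorem exists_tower {K : Type*} [Field K] [NumberField K] (c : K) (Γ : Finset K) (n1 : ℕ) :
    ∃ L : IntermediateField K (AlgebraicClosure K), FiniteDimensional K L ∧ IsGalois K L ∧
      (∃ r : L → L, ∀ γ ∈ Γ, ∀ n ≤ n1, Root (algebraMap K L c) r n (algebraMap K L γ)) ∧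
      ∀ g : L ≃ₐ[K] L, g ^ (2 ^ n1) = 1 := by
  classical
  let Ω := AlgebraicClosure K
  let c' : Ω := algebraMap K Ω c
  choose r hr using fun y : Ω => IsAlgClosed.exists_pow_nat_eq (y - c') (n := 2) (by norm_num)
  have hqr : ∀ y : Ω, qm c' (r y) = y := fun y => by simp only [qm]; rw [hr]; ring
  have hrootΩ : ∀ n w, Root c' r n w := fun _ _ _ _ y _ => hr y
  let S1 : Finset Ω := Γ.biUnion fun γ => T r n1 (algebraMap K Ω γ)
  let L : IntermediateField K Ω := adjoin K (S1 : Set Ω)
  have hLfd : FiniteDimensional K L :=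
    IntermediateField.finiteDimensional_adjoin fun x _ => Algebra.IsIntegral.isIntegral x
  have hinjL : Function.Injective (algebraMap L Ω) := (algebraMap L Ω).injective
  have hcL : algebraMap L Ω (algebraMap K L c) = c' :=
    (IsScalarTower.algebraMap_apply K L Ω c).symm
  have hγL : ∀ γ, algebraMap L Ω (algebraMap K L γ) = algebraMap K Ω γ := fun γ =>
    (IsScalarTower.algebraMap_apply K L Ω γ).symm
  have hiterL : ∀ (n : ℕ) (x : L), algebraMap L Ω ((qm (algebraMap K L c))^[n] x) =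
      (qm c')^[n] (algebraMap L Ω x) := fun n x => by rw [map_iterR, hcL]
  have hlift : ∀ (k : ℕ) (y : Ω), ∃ y', (qm c')^[k] y' = y := by
    intro k
    induction k with
    | zero => intro y; exact ⟨y, rfl⟩
    | succ k ih =>
      intro y
      obtain ⟨z, hz⟩ := ih y
      exact ⟨r z, by rw [Function.iterate_succ_apply, hqr, hz]⟩
  have hmemL : ∀ γ ∈ Γ, ∀ j ≤ n1, ∀ y : Ω, (qm c')^[j] y = algebraMap K Ω γ → y ∈ L := by
    intro γ hγ j hj y hy
    obtain ⟨y', hy'⟩ := hlift (n1 - j) y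
    have h3 : (qm c')^[n1] y' = algebraMap K Ω γ := by
      rw [← hy, ← hy', ← Function.iterate_add_apply]
      congr 1
      rw [Nat.add_sub_cancel' hj]
    have h4 : y' ∈ L := by
      apply subset_adjoin
      rw [Finset.mem_coe, Finset.mem_biUnion]
      exact ⟨γ, hγ, (hrootΩ n1 _).mem_of_iter le_rfl h3⟩
    have h5 := hiterL (n1 - j) ⟨y', h4⟩
    have h6 : algebraMap L Ω ⟨y', h4⟩ = y' := rfl
    rw [h6, hy'] at h5
    rw [← h5]
    exact SetLike.coe_mem _
  let rL : L → L := fun y => if h : r (algebraMap L Ω y) ∈ L then ⟨_, h⟩ else 0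
  have hrootL : ∀ γ ∈ Γ, ∀ n ≤ n1, Root (algebraMap K L c) rL n (algebraMap K L γ) := by
    intro γ hγ n
    induction n with
    | zero => intro _ k hk; omega
    | succ n ih =>
      intro hn k hk y hy
      have ih' := ih (by omega)
      rcases Nat.lt_succ_iff_lt_or_eq.mp hk with hk' | rfl
      · exact ih' k hk' y hy
      · have h3 := ih'.iter le_rfl hy
        have h4 := congrArg (algebraMap L Ω) h3
        rw [hiterL, hγL] at h4
        have h5 : r (algebraMap L Ω y) ∈ L := by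
          apply hmemL γ hγ (k + 1) hn
          rw [Function.iterate_succ_apply, hqr, h4]
        have h6 : rL y = ⟨_, h5⟩ := dif_pos h5
        apply hinjL
        rw [h6, map_pow, map_sub, hcL, ← hr]
        rfl
  have hnorm : Normal K L := by
    rw [IntermediateField.normal_iff_forall_map_le]
    intro σ
    rw [IntermediateField.adjoin_map, adjoin_le_iff]
    rintro _ ⟨y, hy, rfl⟩
    rw [Finset.mem_coe, Finset.mem_biUnion] at hy
    obtain ⟨γ, hγ, hy⟩ := hy
    apply hmemL γ hγ n1 le_rfl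
    have h3 := (hrootΩ n1 _).iter le_rfl hy
    have h4 := congrArg σ h3
    have h5 := map_iterR (σ : Ω →+* Ω) c' y n1
    have h6 : (σ : Ω →+* Ω) c' = c' := σ.commutes c
    rw [h6] at h5
    rw [σ.commutes] at h4
    rw [← h4]
    exact h5.symm
  have hgal : IsGalois K L := ⟨⟩
  have hpow : ∀ g : L ≃ₐ[K] L, g ^ (2 ^ n1) = 1 := by
    intro g
    have h3 : ∀ γ ∈ Γ, ∀ j ≤ n1, ∀ y : L, (qm (algebraMap K L c))^[j] y = algebraMap K L γ →
        (g ^ (2 ^ j)) y = y := by
      intro γ hγ j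
      induction j with
      | zero =>
        intro _ y hy
        have : y = algebraMap K L γ := hy
        rw [this, AlgEquiv.commutes]
      | succ j ih =>
        intro hj y hy
        rw [Function.iterate_succ_apply] at hy
        have h4 := ih (by omega) _ hy
        set f := g ^ (2 ^ j) with hf
        have h5 : (f y) ^ 2 = y ^ 2 := by
          have h6 : f (qm (algebraMap K L c) y) = (f y) ^ 2 + algebraMap K L c := by
            simp only [qm]
            rw [map_add, map_pow, AlgEquiv.commutes]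
          rw [h6] at h4
          simpa [qm] using h4
        have h7 : g ^ (2 ^ (j + 1)) = f * f := by
          rw [hf, ← pow_add, pow_succ]; congr 1; ring
        rw [h7]
        change f (f y) = y
        rcases sq_eq_sq_iff_eq_or_eq_neg.mp h5 with h | h
        · rw [h, h]
        · rw [h, map_neg, h, neg_neg]
    have h4 : ∀ (x : Ω) (hx : x ∈ L), (g ^ (2 ^ n1)) ⟨x, hx⟩ = ⟨x, hx⟩ := by
      intro x hx
      induction hx using IntermediateField.adjoin_induction with
      | mem x hx =>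
        rw [Finset.mem_coe, Finset.mem_biUnion] at hx
        obtain ⟨γ, hγ, hx⟩ := hx
        apply h3 γ hγ n1 le_rfl
        apply hinjL
        rw [hiterL, hγL]
        exact (hrootΩ n1 _).iter le_rfl hx
      | algebraMap x => exact AlgEquiv.commutes _ x
      | add x y hx hy h1 h2 =>
        have e : (⟨x + y, add_mem hx hy⟩ : L) = ⟨x, hx⟩ + ⟨y, hy⟩ := rfl
        rw [e, map_add, h1, h2]
      | inv x hx h1 =>
        have e : (⟨x⁻¹, inv_mem hx⟩ : L) = (⟨x, hx⟩ : L)⁻¹ := rfl
        rw [e, map_inv₀, h1]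
      | mul x y hx hy h1 h2 =>
        have e : (⟨x * y, mul_mem hx hy⟩ : L) = ⟨x, hx⟩ * ⟨y, hy⟩ := rfl
        rw [e, map_mul, h1, h2]
    ext x
    exact congrArg Subtype.val (h4 x.1 x.2)
  exact ⟨L, hLfd, hgal, ⟨rL, hrootL⟩, hpow⟩

/-- Obstruction principle. -/
theorem infinite_of_obstruction {K : Type*} [Field K] [NumberField K] (c : K) (Γ : Finset K)
    (n1 : ℕ) {Ω' : Type*} [Field Ω'] [IsAlgClosed Ω'] [Algebra K Ω'] (τ : Ω' ≃ₐ[K] Ω')
    (h : ∀ γ ∈ Γ, ∀ y : Ω', (qm (algebraMap K Ω' c))^[n1] y = algebraMap K Ω' γ → τ y ≠ y) :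
    {v : HeightOneSpectrum (𝓞 K) | v.valuation K c ≤ 1 ∧ ∀ γ ∈ Γ, v.valuation K γ ≤ 1 ∧
      ∀ n, 0 < n → ¬ v.valuation K ((qm c)^[n] γ - γ) < 1}.Infinite := by
  classical
  obtain ⟨L, hfd, hgal, ⟨r, hr⟩, hpow⟩ := exists_tower c Γ n1
  have hLnf : NumberField L := NumberField.of_module_finite K _
  let ι : L →ₐ[K] Ω' := IsAlgClosed.lift
  let _ : Algebra L Ω' := ι.toRingHom.toAlgebra
  have hst : IsScalarTower K L Ω' := IsScalarTower.of_algebraMap_eq fun x => (ι.commutes x).symm
  let g : L ≃ₐ[K] L := AlgEquiv.restrictNormal τ L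
  have hg : ∀ x : L, algebraMap L Ω' (g x) = τ (algebraMap L Ω' x) := fun x =>
    AlgEquiv.restrictNormal_commutes τ L x
  refine infinite_of_auto c Γ r n1 (fun γ hγ => hr γ hγ n1 le_rfl) g n1 (hpow g) ?_
  intro γ hγ y hy hgy
  have h3 := (hr γ hγ n1 le_rfl).iter le_rfl hy
  have h4 := congrArg (algebraMap L Ω') h3
  rw [map_iterR, ← IsScalarTower.algebraMap_apply, ← IsScalarTower.algebraMap_apply] at h4
  apply h γ hγ _ h4
  rw [← hg, hgy]

/-! ### The real place -/

theorem real_iter {c : ℝ} {n : ℕ} {y γ : ℝ} (h : (fun x : ℝ => x ^ 2 + c)^[n] y = γ) :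
    y + n * (c - 1 / 4) ≤ γ := by
  induction n generalizing y with
  | zero => simp at h; simp [h]
  | succ n ih =>
    rw [Function.iterate_succ_apply] at h
    have := ih h
    push_cast
    nlinarith [sq_nonneg (y - 1 / 2)]

theorem infinite_of_real {K : Type*} [Field K] [NumberField K] (c : K) (ρ : K →+* ℝ)
    (hρ : 1 / 4 < ρ c) (Γ : Finset K) :
    {v : HeightOneSpectrum (𝓞 K) | v.valuation K c ≤ 1 ∧ ∀ γ ∈ Γ, v.valuation K γ ≤ 1 ∧
      ∀ n, 0 < n → ¬ v.valuation K ((qm c)^[n] γ - γ) < 1}.Infinite := by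
  classical
  let _ : Algebra K ℂ := (Complex.ofRealHom.comp ρ).toAlgebra
  have halg : ∀ x : K, algebraMap K ℂ x = ((ρ x : ℝ) : ℂ) := fun x => rfl
  let τ : ℂ ≃ₐ[K] ℂ := AlgEquiv.ofRingEquiv (f := (starRingAut : ℂ ≃+* ℂ)) (by
    intro x
    rw [halg]
    exact Complex.conj_ofReal _)
  have hτ : ∀ z : ℂ, τ z = (starRingEnd ℂ) z := fun z => rfl
  have hd : 0 < ρ c - 1 / 4 := by linarith
  -- a large level
  have hlev : ∀ γ ∈ Γ, ∃ m : ℕ, ∀ n ≥ m, ρ γ < ρ c + (n - 1 : ℝ) * (ρ c - 1 / 4) := by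
    intro γ _
    obtain ⟨m, hm⟩ := exists_nat_gt ((ρ γ - ρ c) / (ρ c - 1 / 4) + 1)
    refine ⟨m, fun n hn => ?_⟩
    have h1 : (m : ℝ) ≤ n := by exact_mod_cast hn
    have h2 : (ρ γ - ρ c) / (ρ c - 1 / 4) < n - 1 := by linarith
    rw [div_lt_iff₀ hd] at h2
    linarith
  choose! m hm using hlev
  refine infinite_of_obstruction c Γ (1 + ∑ γ ∈ Γ, m γ) τ ?_
  intro γ hγ y hy hfix
  set n := ∑ γ ∈ Γ, m γ with hn
  have hmn : m γ ≤ n := Finset.single_le_sum (f := m) (fun _ _ => Nat.zero_le _) hγ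
  rw [hτ, Complex.conj_eq_iff_real] at hfix
  obtain ⟨t, rfl⟩ := hfix
  have hcast : ∀ (k : ℕ) (t : ℝ), (qm (algebraMap K ℂ c))^[k] (t : ℂ) =
      (((fun x : ℝ => x ^ 2 + ρ c)^[k] t : ℝ) : ℂ) := by
    intro k
    induction k with
    | zero => intro t; rfl
    | succ k ih =>
      intro t
      rw [Function.iterate_succ_apply, Function.iterate_succ_apply, ← ih]
      congr 1
      simp [qm, halg]
  rw [hcast, halg] at hy
  have hy' := Complex.ofReal_injective hy
  rw [add_comm, Function.iterate_succ_apply] at hy'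
  have h1 := real_iter hy'
  have h2 := hm γ hγ (n + 1) (by omega)
  push_cast at h2
  nlinarith [sq_nonneg t]

/-! ### The nonarchimedean obstruction -/

section NA

variable {F : Type*} [Field F] (A : AbsoluteValue F ℝ) (hA : IsNonarchimedean A)

include hA in
theorem A_sub_le (x y : F) : A (x - y) ≤ max (A x) (A y) := by
  have := hA x (-y)
  rwa [← sub_eq_add_neg, AbsoluteValue.map_neg] at this

include hA in
theorem A_add_eq {x y : F} (h : A y < A x) : A (x + y) = A x := by
  apply le_antisymm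
  · exact (hA x y).trans (max_le le_rfl h.le)
  · have h1 : x = (x + y) - y := by ring
    have h2 := A_sub_le A hA (x + y) y
    rw [← h1] at h2
    rcases le_max_iff.mp h2 with h3 | h3
    · exact h3
    · exact absurd h3 (not_le.mpr h)

include hA in
theorem A_grow {c y : F} (h1 : 1 < A c) (hy : A c < A y) (n : ℕ) :
    A c < A ((qm c)^[n] y) ∧ A ((qm c)^[n] y) = A y ^ 2 ^ n := by
  induction n generalizing y with
  | zero => simpa using hy
  | succ n ih =>
    rw [Function.iterate_succ_apply]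
    have h2 : A c < A (y ^ 2) := by
      rw [map_pow]; nlinarith
    have h3 : A (qm c y) = A y ^ 2 := by
      simp only [qm]
      rw [A_add_eq A hA h2, map_pow]
    have h4 : A c < A (qm c y) := by rw [h3, ← map_pow]; exact h2
    obtain ⟨h5, h6⟩ := ih h4
    refine ⟨h5, ?_⟩
    rw [h6, h3, ← pow_mul]
    congr 1; ring

include hA in
/-- an automorphism moving `√(-c)` has no fixed points high up in the trees -/
theorem NA_obstr {c s : F} (τ : F ≃+* F) (hτ : ∀ x, A (τ x) = A x) (hs : s ^ 2 = -c)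
    (hτs : τ s = -s) (h16 : 1 < A (16 * c)) (γ : F) :
    ∃ m : ℕ, ∀ n ≥ m, ∀ y : F, (qm c)^[n] y = γ → τ y ≠ y := by
  have hA16 : A 16 ≤ 1 := by
    have h := hA.apply_natCast_le_one (n := 16)
    simpa using h
  have h1 : 1 < A c := by
    rw [map_mul] at h16
    have h0 : 0 ≤ A c := AbsoluteValue.nonneg A c
    nlinarith
  obtain ⟨m, hm⟩ := pow_unbounded_of_one_lt (A γ) h1
  refine ⟨m + 2, fun n hn y hy hfix => ?_⟩
  -- two steps below
  have h2 : A (qm c (qm c y)) ≤ A c := by
    by_contra hcon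
    push Not at hcon
    obtain ⟨k, rfl⟩ : ∃ k, n = k + 2 := ⟨n - 2, by omega⟩
    rw [Function.iterate_add_apply] at hy
    have h3 := (A_grow A hA h1 hcon k).2
    have e : (qm c)^[2] y = qm c (qm c y) := rfl
    rw [← e, hy] at h3
    rw [e] at h3
    have h4 : A c ^ 2 ^ k < A (qm c (qm c y)) ^ 2 ^ k :=
      pow_lt_pow_left₀ hcon (AbsoluteValue.nonneg A c) (by positivity)
    have h5 : A c ^ m ≤ A c ^ 2 ^ k := by
      apply pow_le_pow_right₀ h1.le
      have : k < 2 ^ k := Nat.lt_two_pow_self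
      omega
    linarith
  have h3 : A (qm c y) ^ 2 ≤ A c := by
    have e : (qm c y) ^ 2 = qm c (qm c y) - c := by simp only [qm]; ring
    rw [← map_pow, e]
    exact (A_sub_le A hA _ _).trans (max_le h2 le_rfl)
  have e1 : (y - s) * (y + s) = qm c y := by
    simp only [qm]; linear_combination -hs
  have e2 : A (y - s) = A (y + s) := by
    rw [← hτ (y - s), map_sub, hfix, hτs, sub_neg_eq_add]
  have e3 : A (y + s) ^ 2 = A (qm c y) := by
    rw [← e1, map_mul, e2, sq]
  have e4 : A (2 * s) ≤ A (y + s) := by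
    have e : 2 * s = (y + s) - (y - s) := by ring
    rw [e]
    refine (A_sub_le A hA _ _).trans (max_le le_rfl e2.le)
  have e5 : A (2 * s) ^ 4 = A (16 * c) * A c := by
    have e : (2 * s) ^ 4 = 16 * c * c := by
      calc (2 * s) ^ 4 = 16 * (s ^ 2) ^ 2 := by ring
        _ = 16 * c * c := by rw [hs]; ring
    rw [← map_pow, e, map_mul]
  have e6 : A (2 * s) ^ 4 ≤ A c := by
    calc A (2 * s) ^ 4 ≤ A (y + s) ^ 4 :=
          pow_le_pow_left₀ (AbsoluteValue.nonneg A _) e4 4
      _ = (A (y + s) ^ 2) ^ 2 := by ring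
      _ = A (qm c y) ^ 2 := by rw [e3]
      _ ≤ A c := h3
  rw [e5] at e6
  nlinarith

end NA

open Polynomial in
theorem NA_full {F0 : Type*} [NontriviallyNormedField F0] [IsUltrametricDist F0]
    [CompleteSpace F0] (c : F0) (h16 : 1 < ‖16 * c‖) (hns : ¬ IsSquare (-c)) :
    ∃ τ : AlgebraicClosure F0 ≃ₐ[F0] AlgebraicClosure F0, ∀ γ : F0, ∃ m : ℕ, ∀ n ≥ m,
      ∀ y : AlgebraicClosure F0, (qm (algebraMap F0 _ c))^[n] y = algebraMap F0 _ γ →
        τ y ≠ y := by
  classical
  let Ω := AlgebraicClosure F0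
  obtain ⟨s, hs⟩ := IsAlgClosed.exists_pow_nat_eq (-(algebraMap F0 Ω c)) (n := 2) (by norm_num)
  have hirr : Irreducible (X ^ 2 - C (-c) : F0[X]) := by
    apply X_pow_sub_C_irreducible_of_prime Nat.prime_two
    intro b hb
    exact hns ⟨b, by rw [← hb, sq]⟩
  have hmon : (X ^ 2 - C (-c) : F0[X]).Monic := monic_X_pow_sub_C _ (by norm_num)
  have hmin : ∀ t : Ω, t ^ 2 = -(algebraMap F0 Ω c) →
      minpoly F0 t = (X ^ 2 - C (-c) : F0[X]) := by
    intro t ht
    symm
    apply minpoly.eq_of_irreducible_of_monic hirr _ hmon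
    simp [ht]
  have hmm : minpoly F0 (-s) = minpoly F0 s := by
    rw [hmin s hs, hmin (-s) (by rw [neg_sq, hs])]
  obtain ⟨τ, hτ⟩ := (Normal.minpoly_eq_iff_mem_orbit Ω).mp hmm
  have hτ' : τ s = -s := hτ
  let A : AbsoluteValue Ω ℝ :=
    { toFun := spectralNorm F0 Ω
      map_mul' := fun x y => by
        simp only [← spectralMulAlgNorm_def, map_mul]
      nonneg' := fun x => spectralNorm_nonneg x
      eq_zero' := fun x => ⟨fun h => eq_zero_of_map_spectralNorm_eq_zero h
        (Algebra.IsAlgebraic.isAlgebraic x), fun h => by rw [h]; exact spectralNorm_zero⟩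
      add_le' := fun x y => IsNonarchimedean.add_le spectralNorm_nonneg
        isNonarchimedean_spectralNorm }
  have hAdef : ∀ x, A x = spectralNorm F0 Ω x := fun x => rfl
  have hA : IsNonarchimedean A := isNonarchimedean_spectralNorm (K := F0) (L := Ω)
  refine ⟨τ, fun γ => ?_⟩
  have h16' : 1 < A (16 * algebraMap F0 Ω c) := by
    have e : 16 * algebraMap F0 Ω c = algebraMap F0 Ω (16 * c) := by
      rw [map_mul, map_ofNat]
    rw [hAdef, e, spectralNorm_extends]
    exact h16
  have h5 := NA_obstr A hA (τ : Ω ≃+* Ω) (fun x => by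
    rw [hAdef, hAdef]; exact (spectralNorm_eq_of_equiv τ x).symm) hs hτ' h16'
    (algebraMap F0 Ω γ)
  exact h5

open scoped Valued in
theorem infinite_of_nonsquare {K : Type*} [Field K] [NumberField K] (c : K)
    (v : HeightOneSpectrum (𝓞 K)) (h16 : 1 < v.valuation K (16 * c))
    (hns : ¬ IsSquare (algebraMap K (v.adicCompletion K) (-c))) (Γ : Finset K) :
    {v : HeightOneSpectrum (𝓞 K) | v.valuation K c ≤ 1 ∧ ∀ γ ∈ Γ, v.valuation K γ ≤ 1 ∧
      ∀ n, 0 < n → ¬ v.valuation K ((qm c)^[n] γ - γ) < 1}.Infinite := by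
  classical
  have hnorm : 1 < ‖(16 * algebraMap K (v.adicCompletion K) c)‖ := by
    rw [Valued.toNormedField.one_lt_norm_iff]
    have e : 16 * algebraMap K (v.adicCompletion K) c =
        algebraMap K (v.adicCompletion K) (16 * c) := by
      rw [map_mul, map_ofNat]
    rw [e]
    have h := v.valuedAdicCompletion_eq_valuation' (K := K) (16 * c)
    exact h ▸ h16
  rw [map_neg] at hns
  obtain ⟨τ, hτ⟩ := NA_full (algebraMap K (v.adicCompletion K) c) hnorm hns
  have hlev : ∀ γ : K, ∃ m : ℕ, ∀ n ≥ m, ∀ y : AlgebraicClosure (v.adicCompletion K),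
      (qm (algebraMap K _ c))^[n] y = algebraMap K _ γ → τ y ≠ y := by
    intro γ
    obtain ⟨m, hm⟩ := hτ (algebraMap K (v.adicCompletion K) γ)
    refine ⟨m, fun n hn y hy => hm n hn y ?_⟩
    rw [IsScalarTower.algebraMap_apply K (v.adicCompletion K) (AlgebraicClosure _),
      IsScalarTower.algebraMap_apply K (v.adicCompletion K) (AlgebraicClosure _)] at hy
    exact hy
  choose m hm using hlev
  refine infinite_of_obstruction c Γ (∑ γ ∈ Γ, m γ) (τ.restrictScalars K) ?_
  intro γ hγ y hy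
  exact hm γ _ (Finset.single_le_sum (f := m) (fun _ _ => Nat.zero_le _) hγ) y hy

end Pool.Agent.Arb
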