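import Pool.Agent.Arb.Final

/-!
# The rational case
-/

set_option autoImplicit false

open IsDedekindDomain NumberField

namespace Pool.Agent.Arb

theorem inj_of_den {c : ℚ} (h : c.den ≠ 1) : Function.Injective fun n : ℕ => (qm c)^[n] 0 := by
  obtain ⟨p, hp, hpd⟩ := Nat.exists_prime_and_dvd h
  have : Fact p.Prime := ⟨hp⟩
  have hc0 : c ≠ 0 := by
    rintro rfl; simp at h
  have hc : padicValRat p c < 0 := by
    rw [padicValRat_def]
    have h1 : padicValInt p c.num = 0 := by
      apply padicValInt.eq_zero_of_not_dvd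
      intro h2
      have h3 : p ∣ c.num.natAbs := Int.natCast_dvd.mp h2
      have h4 := Nat.dvd_gcd h3 hpd
      rw [c.reduced.gcd_eq_one] at h4
      exact hp.one_lt.ne' (Nat.dvd_one.mp h4)
    have h2 : 1 ≤ padicValNat p c.den := one_le_padicValNat_of_dvd c.den_nz hpd
    rw [h1]
    have : (1 : ℤ) ≤ padicValNat p c.den := by exact_mod_cast h2
    simp only [Nat.cast_zero, zero_sub]
    omega
  have key : ∀ n : ℕ, (qm c)^[n + 1] 0 ≠ 0 ∧
      padicValRat p ((qm c)^[n + 1] 0) = 2 ^ n * padicValRat p c := by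
    intro n
    induction n with
    | zero =>
      have : (qm c)^[0 + 1] 0 = c := by simp [qm]
      rw [this]; exact ⟨hc0, by simp⟩
    | succ n ih =>
      obtain ⟨ih1, ih2⟩ := ih
      rw [Function.iterate_succ_apply']
      set x := (qm c)^[n + 1] 0 with hx
      have h3 : padicValRat p (x ^ 2) = 2 ^ (n + 1) * padicValRat p c := by
        rw [padicValRat.pow, ih2, pow_succ]; push_cast; ring
      have h4 : padicValRat p (x ^ 2) < padicValRat p c := by
        rw [h3]
        have : (2 : ℤ) ≤ 2 ^ (n + 1) := by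
          have h5 : (1 : ℤ) ≤ 2 ^ n := one_le_pow₀ (by norm_num)
          rw [pow_succ]; linarith
        nlinarith
      have h6 : x ^ 2 + c ≠ 0 := by
        intro h7
        have h8 : x ^ 2 = -c := by linarith
        rw [h8, padicValRat.neg] at h4
        exact lt_irrefl _ h4
      refine ⟨h6, ?_⟩
      change padicValRat p (x ^ 2 + c) = _
      rw [padicValRat.add_eq_of_lt h6 (pow_ne_zero 2 ih1) hc0 h4, h3]
  have hmono : ∀ m n : ℕ, m < n → (qm c)^[m] 0 ≠ (qm c)^[n] 0 := by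
    intro m n hmn he
    obtain ⟨k, rfl⟩ : ∃ k, n = k + 1 := ⟨n - 1, by omega⟩
    rcases Nat.eq_zero_or_pos m with rfl | hm
    · exact (key k).1 he.symm
    · obtain ⟨j, rfl⟩ : ∃ j, m = j + 1 := ⟨m - 1, by omega⟩
      have h1 := (key j).2
      have h2 := (key k).2
      rw [he, h2] at h1
      have h3 : (2 : ℤ) ^ j < 2 ^ k := pow_lt_pow_right₀ (by norm_num) (by omega)
      nlinarith
  intro m n h
  by_contra hne
  rcases lt_or_gt_of_ne hne with h1 | h1
  · exact hmono m n h1 h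
  · exact hmono n m h1 h.symm

theorem inj_of_int {c : ℚ} (h : c.den = 1) (h0 : c ≠ 0) (h1 : c ≠ -1) (h2 : c ≠ -2) :
    Function.Injective fun n : ℕ => (qm c)^[n] 0 := by
  have hcz : (c.num : ℚ) = c := Rat.den_eq_one_iff c |>.mp h
  rcases lt_or_ge c 0 with hneg | hpos
  · have hc3 : c ≤ -3 := by
      rw [← hcz] at h0 h1 h2 hneg ⊢
      have a0 : c.num < 0 := by exact_mod_cast hneg
      have a1 : c.num ≠ -1 := by exact_mod_cast h1
      have a2 : c.num ≠ -2 := by exact_mod_cast h2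
      have : c.num ≤ -3 := by omega
      exact_mod_cast this
    have key : ∀ n : ℕ, -c ≤ (qm c)^[n + 2] 0 := by
      intro n
      induction n with
      | zero =>
        have : (qm c)^[0 + 2] 0 = c ^ 2 + c := by simp [qm]
        rw [this]; nlinarith
      | succ n ih =>
        rw [show n + 1 + 2 = (n + 2) + 1 by ring, Function.iterate_succ_apply']
        generalize (qm c)^[n + 2] 0 = x at ih ⊢
        simp only [qm]
        nlinarith
    have step : ∀ n : ℕ, (qm c)^[n + 2] 0 < (qm c)^[n + 1 + 2] 0 := by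
      intro n
      have := key n
      rw [show n + 1 + 2 = (n + 2) + 1 by ring, Function.iterate_succ_apply' (qm c) (n + 2) 0]
      generalize (qm c)^[n + 2] 0 = x at this ⊢
      simp only [qm]
      nlinarith
    have hmono : StrictMono fun n : ℕ => (qm c)^[n + 2] 0 := strictMono_nat_of_lt_succ step
    have hlt : ∀ m n : ℕ, m < n → (qm c)^[m] 0 ≠ (qm c)^[n] 0 := by
      intro m n hmn he
      rcases Nat.lt_or_ge m 2 with hm | hm
      · rcases Nat.lt_or_ge n 2 with hn | hn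
        · have hm0 : m = 0 := by omega
          have hn1 : n = 1 := by omega
          subst hm0; subst hn1
          simp only [Function.iterate_zero, id, Function.iterate_one, qm] at he
          apply h0; rw [← sub_eq_zero]; linarith
        · obtain ⟨k, rfl⟩ : ∃ k, n = k + 2 := ⟨n - 2, by omega⟩
          have h3 := key k
          rw [← he] at h3
          have : (qm c)^[m] 0 ≤ 0 := by
            interval_cases m
            · simp
            · simp only [Function.iterate_one, qm]; linarith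
          linarith
      · obtain ⟨j, rfl⟩ : ∃ j, m = j + 2 := ⟨m - 2, by omega⟩
        obtain ⟨k, rfl⟩ : ∃ k, n = k + 2 := ⟨n - 2, by omega⟩
        exact (hmono (show j < k by omega)).ne he
    intro m n h
    by_contra hne
    rcases lt_or_gt_of_ne hne with h1 | h1
    · exact hlt m n h1 h
    · exact hlt n m h1 h.symm
  · have hc1 : 1 ≤ c := by
      rw [← hcz] at h0 hpos ⊢
      have a0 : 0 ≤ c.num := by exact_mod_cast hpos
      have a1 : c.num ≠ 0 := by exact_mod_cast h0
      have : 1 ≤ c.num := by omega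
      exact_mod_cast this
    have hmono : StrictMono fun n : ℕ => (qm c)^[n] 0 := by
      apply strictMono_nat_of_lt_succ
      intro n
      rw [Function.iterate_succ_apply']
      generalize (qm c)^[n] 0 = x
      simp only [qm]
      nlinarith [sq_nonneg (x - 1 / 2)]
    exact hmono.injective

theorem exists_above_two {c : ℚ} (hc : ¬ 4 ∣ c.den) :
    ∃ v : HeightOneSpectrum (𝓞 ℚ), v.valuation ℚ 2 < 1 ∧ v.valuation ℚ (4 * c) < 1 := by
  have h20 : Ideal.span {(2 : 𝓞 ℚ)} ≠ ⊤ := by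
    rw [Ne, Ideal.span_singleton_eq_top]
    intro h
    obtain ⟨b, hb⟩ := h.exists_right_inv
    have h1 := congrArg (Rat.ringOfIntegersEquiv) hb
    rw [map_mul, map_one, map_ofNat] at h1
    omega
  obtain ⟨m, hm, hle⟩ := Ideal.exists_le_maximal _ h20
  have h2m : (2 : 𝓞 ℚ) ∈ m := hle (Ideal.mem_span_singleton_self 2)
  have hm0 : m ≠ ⊥ := by
    rintro rfl
    rw [Ideal.mem_bot] at h2m
    exact two_ne_zero h2m
  let v : HeightOneSpectrum (𝓞 ℚ) := ⟨m, hm.isPrime, hm0⟩
  have h2 : v.valuation ℚ 2 < 1 := by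
    have h3 := (v.valuation_lt_one_iff_mem (K := ℚ) 2).mpr h2m
    have e : algebraMap (𝓞 ℚ) ℚ 2 = 2 := map_ofNat (algebraMap (𝓞 ℚ) ℚ) 2
    have h4 : v.valuation ℚ (algebraMap (𝓞 ℚ) ℚ 2) < 1 := h3
    rwa [e] at h4
  refine ⟨v, h2, ?_⟩
  have hint : ∀ z : ℤ, v.valuation ℚ (z : ℚ) ≤ 1 := by
    intro z
    have h3 := v.valuation_le_one (K := ℚ) (z : 𝓞 ℚ)
    have e : algebraMap (𝓞 ℚ) ℚ (z : 𝓞 ℚ) = (z : ℚ) := map_intCast (algebraMap (𝓞 ℚ) ℚ) z
    have h4 : v.valuation ℚ (algebraMap (𝓞 ℚ) ℚ (z : 𝓞 ℚ)) ≤ 1 := h3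
    rwa [e] at h4
  obtain ⟨k, n, hk, hkn⟩ : ∃ (k : ℕ) (n : ℤ), Odd k ∧ 4 * c * (k : ℚ) = 2 * (n : ℚ) := by
    have hden : c * (c.den : ℚ) = c.num := Rat.mul_den_eq_num c
    rcases Nat.even_or_odd c.den with he | ho
    · obtain ⟨k, hk⟩ := he
      refine ⟨k, c.num, ?_, ?_⟩
      · by_contra hcon
        rw [Nat.not_odd_iff_even] at hcon
        obtain ⟨l, hl⟩ := hcon
        exact hc ⟨l, by omega⟩
      · rw [← hden, hk]; push_cast; ring
    · refine ⟨c.den, 2 * c.num, ho, ?_⟩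
      push_cast
      rw [← hden]; ring
  obtain ⟨j, hj⟩ := hk
  have hden : v.valuation ℚ (k : ℚ) = 1 := by
    have e : (k : ℚ) = 1 + 2 * (j : ℚ) := by rw [hj]; push_cast; ring
    rw [e]
    have h3 : v.valuation ℚ (2 * (j : ℚ)) < v.valuation ℚ 1 := by
      rw [map_mul, map_one]
      have hk1 : v.valuation ℚ (j : ℚ) ≤ 1 := by
        have := hint (j : ℤ)
        simpa using this
      calc v.valuation ℚ 2 * v.valuation ℚ (j : ℚ) ≤ v.valuation ℚ 2 * 1 := by gcongr
        _ < 1 := by rw [mul_one]; exact h2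
    rw [Valuation.map_add_eq_of_lt_left _ h3, map_one]
  have h5 := congrArg (v.valuation ℚ) hkn
  rw [map_mul, hden, mul_one, map_mul (v.valuation ℚ) 2] at h5
  rw [h5]
  calc v.valuation ℚ 2 * v.valuation ℚ (n : ℚ) ≤ v.valuation ℚ 2 * 1 := by
        gcongr
        exact hint n
    _ < 1 := by rw [mul_one]; exact h2

theorem nonperiodic_rat (c : ℚ) (hc : ¬ 4 ∣ c.den) (h0 : c ≠ 0) (h1 : c ≠ -1) (h2 : c ≠ -2)
    (Γ : Finset ℚ) (hΓ : ∀ γ ∈ Γ, ∀ n, 0 < n → (qm c)^[n] γ ≠ γ) :
    {v : HeightOneSpectrum (𝓞 ℚ) | v.valuation ℚ c ≤ 1 ∧ ∀ γ ∈ Γ, v.valuation ℚ γ ≤ 1 ∧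
      ∀ n, 0 < n → ¬ v.valuation ℚ ((qm c)^[n] γ - γ) < 1}.Infinite := by
  refine nonperiodic_infinite c (exists_above_two hc) ?_ Γ hΓ
  by_cases h : c.den = 1
  · exact inj_of_int h h0 h1 h2
  · exact inj_of_den h

end Pool.Agent.Arb
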