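import Pool.Agent.Arb.Rat
import Pool.Agent.Arb.Obstr

/-!
# The rational case, denominators
-/

set_option autoImplicit false

open IsDedekindDomain NumberField

namespace Pool.Agent.Arb

theorem exists_at_prime {p : ℕ} (hp : p.Prime) :
    ∃ v : HeightOneSpectrum (𝓞 ℚ), v.valuation ℚ (p : ℚ) = WithZero.exp (-1) ∧
      ∀ z : ℤ, ¬ (p : ℤ) ∣ z → v.valuation ℚ (z : ℚ) = 1 := by
  have hpZ : Prime (p : ℤ) := Nat.prime_iff_prime_int.mp hp
  let e := Rat.ringOfIntegersEquiv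
  have hpO : Prime ((p : ℕ) : 𝓞 ℚ) := by
    have h1 : Prime (e.symm (p : ℤ)) := (MulEquiv.prime_iff e.symm).mpr hpZ
    have h2 : e.symm (p : ℤ) = ((p : ℕ) : 𝓞 ℚ) := by
      simp
    rwa [h2] at h1
  have hne : Ideal.span {((p : ℕ) : 𝓞 ℚ)} ≠ ⊥ := by
    rw [Ne, Ideal.span_singleton_eq_bot]; exact hpO.ne_zero
  let v : HeightOneSpectrum (𝓞 ℚ) :=
    ⟨Ideal.span {((p : ℕ) : 𝓞 ℚ)}, (Ideal.span_singleton_prime hpO.ne_zero).mpr hpO, hne⟩
  refine ⟨v, ?_, ?_⟩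
  · have h1 := v.intValuation_singleton hpO.ne_zero rfl
    have h2 : v.valuation ℚ (algebraMap (𝓞 ℚ) ℚ ((p : ℕ) : 𝓞 ℚ)) = WithZero.exp (-1) := by
      rw [v.valuation_of_algebraMap (K := ℚ)]; exact h1
    have e1 : algebraMap (𝓞 ℚ) ℚ ((p : ℕ) : 𝓞 ℚ) = (p : ℚ) := map_natCast _ _
    rwa [e1] at h2
  · intro z hz
    have e1 : algebraMap (𝓞 ℚ) ℚ (z : 𝓞 ℚ) = (z : ℚ) := map_intCast (algebraMap (𝓞 ℚ) ℚ) z
    have hle : v.valuation ℚ (z : ℚ) ≤ 1 := by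
      have h3 := v.valuation_le_one (K := ℚ) (z : 𝓞 ℚ)
      have h4 : v.valuation ℚ (algebraMap (𝓞 ℚ) ℚ (z : 𝓞 ℚ)) ≤ 1 := h3
      rwa [e1] at h4
    rcases lt_or_eq_of_le hle with h | h
    · exfalso
      apply hz
      rw [← e1] at h
      have h2 : (z : 𝓞 ℚ) ∈ Ideal.span {((p : ℕ) : 𝓞 ℚ)} := (v.valuation_lt_one_iff_mem _).mp h
      rw [Ideal.mem_span_singleton] at h2
      have h3 : e ((p : ℕ) : 𝓞 ℚ) ∣ e (z : 𝓞 ℚ) := map_dvd e h2
      rwa [map_natCast, map_intCast] at h3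
    · exact h

theorem nonperiodic_rat_of_odd (c : ℚ) {p : ℕ} (hp : p.Prime) (hp2 : p ≠ 2)
    (hodd : Odd (c.den.factorization p)) (Γ : Finset ℚ) :
    {v : HeightOneSpectrum (𝓞 ℚ) | v.valuation ℚ c ≤ 1 ∧ ∀ γ ∈ Γ, v.valuation ℚ γ ≤ 1 ∧
      ∀ n, 0 < n → ¬ v.valuation ℚ ((qm c)^[n] γ - γ) < 1}.Infinite := by
  obtain ⟨v, hvp, hvz⟩ := exists_at_prime hp
  set k := c.den.factorization p with hk
  have hpd : p ∣ c.den := by
    by_contra h
    have : c.den.factorization p = 0 := Nat.factorization_eq_zero_of_not_dvd h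
    rw [← hk] at this
    rw [this] at hodd
    exact (Nat.not_odd_iff_even.mpr (by decide)) hodd
  have hdecomp : c.den = p ^ k * (c.den / p ^ k) := (Nat.ordProj_mul_ordCompl_eq_self _ _).symm
  have hndvd : ¬ p ∣ c.den / p ^ k := Nat.not_dvd_ordCompl hp c.den_nz
  have hnum : ¬ (p : ℤ) ∣ c.num := by
    intro h
    have h3 : p ∣ c.num.natAbs := Int.natCast_dvd.mp h
    have h4 := Nat.dvd_gcd h3 hpd
    rw [c.reduced.gcd_eq_one] at h4
    exact hp.one_lt.ne' (Nat.dvd_one.mp h4)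
  have hvc : v.valuation ℚ c = WithZero.exp (k : ℤ) := by
    have h1 : v.valuation ℚ (c.num : ℚ) = 1 := hvz _ hnum
    have h2 : v.valuation ℚ ((c.den / p ^ k : ℕ) : ℚ) = 1 := by
      have h4 := hvz ((c.den / p ^ k : ℕ) : ℤ) (by exact_mod_cast hndvd)
      have e4 : (((c.den / p ^ k : ℕ) : ℤ) : ℚ) = ((c.den / p ^ k : ℕ) : ℚ) := Int.cast_natCast _
      rwa [e4] at h4
    have h3 : v.valuation ℚ (c.den : ℚ) = WithZero.exp (-(k : ℤ)) := by
      have e : (c.den : ℚ) = (p : ℚ) ^ k * ((c.den / p ^ k : ℕ) : ℚ) := by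
        exact_mod_cast hdecomp
      rw [e, map_mul, map_pow, hvp, h2, mul_one, ← WithZero.exp_nsmul]
      congr 1
      simp
    have e : c = (c.num : ℚ) / (c.den : ℚ) := (Rat.num_div_den c).symm
    rw [e, map_div₀, h1, h3, WithZero.exp_neg, one_div, inv_inv]
  have hk0 : 0 < k := hodd.pos
  refine infinite_of_nonsquare c v ?_ ?_ Γ
  · have h16 : v.valuation ℚ (16 : ℚ) = 1 := by
      have h5 : ¬ (p : ℤ) ∣ 16 := by
        intro h
        have h6 : p ∣ 16 := by exact_mod_cast h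
        have h7 : p ∣ 2 ^ 4 := by simpa using h6
        exact hp2 ((Nat.prime_dvd_prime_iff_eq hp Nat.prime_two).mp (hp.dvd_of_dvd_pow h7))
      have := hvz 16 h5
      simpa using this
    rw [map_mul, h16, one_mul, hvc, ← WithZero.exp_zero, WithZero.exp_lt_exp]
    exact_mod_cast hk0
  · rintro ⟨b, hb⟩
    have h1 : Valued.v (algebraMap ℚ (v.adicCompletion ℚ) (-c)) = v.valuation ℚ (-c) :=
      v.valuedAdicCompletion_eq_valuation' (K := ℚ) (-c)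
    rw [hb, map_mul, Valuation.map_neg, hvc] at h1
    have hb0 : Valued.v b ≠ 0 := by
      intro h
      rw [h, mul_zero] at h1
      exact WithZero.exp_ne_zero h1.symm
    have h2 := congrArg WithZero.log h1
    rw [WithZero.log_mul hb0 hb0, WithZero.log_exp] at h2
    obtain ⟨j, hj⟩ := hodd
    omega

/-- The rational case. -/
theorem nonperiodic_rat' (c : ℚ) (h0 : c ≠ 0) (h1 : c ≠ -1) (h2 : c ≠ -2)
    (hc : ¬ 4 ∣ c.den ∨ 1 / 4 < c ∨ ∃ p : ℕ, p.Prime ∧ p ≠ 2 ∧ Odd (c.den.factorization p))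
    (Γ : Finset ℚ) (hΓ : ∀ γ ∈ Γ, ∀ n, 0 < n → (qm c)^[n] γ ≠ γ) :
    {v : HeightOneSpectrum (𝓞 ℚ) | v.valuation ℚ c ≤ 1 ∧ ∀ γ ∈ Γ, v.valuation ℚ γ ≤ 1 ∧
      ∀ n, 0 < n → ¬ v.valuation ℚ ((qm c)^[n] γ - γ) < 1}.Infinite := by
  rcases hc with hc | hc | ⟨p, hp, hp2, hodd⟩
  · exact nonperiodic_rat c hc h0 h1 h2 Γ hΓ
  · refine infinite_of_real c (algebraMap ℚ ℝ) ?_ Γ
    have : ((1 / 4 : ℚ) : ℝ) < ((c : ℚ) : ℝ) := by exact_mod_cast hc
    simpa using this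
  · exact nonperiodic_rat_of_odd c hp hp2 hodd Γ

end Pool.Agent.Arb
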