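import Mathlib

/-!
# The Dedekind zeta function as a sum over ideals with values in `[0, ∞]`
-/

set_option autoImplicit false

open NumberField Filter Topology ENNReal Ideal

namespace Pool.Agent.Arb

noncomputable section

/-- the term of the zeta function -/
def zt {K : Type*} [Field K] [NumberField K] (s : ℝ) (I : Ideal (𝓞 K)) : ℝ≥0∞ :=
  ENNReal.ofReal ((absNorm I : ℝ) ^ (-s))

variable (K : Type*) [Field K] [NumberField K]

/-- the nonzero ideals prime to `T` -/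
def prTo (T : Set (Ideal (𝓞 K))) : Set (Ideal (𝓞 K)) := {I | I ≠ ⊥ ∧ ∀ P ∈ T, ¬ P ∣ I}

/-- zeta function of the ideals prime to `T` -/
def Z (T : Set (Ideal (𝓞 K))) (s : ℝ) : ℝ≥0∞ := ∑' I : prTo K T, zt s I.1

variable {K}

lemma zt_bot {s : ℝ} (hs : s ≠ 0) : zt s (⊥ : Ideal (𝓞 K)) = 0 := by
  unfold zt
  rw [absNorm_bot, Nat.cast_zero, Real.zero_rpow (neg_ne_zero.2 hs), ENNReal.ofReal_zero]

lemma zt_mul (s : ℝ) (I J : Ideal (𝓞 K)) : zt s (I * J) = zt s I * zt s J := by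
  unfold zt
  rw [map_mul, Nat.cast_mul, Real.mul_rpow (Nat.cast_nonneg _) (Nat.cast_nonneg _),
    ENNReal.ofReal_mul (by positivity)]

variable (K)

lemma Z_empty {s : ℝ} (hs : s ≠ 0) : Z K ∅ s = ∑' I : Ideal (𝓞 K), zt s I := by
  have h : prTo K ∅ = {⊥}ᶜ := by
    ext I
    simp [prTo]
  unfold Z
  rw [h, tsum_subtype ({⊥}ᶜ : Set (Ideal (𝓞 K))) (zt s)]
  apply tsum_congr
  intro I
  by_cases hI : I = ⊥
  · rw [hI, Set.indicator_of_notMem (by simp), zt_bot hs]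
  · rw [Set.indicator_of_mem (by simpa using hI)]

/-- the number of ideals of norm `n` -/
def cf (n : ℕ) : ℝ := Nat.card {I : Ideal (𝓞 K) // absNorm I = n}

lemma Z_eq_tsum {s : ℝ} (hs : s ≠ 0) :
    Z K ∅ s = ∑' n : ℕ, ENNReal.ofReal (cf K n * (n : ℝ) ^ (-s)) := by
  rw [Z_empty K hs, ← ENNReal.tsum_fiberwise (zt s) (absNorm : Ideal (𝓞 K) → ℕ)]
  apply tsum_congr
  intro n
  have h1 : ∀ I : (absNorm : Ideal (𝓞 K) → ℕ) ⁻¹' {n}, zt s I.1 =
      ENNReal.ofReal ((n : ℝ) ^ (-s)) := by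
    rintro ⟨I, hI⟩
    have hI' : absNorm I = n := hI
    unfold zt
    rw [hI']
  rw [tsum_congr h1, ENNReal.tsum_const, cf, ENNReal.ofReal_mul (Nat.cast_nonneg _)]
  congr 1
  have hfin : Finite ↑((absNorm : Ideal (𝓞 K) → ℕ) ⁻¹' {n}) :=
    (Ideal.finite_setOfPred_absNorm_eq (S := 𝓞 K) n).to_subtype
  rw [ENNReal.ofReal_natCast, ENat.card_eq_coe_natCard]
  rfl

lemma cf_nonneg (n : ℕ) : 0 ≤ cf K n := Nat.cast_nonneg _

lemma cf_bigO : (fun n : ℕ ↦ ∑ k ∈ Finset.Icc 1 n, cf K k) =O[atTop] fun n ↦ (n : ℝ) ^ (1 : ℝ) := by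
  have h : Tendsto (fun n : ℕ ↦ (∑ k ∈ Finset.Icc 1 n, cf K k) / (n : ℝ)) atTop
      (𝓝 (dedekindZeta_residue K)) := by
    refine ((Ideal.tendsto_norm_le_div_atTop₀ K).comp tendsto_natCast_atTop_atTop).congr fun n ↦ ?_
    simp only [Function.comp_apply, Nat.cast_le, cf, ← Nat.cast_sum]
    congr
    rw [← add_left_inj 1, ← card_norm_le_eq_card_norm_le_add_one,
      show Finset.Icc 1 n = Finset.Ioc 0 n from Finset.Icc_succ_left_eq_Ioc _ _,
      show 1 = Nat.card {I : Ideal (𝓞 K) // absNorm I = 0} by simp [Ideal.absNorm_eq_zero_iff],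
      Finset.sum_Ioc_add_eq_sum_Icc (n.zero_le),
      ← Finset.card_preimage_eq_sum_card_image_eq (fun k _ ↦ finite_setOfPred_absNorm_eq k)]
    simp [Set.coe_eq_subtype]
  have h2 := h.isBigO_one ℝ
  have h3 : (fun n : ℕ ↦ (∑ k ∈ Finset.Icc 1 n, cf K k) / (n : ℝ) * (n : ℝ)) =O[atTop]
      fun n ↦ (1 : ℝ) * (n : ℝ) := h2.mul (Asymptotics.isBigO_refl _ _)
  simp only [one_mul] at h3
  simp only [Real.rpow_one]
  refine h3.congr' ?_ EventuallyEq.rfl
  filter_upwards [eventually_ne_atTop 0] with n hn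
  have : (n : ℝ) ≠ 0 := by exact_mod_cast hn
  field_simp

lemma cf_summable {s : ℝ} (hs : 1 < s) : Summable fun n : ℕ ↦ cf K n * (n : ℝ) ^ (-s) := by
  have h := LSeriesSummable_of_sum_norm_bigO_and_nonneg (s := (s : ℂ)) (cf_bigO K) (cf_nonneg K)
    zero_le_one (by simpa using hs)
  have h2 := h.norm
  refine h2.congr fun n ↦ ?_
  rw [LSeries.norm_term_eq]
  split_ifs with hn
  · rw [hn, Nat.cast_zero, Real.zero_rpow (by linarith), mul_zero]
  · rw [Complex.norm_of_nonneg (cf_nonneg K n), Complex.ofReal_re, Real.rpow_neg (Nat.cast_nonneg _),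
      div_eq_mul_inv]

lemma Z_ne_top {s : ℝ} (hs : 1 < s) : Z K ∅ s ≠ ⊤ := by
  rw [Z_eq_tsum K (by linarith), ← ENNReal.ofReal_tsum_of_nonneg
    (fun n ↦ mul_nonneg (cf_nonneg K n) (by positivity)) (cf_summable K hs)]
  exact ENNReal.ofReal_ne_top

lemma Z_toReal {s : ℝ} (hs : 1 < s) : (((Z K ∅ s).toReal : ℝ) : ℂ) = dedekindZeta K s := by
  rw [Z_eq_tsum K (by linarith), ← ENNReal.ofReal_tsum_of_nonneg
    (fun n ↦ mul_nonneg (cf_nonneg K n) (by positivity)) (cf_summable K hs),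
    ENNReal.toReal_ofReal (tsum_nonneg fun n ↦ mul_nonneg (cf_nonneg K n) (by positivity)),
    Complex.ofReal_tsum, dedekindZeta, LSeries]
  apply tsum_congr
  intro n
  rw [LSeries.term_def]
  split_ifs with hn
  · rw [hn, Nat.cast_zero, Real.zero_rpow (by linarith), mul_zero, Complex.ofReal_zero]
  · rw [Real.rpow_neg (Nat.cast_nonneg _), Complex.ofReal_mul, Complex.ofReal_inv,
      Complex.ofReal_cpow (Nat.cast_nonneg _), div_eq_mul_inv]
    simp [cf]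

/-- the pole at `1` -/
theorem Z_tendsto : Tendsto (fun s : ℝ ↦ (s - 1) * (Z K ∅ s).toReal) (𝓝[>] 1)
    (𝓝 (dedekindZeta_residue K)) := by
  have h := tendsto_sub_one_mul_dedekindZeta_nhdsGT K
  have h2 := (Complex.continuous_re.tendsto _).comp h
  simp only [Complex.ofReal_re] at h2
  refine h2.congr' ?_
  filter_upwards [self_mem_nhdsWithin] with s hs
  simp only [Function.comp_apply]
  rw [← Z_toReal K hs, ← Complex.ofReal_one, ← Complex.ofReal_sub, ← Complex.ofReal_mul,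
    Complex.ofReal_re]

/-- one prime -/
lemma Z_insert (T : Set (Ideal (𝓞 K))) {P : Ideal (𝓞 K)} (hP : P ≠ ⊥) (hP1 : P ≠ ⊤) {s : ℝ}
    (hs : 1 ≤ s) : Z K T s ≤ Z K (insert P T) s + 2⁻¹ * Z K T s := by
  have hsub : prTo K T ⊆ prTo K (insert P T) ∪ (P * ·) '' (prTo K T) := by
    rintro I ⟨h1, h2⟩
    by_cases h3 : P ∣ I
    · right
      obtain ⟨J, rfl⟩ := h3
      refine ⟨J, ⟨?_, ?_⟩, rfl⟩
      · rintro rfl
        exact h1 (by simp)
      · intro Q hQ h4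
        exact h2 Q hQ (h4.mul_left P)
    · left
      refine ⟨h1, ?_⟩
      intro Q hQ
      rcases hQ with rfl | hQ
      · exact h3
      · exact h2 Q hQ
  have h1 : Z K T s ≤ ∑' I : ↑(prTo K (insert P T) ∪ (P * ·) '' (prTo K T)), zt s I.1 :=
    ENNReal.tsum_mono_subtype (zt s) hsub
  refine h1.trans ((ENNReal.tsum_union_le _ _ _).trans ?_)
  apply add_le_add le_rfl
  have hinj : Set.InjOn (P * ·) (prTo K T) := by
    intro I _ J _ h
    exact mul_left_cancel₀ hP h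
  rw [tsum_image (zt s) hinj, Z, ← ENNReal.tsum_mul_left]
  apply ENNReal.tsum_le_tsum
  rintro ⟨I, hI⟩
  show zt s (P * I) ≤ 2⁻¹ * zt s I
  rw [zt_mul]
  apply mul_le_mul_left
  unfold zt
  have h2 : 2 ≤ absNorm P := by
    have h3 : absNorm P ≠ 0 := fun h => hP (absNorm_eq_zero_iff.1 h)
    have h4 : absNorm P ≠ 1 := fun h => hP1 (absNorm_eq_one_iff.1 h)
    omega
  have h3 : ((absNorm P : ℕ) : ℝ) ^ (-s) ≤ 2⁻¹ := by
    have h4 : (2 : ℝ) ≤ absNorm P := by exact_mod_cast h2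
    calc ((absNorm P : ℕ) : ℝ) ^ (-s) ≤ (2 : ℝ) ^ (-s) :=
          Real.rpow_le_rpow_of_nonpos (by norm_num) h4 (by linarith)
      _ ≤ (2 : ℝ) ^ (-1 : ℝ) := Real.rpow_le_rpow_of_exponent_le (by norm_num) (by linarith)
      _ = 2⁻¹ := by rw [Real.rpow_neg_one]
  calc ENNReal.ofReal (((absNorm P : ℕ) : ℝ) ^ (-s)) ≤ ENNReal.ofReal 2⁻¹ :=
        ENNReal.ofReal_le_ofReal h3
    _ = 2⁻¹ := by
        rw [ENNReal.ofReal_inv_of_pos (by norm_num)]; norm_num

lemma Z_anti {T T' : Set (Ideal (𝓞 K))} (h : T ⊆ T') (s : ℝ) : Z K T' s ≤ Z K T s :=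
  ENNReal.tsum_mono_subtype (zt s) fun _ hI => ⟨hI.1, fun P hP => hI.2 P (h hP)⟩

/-- finitely many primes do not matter -/
theorem Z_finset (T : Finset (Ideal (𝓞 K))) (hT : ∀ P ∈ T, P ≠ ⊥ ∧ P ≠ ⊤) {s : ℝ} (hs : 1 < s) :
    Z K ∅ s ≤ 2 ^ T.card * Z K (T : Set (Ideal (𝓞 K))) s := by
  classical
  induction T using Finset.induction_on with
  | empty => simp
  | insert P T hPT ih =>
    have h1 := ih fun Q hQ => hT Q (Finset.mem_insert_of_mem hQ)
    obtain ⟨hP0, hP1⟩ := hT P (Finset.mem_insert_self P T)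
    have h2 := Z_insert K (T : Set (Ideal (𝓞 K))) hP0 hP1 hs.le
    have hfin : Z K (T : Set (Ideal (𝓞 K))) s ≠ ⊤ :=
      ne_top_of_le_ne_top (Z_ne_top K hs) (Z_anti K (Set.empty_subset _) s)
    have h3 : Z K (T : Set (Ideal (𝓞 K))) s ≤ 2 * Z K (insert P (T : Set (Ideal (𝓞 K)))) s := by
      set a := Z K (T : Set (Ideal (𝓞 K))) s
      set b := Z K (insert P (T : Set (Ideal (𝓞 K)))) s
      have h4 : a = 2⁻¹ * a + 2⁻¹ * a := by
        rw [← add_mul, ENNReal.inv_two_add_inv_two, one_mul]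
      have h5 : 2⁻¹ * a ≤ b := by
        have h6 : 2⁻¹ * a + 2⁻¹ * a ≤ b + 2⁻¹ * a := by rw [← h4]; exact h2
        exact (ENNReal.add_le_add_iff_right
          (ENNReal.mul_ne_top (by simp) hfin)).1 h6
      calc a = 2 * (2⁻¹ * a) := by
            rw [← mul_assoc, ENNReal.mul_inv_cancel (by norm_num) (by norm_num), one_mul]
        _ ≤ 2 * b := mul_le_mul_right h5 2
    rw [Finset.card_insert_of_notMem hPT, Finset.coe_insert, pow_succ, mul_assoc]
    exact h1.trans (mul_le_mul_right h3 _)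

end

end Pool.Agent.Arb
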